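import Pool.Agent.MP_100d00_nt.Cnt2

/-!
Long gaps: the maps `s ↦ k + s / k` for `k = u a` overlap little.
-/

set_option autoImplicit false

namespace Pool.Agent.MP_100d00_nt

open Finset Pool.Agent.MP_a96b63_al
open scoped Classical

lemma moment_le {ι : Type*} (I : Finset ι) (P : ι → ℕ → Prop) (N m : ℕ) {E : ℝ} (hE0 : 0 ≤ E)
    (hE : ∀ s ∈ powersetCard m I, (#{t ∈ range N | ∀ i ∈ s, P i t} : ℝ) ≤ E) :
    ∑ t ∈ range N, (m.factorial : ℝ) * (#{i ∈ I | P i t}).choose m ≤ (#I : ℝ) ^ m * E := by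
  have h3 : ∑ t ∈ range N, (#{i ∈ I | P i t}).choose m =
      ∑ s ∈ powersetCard m I, #{t ∈ range N | ∀ i ∈ s, P i t} := by
    rw [sum_congr rfl fun s (_ : s ∈ powersetCard m I) =>
      card_filter (fun t => ∀ i ∈ s, P i t) (range N), sum_comm]
    refine sum_congr rfl fun t _ => ?_
    rw [← card_powersetCard, ← card_filter]
    congr 1
    ext s
    simp only [mem_powersetCard, mem_filter, subset_iff]
    exact ⟨fun ⟨h, h'⟩ => ⟨⟨fun _ hi => (h hi).1, h'⟩, fun _ hi => (h hi).2⟩,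
      fun ⟨⟨h, h'⟩, h''⟩ => ⟨fun i hi => ⟨h hi, h'' i hi⟩, h'⟩⟩
  have h5 : (m.factorial : ℝ) * (#I).choose m ≤ (#I : ℝ) ^ m := by
    have : m.factorial * (#I).choose m ≤ #I ^ m := by
      rw [← Nat.descFactorial_eq_factorial_mul_choose]
      exact Nat.descFactorial_le_pow _ _
    exact_mod_cast this
  rw [← mul_sum, ← Nat.cast_sum, h3, Nat.cast_sum]
  calc _ ≤ (m.factorial : ℝ) * ((#I).choose m * E) := by
        rw [← card_powersetCard, ← nsmul_eq_mul _ E]
        gcongr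
        exact sum_le_card_nsmul _ _ _ hE
    _ ≤ _ := by rw [← mul_assoc]; gcongr

/-- few `t` have many primes in `(t, t + H]` -/
theorem many_le {X H w m : ℕ} {T : ℝ} (hw : 2 ≤ w) (hm : 0 < m) (hT : 2 * (m : ℝ) ≤ T) :
    (#{t ∈ range X | T < #{h ∈ Icc 1 H | (h + 1 * t).Prime ∧ w < h + 1 * t}} : ℝ) ≤
      (2 * H / T) ^ m * (X * (1 + 2 * (m ^ 2 + 3 * m ^ 2 * Real.log H)) ^ m / Real.log w ^ m +
        2 * (w : ℝ) ^ (4 * m)) := by
  have hm' : (0 : ℝ) < m := by exact_mod_cast hm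
  have hT0 : 0 < T := by linarith
  have hlog : 0 < Real.log w := Real.log_pos (by exact_mod_cast hw)
  have h0 := Real.log_natCast_nonneg H
  have h1 := moment_le (Icc 1 H) (fun h t => (h + 1 * t).Prime ∧ w < h + 1 * t) X m
    (E := X * (1 + 2 * (m ^ 2 + 3 * m ^ 2 * Real.log H)) ^ m / Real.log w ^ m +
      2 * (w : ℝ) ^ (4 * m)) (by positivity) fun s hs => by
      obtain ⟨s1, s2⟩ := mem_powersetCard.mp hs
      exact (le_of_eq (by congr!)).trans (sieve_fin s (fun h => h) (fun _ => 1) (B := H) s2 hm hw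
        (fun i hi => by have := mem_Icc.mp (s1 hi); omega) (fun i _ i' _ hne => by omega) X)
  rw [Nat.card_Icc, Nat.add_sub_cancel] at h1
  calc _ ≤ ∑ t ∈ range X, (2 / T) ^ m * ((m.factorial : ℝ) *
          (#{h ∈ Icc 1 H | (h + 1 * t).Prime ∧ w < h + 1 * t}).choose m) := by
        rw [card_filter, Nat.cast_sum]
        refine sum_le_sum fun t _ => ?_
        split_ifs with h
        · set r := #{h ∈ Icc 1 H | (h + 1 * t).Prime ∧ w < h + 1 * t}
          have h2 : 2 * m ≤ r := by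
            have : ((2 * m : ℕ) : ℝ) ≤ r := by push_cast; linarith
            exact_mod_cast this
          have h3 := Nat.pow_le_choose (α := ℝ) m r
          have h4 : T / 2 ≤ ((r + 1 - m : ℕ) : ℝ) := by
            rw [Nat.cast_sub (by omega)]; push_cast; linarith
          rw [div_le_iff₀ (by positivity)] at h3
          have h5 := (pow_le_pow_left₀ (by positivity) h4 m).trans h3
          calc ((1 : ℕ) : ℝ) = (2 / T) ^ m * (T / 2) ^ m := by
                rw [← mul_pow, show 2 / T * (T / 2) = 1 by field_simp, one_pow, Nat.cast_one]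
            _ ≤ _ := by rw [mul_comm (m.factorial : ℝ)]; gcongr
        · rw [Nat.cast_zero]; positivity
    _ ≤ _ := by
        rw [← mul_sum, show 2 * (H : ℝ) / T = 2 / T * H by ring, mul_pow, mul_assoc]
        exact mul_le_mul_of_nonneg_left ((le_of_eq (by congr!)).trans h1) (by positivity)

lemma pi_add_card (p d : ℕ) :
    Nat.primeCounting (p + d) = Nat.primeCounting p + #{h ∈ Icc 1 d | (p + h).Prime} := by
  induction d with
  | zero => simp
  | succ d ih =>
    rw [← Finset.insert_Icc_right_eq_Icc_add_one (by omega), filter_insert]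
    have e : Nat.primeCounting (p + (d + 1)) =
        Nat.primeCounting (p + d) + if (p + (d + 1)).Prime then 1 else 0 :=
      Nat.count_succ Nat.Prime (p + (d + 1))
    rw [e, ih]
    split_ifs
    · rw [card_insert_of_notMem (by simp)]; omega
    · rfl

lemma pi_lt {p p' : ℕ} (h : p < p') (hp : p'.Prime) :
    Nat.primeCounting p < Nat.primeCounting p' := by
  obtain ⟨d, rfl⟩ := Nat.exists_eq_add_of_lt h
  rw [add_assoc, pi_add_card]
  exact Nat.lt_add_of_pos_right (card_pos.mpr ⟨d + 1, mem_filter.mpr ⟨by simp, hp⟩⟩)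

lemma pi_inj {p p' : ℕ} (hp : p.Prime) (hp' : p'.Prime)
    (h : Nat.primeCounting p = Nat.primeCounting p') : p = p' := by
  rcases lt_trichotomy p p' with h1 | h1 | h1
  · exact absurd h (pi_lt h1 hp').ne
  · exact h1
  · exact absurd h (pi_lt h1 hp).ne'

lemma cluster {p H J w : ℕ} (h1 : w < p) (h2 : w < Nat.primeCounting p)
    (h3 : #{h ∈ Icc 1 H | (h + 1 * p).Prime ∧ w < h + 1 * p} ≤ J) (P : Finset ℕ)
    (hP : ∀ q ∈ P, q.Prime ∧ (Nat.primeCounting q).Prime) :
    #{q ∈ P | p < q ∧ q ≤ p + H} ≤ #{h ∈ Icc 1 J | (h + 1 * Nat.primeCounting p).Prime ∧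
      w < h + 1 * Nat.primeCounting p} := by
  refine card_le_card_of_injOn (fun q => Nat.primeCounting q - Nat.primeCounting p)
    (fun q hq => ?_) fun q hq q' hq' h => ?_
  · obtain ⟨a1, a2, a3⟩ := mem_filter.mp (mem_coe.mp hq)
    have a4 := pi_lt a2 (hP q a1).1
    have a5 := Nat.monotone_primeCounting a3
    have a6 : #{h ∈ Icc 1 H | (p + h).Prime} ≤ J := le_trans (card_le_card fun h hh => by
      obtain ⟨b1, b2⟩ := mem_filter.mp hh
      exact mem_filter.mpr ⟨b1, by rwa [one_mul, add_comm], by omega⟩) h3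
    rw [pi_add_card] at a5
    refine mem_coe.mpr (mem_filter.mpr ⟨mem_Icc.mpr ⟨by dsimp only; omega, by dsimp only; omega⟩,
      ?_, by dsimp only; omega⟩)
    dsimp only
    rw [one_mul, Nat.sub_add_cancel a4.le]
    exact (hP q a1).2
  · obtain ⟨a1, a2, -⟩ := mem_filter.mp (mem_coe.mp hq)
    obtain ⟨b1, b2, -⟩ := mem_filter.mp (mem_coe.mp hq')
    have a4 := pi_lt a2 (hP q a1).1
    have b4 := pi_lt b2 (hP q' b1).1
    exact pi_inj (hP q a1).1 (hP q' b1).1 (by dsimp only at h; omega)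

lemma cs {α : Type*} (E : Finset α) (B : Finset ℕ) (φ : α → ℕ) (h : ∀ e ∈ E, φ e ∈ B) :
    #E ^ 2 ≤ #B * ∑ e ∈ E, ∑ e' ∈ E, if φ e = φ e' then 1 else 0 := by
  rw [card_eq_sum_card_fiberwise (f := φ) (t := B) fun e he => h e he]
  refine sq_sum_le_card_mul_sum_sq.trans (le_of_eq ?_)
  congr 1
  rw [← sum_fiberwise_of_maps_to h]
  refine sum_congr rfl fun n _ => ?_
  rw [sq, ← smul_eq_mul, ← sum_const]
  refine sum_congr rfl fun e he => ?_
  rw [← card_filter, (mem_filter.mp he).2]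
  congr 1
  ext e'
  simp only [mem_filter, eq_comm]

lemma near (k p : ℕ) (hk : 0 < k) : p < k * ((p + k) / k) ∧ k * ((p + k) / k) ≤ p + k := by
  have h1 := Nat.div_add_mod (p + k) k
  have h2 := Nat.mod_lt (p + k) hk
  omega

lemma rel {u a b p p' : ℕ} (hu : 0 < u) (ha : 0 < a) (hb : 0 < b)
    (h : u * a + (p + u * a) / (u * a) = u * b + (p' + u * b) / (u * b)) :
    |(b * p - a * p' - u ^ 2 * a * b * (b - a) : ℤ)| < u * a * b := by
  obtain ⟨h1, h2⟩ := near (u * a) p (by positivity)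
  obtain ⟨h3, h4⟩ := near (u * b) p' (by positivity)
  generalize (p + u * a) / (u * a) = m₁ at *
  generalize (p' + u * b) / (u * b) = m₂ at *
  zify at h h1 h2 h3 h4 hu ha hb
  have e : (b * p - a * p' - u ^ 2 * a * b * (b - a) : ℤ) =
      a * (u * b * m₂ - p') - b * (u * a * m₁ - p) := by linear_combination (u * a * b : ℤ) * h
  rw [e, abs_lt]
  constructor <;> nlinarith

lemma rel2 {U u v a b p q p' : ℕ} (hu : u ∈ Ioc U (2 * U)) (hv : v ∈ Ioc U (2 * U))
    (ha : a ∈ Ioc U (2 * U)) (hb : b ∈ Ioc U (2 * U)) (hab : a ≠ b)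
    (h : u * a + (p + u * a) / (u * a) = u * b + (p' + u * b) / (u * b))
    (h' : v * a + (q + v * a) / (v * a) = v * b + (p' + v * b) / (v * b)) :
    q ≤ p + 16 * U ^ 4 ∧ (p = q → u = v) := by
  rw [mem_Ioc] at hu hv ha hb
  have h1 := rel (by omega) (by omega) (by omega) h
  have h2 := rel (by omega) (by omega) (by omega) h'
  have hb0 : (0 : ℤ) < b := by exact_mod_cast (by omega : 0 < b)
  have ha0 : (0 : ℤ) < a := by exact_mod_cast (by omega : 0 < a)
  have huv : (0 : ℤ) < u + v := by exact_mod_cast (by omega : 0 < u + v)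
  have h3 : |(p - q - a * (u + v) * ((u - v) * (b - a)) : ℤ)| < a * (u + v) := by
    refine lt_of_mul_lt_mul_left ?_ hb0.le
    rw [← abs_of_pos hb0, ← abs_mul, abs_of_pos hb0,
      show (b * (p - q - a * (u + v) * ((u - v) * (b - a))) : ℤ) =
        (b * p - a * p' - u ^ 2 * a * b * (b - a)) - (b * q - a * p' - v ^ 2 * a * b * (b - a))
        by ring]
    refine (abs_sub _ _).trans_lt ?_
    linarith
  constructor
  · have h4 : |((u - v) * (b - a) : ℤ)| ≤ U * U := by
      rw [abs_mul]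
      exact mul_le_mul (by rw [abs_le]; omega) (by rw [abs_le]; omega) (abs_nonneg _) (by positivity)
    have h5 : (a * (u + v) : ℤ) ≤ 2 * U * (4 * U) :=
      mul_le_mul (by omega) (by omega) huv.le (by positivity)
    have h6 : (1 : ℤ) ≤ U * U := by
      have : (1 : ℤ) ≤ U := by omega
      nlinarith
    have h7 := (abs_lt.mp h3).1
    have h8 := mul_le_mul_of_nonneg_left (abs_le.mp h4).1 (mul_pos ha0 huv).le
    have h9 : (a * (u + v) : ℤ) * (U * U + 1) ≤ 2 * U * (4 * U) * (U * U + U * U) := by gcongr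
    zify
    nlinarith
  · rintro rfl
    rw [sub_self, zero_sub, abs_neg, abs_mul, abs_of_pos (mul_pos ha0 huv),
      mul_lt_iff_lt_one_right (mul_pos ha0 huv), Int.abs_lt_one_iff, mul_eq_zero] at h3
    omega

theorem big_le (P : Finset ℕ) {x U K N : ℕ} (hU : 0 < U)
    (hP : ∀ p ∈ P, p ≤ x ∧ (p.Prime ∧ (Nat.primeCounting p).Prime) ∧
      ∀ i, 1 ≤ i → i ≤ 4 * U ^ 2 → ¬ (p + i).Prime)
    (hK : ∀ p ∈ P, #{q ∈ P | p < q ∧ q ≤ p + 16 * U ^ 4} ≤ K)
    (hN : 4 * U ^ 2 + (x + 4 * U ^ 2) / U ^ 2 ≤ N) : U * #P ≤ (K + 2) * cnt N := by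
  set V := Ioc U (2 * U) with hV
  have hVc : #V = U := by rw [hV, Nat.card_Ioc]; omega
  have hk : ∀ u ∈ V, ∀ a ∈ V, U ^ 2 ≤ u * a ∧ u * a ≤ 4 * U ^ 2 := fun u hu a ha => by
    rw [hV, mem_Ioc] at hu ha
    exact ⟨by rw [sq]; exact Nat.mul_le_mul hu.1.le ha.1.le,
      (Nat.mul_le_mul hu.2 ha.2).trans (le_of_eq (by ring))⟩
  have hU2 : 0 < U ^ 2 := by positivity
  let f : ℕ → ℕ → ℕ := fun k p => k + (p + k) / k
  have h1 : ∀ u ∈ V, (U * #P) ^ 2 ≤ cnt N * ∑ e ∈ V ×ˢ P, ∑ e' ∈ V ×ˢ P,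
      if f (u * e.1) e.2 = f (u * e'.1) e'.2 then 1 else 0 := by
    intro u hu
    have := cs (V ×ˢ P) {n ∈ range (N + 1) | Good n} (fun e => f (u * e.1) e.2) fun e he => by
      obtain ⟨a1, a2⟩ := mem_product.mp he
      obtain ⟨b1, b2⟩ := hk u hu _ a1
      obtain ⟨c1, ⟨-, c2⟩, c3⟩ := hP _ a2
      obtain ⟨d1, d2⟩ := near (u * e.1) e.2 (by omega)
      have d3 : (e.2 + u * e.1) / (u * e.1) ≤ (x + 4 * U ^ 2) / U ^ 2 :=
        Nat.div_le_div (by omega) b1 hU2.ne'
      refine mem_filter.mpr ⟨mem_range.mpr (by simp only [f]; omega), u * e.1, _, by omega,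
        Nat.div_pos (by omega) (by omega), rfl, ?_⟩
      rw [← Nat.add_sub_cancel' d1.le, pi_add fun i e1 e2 => c3 i e1 (by omega)]
      exact c2
    rwa [card_product, hVc] at this
  have h2 : ∀ a ∈ V, ∀ e' ∈ V ×ˢ P, ∑ u ∈ V, ∑ p ∈ P,
      (if f (u * a) p = f (u * e'.1) e'.2 then 1 else 0) ≤ (if a = e'.1 then U else 0) + (K + 1) := by
    intro a ha e' he'
    obtain ⟨b1, b2⟩ := mem_product.mp he'
    split_ifs with hab
    · refine le_trans (sum_le_card_nsmul _ _ 1 fun u hu => ?_) (by simp [hVc])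
      rw [← card_filter, card_le_one]
      have key : ∀ p ∈ P, ∀ q ∈ P, f (u * a) p = f (u * a) q → ¬ p < q := fun p hp q hq h hlt => by
        obtain ⟨c1, c2⟩ := hk u hu a ha
        obtain ⟨d1, d2⟩ := near (u * a) p (by omega)
        obtain ⟨d3, d4⟩ := near (u * a) q (by omega)
        rw [show (q + u * a) / (u * a) = (p + u * a) / (u * a) by simp only [f] at h; omega] at d3
        refine (hP p hp).2.2 (q - p) (by omega) (by omega) ?_
        rw [Nat.add_sub_cancel' hlt.le]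
        exact (hP q hq).2.1.1
      intro p hp q hq
      obtain ⟨c1, c2⟩ := mem_filter.mp hp
      obtain ⟨c3, c4⟩ := mem_filter.mp hq
      have := key p c1 q c3 (c2.trans c4.symm)
      have := key q c3 p c1 (c4.trans c2.symm)
      omega
    · rw [← sum_product' (f := fun u p => if f (u * a) p = f (u * e'.1) e'.2 then 1 else 0),
        ← card_filter, zero_add]
      set D := {c ∈ V ×ˢ P | f (c.1 * a) c.2 = f (c.1 * e'.1) e'.2} with hD
      have key : ∀ c ∈ D, ∀ c' ∈ D, c'.2 ≤ c.2 + 16 * U ^ 4 ∧ (c.2 = c'.2 → c.1 = c'.1) :=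
        fun c hc c' hc' => rel2 (mem_product.mp (mem_filter.mp hc).1).1
          (mem_product.mp (mem_filter.mp hc').1).1 ha b1 hab (mem_filter.mp hc).2
          (mem_filter.mp hc').2
      rcases D.eq_empty_or_nonempty with h | h
      · simp [h]
      obtain ⟨c, hc, hmin⟩ := exists_min_image D Prod.snd h
      have hc2 := (mem_product.mp (mem_filter.mp hc).1).2
      refine le_trans (card_le_card_of_injOn Prod.snd
        (t := insert c.2 {q ∈ P | c.2 < q ∧ q ≤ c.2 + 16 * U ^ 4}) (fun c' hc' => ?_)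
        fun c₁ h₁ c₂ h₂ e => Prod.ext ((key c₁ h₁ c₂ h₂).2 e) e)
        ((card_insert_le _ _).trans (Nat.succ_le_succ (hK _ hc2)))
      have hc' := mem_coe.mp hc'
      rcases (hmin c' hc').eq_or_lt with e | e
      · exact mem_coe.mpr (mem_insert.mpr (Or.inl e.symm))
      · exact mem_coe.mpr (mem_insert_of_mem (mem_filter.mpr
          ⟨(mem_product.mp (mem_filter.mp hc').1).2, e, (key c hc c' hc').1⟩))
  have h3 : ∑ u ∈ V, ∑ e ∈ V ×ˢ P, ∑ e' ∈ V ×ˢ P,
      (if f (u * e.1) e.2 = f (u * e'.1) e'.2 then 1 else 0) ≤ U ^ 2 * #P * (K + 2) := by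
    calc _ = ∑ e' ∈ V ×ˢ P, ∑ a ∈ V, ∑ u ∈ V, ∑ p ∈ P,
          (if f (u * a) p = f (u * e'.1) e'.2 then 1 else 0) := by
          rw [sum_congr rfl fun u _ => sum_comm, sum_comm]
          refine sum_congr rfl fun e' _ => ?_
          rw [sum_congr rfl fun u _ => sum_product _ _ _, sum_comm]
      _ ≤ ∑ e' ∈ V ×ˢ P, U * (K + 2) := by
          refine sum_le_sum fun e' he' => (sum_le_sum fun a ha => h2 a ha e' he').trans ?_
          rw [sum_add_distrib, sum_ite_eq', sum_const, hVc, smul_eq_mul]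
          split_ifs <;> nlinarith
      _ = _ := by rw [sum_const, card_product, hVc, smul_eq_mul]; ring
  have h4 := sum_le_sum h1
  rw [sum_const, hVc, smul_eq_mul, ← mul_sum] at h4
  rcases Nat.eq_zero_or_pos #P with h | h
  · simp [h]
  refine Nat.le_of_mul_le_mul_left ?_ (Nat.mul_pos hU2 h)
  calc _ = U * (U * #P) ^ 2 := by ring
    _ ≤ cnt N * (U ^ 2 * #P * (K + 2)) := h4.trans (Nat.mul_le_mul_left _ h3)
    _ = _ := by ring

end Pool.Agent.MP_100d00_nt
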