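import Pool.Agent.MP_100d00_nt.Sv

/-!
The finite counting inequality.
-/

set_option autoImplicit false

namespace Pool.Agent.MP_100d00_nt

open Finset Pool.Agent.MP_a96b63_al
open scoped Classical

/-- `n = k + m` with `π (k m)` prime -/
def Good (n : ℕ) : Prop :=
  ∃ k m : ℕ, 0 < k ∧ 0 < m ∧ k + m = n ∧ (Nat.primeCounting (k * m)).Prime

/-- the number of good `n ≤ N` -/
noncomputable def cnt (N : ℕ) : ℕ := #{n ∈ range (N + 1) | Good n}

lemma pi_add {p j : ℕ} (h : ∀ i, 1 ≤ i → i ≤ j → ¬ (p + i).Prime) :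
    Nat.primeCounting (p + j) = Nat.primeCounting p := by
  induction j with
  | zero => rfl
  | succ j ih =>
    rw [← ih fun i h1 h2 => h i h1 (by omega)]
    have := h (j + 1) (by omega) le_rfl
    simp only [Nat.primeCounting, Nat.primeCounting']
    rw [Nat.count_succ Nat.Prime (p + (j + 1)), if_neg this]
    rfl

lemma gap_le {x y N : ℕ} (hy : 0 < y) (hN : y + (x + y) / y ≤ N) :
    #{p ∈ range (x + 1) | (p.Prime ∧ (Nat.primeCounting p).Prime) ∧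
      ∀ i, 1 ≤ i → i ≤ y → ¬ (p + i).Prime} ≤ cnt N := by
  have key : ∀ p, p < y * ((p + y) / y) ∧ y * ((p + y) / y) ≤ p + y := fun p => by
    have h1 := Nat.div_add_mod (p + y) y
    have h2 := Nat.mod_lt (p + y) hy
    omega
  refine card_le_card_of_injOn (fun p => y + (p + y) / y) (fun p hp => ?_) fun p hp p' hp' h => ?_
  · obtain ⟨h1, ⟨h2, h3⟩, h4⟩ := mem_filter.mp (mem_coe.mp hp)
    have h5 : (p + y) / y ≤ (x + y) / y :=
      Nat.div_le_div_right (by have := mem_range.mp h1; omega)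
    obtain ⟨h6, h7⟩ := key p
    refine mem_coe.mpr (mem_filter.mpr ⟨mem_range.mpr (by dsimp only; omega), y, (p + y) / y, hy,
      Nat.div_pos (by omega) hy, rfl, ?_⟩)
    rw [show y * ((p + y) / y) = p + (y * ((p + y) / y) - p) by omega,
      pi_add fun i h8 h9 => h4 i h8 (by omega)]
    exact h3
  · obtain ⟨-, ⟨h2, -⟩, h4⟩ := mem_filter.mp (mem_coe.mp hp)
    obtain ⟨-, ⟨h2', -⟩, h4'⟩ := mem_filter.mp (mem_coe.mp hp')
    have h5 : (p + y) / y = (p' + y) / y := by dsimp only at h; omega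
    obtain ⟨h6, h7⟩ := key p
    obtain ⟨h6', h7'⟩ := key p'
    rw [← h5] at h6' h7'
    rcases lt_trichotomy p p' with h8 | h8 | h8
    · exact absurd (by rwa [show p + (p' - p) = p' by omega]) (h4 (p' - p) (by omega) (by omega))
    · exact h8
    · exact absurd (by rwa [show p' + (p - p') = p by omega]) (h4' (p - p') (by omega) (by omega))

lemma card_le_triples {α : Type*} (R : Finset α) :
    #R ≤ 2 + #{τ ∈ R ×ˢ R ×ˢ R | τ.1 ≠ τ.2.1 ∧ τ.1 ≠ τ.2.2 ∧ τ.2.1 ≠ τ.2.2} := by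
  rcases le_or_gt #R 2 with h | h
  · omega
  refine le_trans (card_le_card_of_surjOn Prod.fst fun a ha => ?_) (Nat.le_add_left _ _)
  have ha := mem_coe.mp ha
  have h1 : 1 < #(R.erase a) := by rw [card_erase_of_mem ha]; omega
  obtain ⟨b, c, hb, hc, hbc⟩ := one_lt_card_iff.mp h1
  exact ⟨(a, b, c), mem_coe.mpr (mem_filter.mpr ⟨mem_product.mpr ⟨ha, mem_product.mpr
    ⟨mem_of_mem_erase hb, mem_of_mem_erase hc⟩⟩, (ne_of_mem_erase hb).symm,
      (ne_of_mem_erase hc).symm, hbc⟩), rfl⟩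

/-- constant term of the form `l (t + z + 1 - l) - j` -/
def rr (z : ℕ) (i : ℕ × ℕ) : ℕ := i.1 * (z + 1 - i.1) - i.2

lemma rr_cast {z y : ℕ} {i : ℕ × ℕ} (h1 : y < i.1) (h2 : i.1 ≤ z) (h3 : i.2 ≤ y) :
    (rr z i : ℤ) = i.1 * (z + 1 - i.1) - i.2 := by
  have h4 : i.1 ≤ i.1 * (z + 1 - i.1) := Nat.le_mul_of_pos_right _ (by omega)
  rw [rr, Nat.cast_sub (by omega), Nat.cast_mul, Nat.cast_sub (by omega)]
  push_cast; ring

lemma det_ne {z y : ℕ} {a b : ℕ × ℕ} (pa : a.1.Prime) (pb : b.1.Prime) (h1 : y < a.1)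
    (h2 : a.1 ≤ z) (h3 : a.2 ≤ y) (h4 : 1 ≤ a.2) (g1 : y < b.1) (g2 : b.1 ≤ z) (g3 : b.2 ≤ y)
    (hab : a ≠ b) : (b.1 * rr z a : ℤ) - a.1 * rr z b ≠ 0 := by
  rw [rr_cast h1 h2 h3, rr_cast g1 g2 g3]
  intro h
  by_cases e : a.1 = b.1
  · apply hab
    refine Prod.ext e ?_
    rw [← e] at h
    have h5 : (a.1 : ℤ) * (b.2 - a.2) = 0 := by linear_combination h
    rcases mul_eq_zero.mp h5 with h6 | h6
    · have := pa.pos; omega
    · omega
  · have h5 : (a.1 : ℤ) ∣ ((b.1 * a.2 : ℕ) : ℤ) :=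
      ⟨b.1 * (b.1 - a.1) + b.2, by push_cast; linear_combination -h⟩
    rcases (Nat.Prime.dvd_mul pa).mp (Int.natCast_dvd_natCast.mp h5) with h6 | h6
    · exact e ((Nat.prime_dvd_prime_iff_eq pa pb).mp h6)
    · have := Nat.le_of_dvd h4 h6; omega

theorem good_le (Q : Finset ℕ) {x y z w N : ℕ} (hQ : ∀ l ∈ Q, l.Prime ∧ y < l ∧ l ≤ z)
    (hy : 0 < y) (hw : 2 ≤ w) (hN : z + (x + y) / y ≤ N) :
    (#{p ∈ range (x + 1) | (p.Prime ∧ w < p ∧ z * (z + 1) ≤ p) ∧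
        ∃ l ∈ Q, ∃ j ∈ Icc 1 y, l ∣ p + j ∧ (Nat.primeCounting (p + j)).Prime} : ℝ) ≤
      2 * cnt N + ((z : ℝ) * y) ^ 3 *
        (N * (6 * ((z * (z + 1) : ℕ) : ℝ) ^ 9) ^ 3 / Real.log w ^ 3 + 2 * (w : ℝ) ^ 12) := by
  set I := Q ×ˢ Icc 1 y with hI
  let P : ℕ × ℕ → ℕ → Prop := fun i t => (rr z i + i.1 * t).Prime ∧ w < rr z i + i.1 * t
  set T := {t ∈ range N | t + z + 1 ≤ N ∧ Good (t + z + 1)} with hT
  set Tr := {τ ∈ I ×ˢ I ×ˢ I | τ.1 ≠ τ.2.1 ∧ τ.1 ≠ τ.2.2 ∧ τ.2.1 ≠ τ.2.2} with hTr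
  have h1 : #{p ∈ range (x + 1) | (p.Prime ∧ w < p ∧ z * (z + 1) ≤ p) ∧
        ∃ l ∈ Q, ∃ j ∈ Icc 1 y, l ∣ p + j ∧ (Nat.primeCounting (p + j)).Prime} ≤
      ∑ t ∈ T, #{i ∈ I | P i t} := by
    rw [← card_sigma]
    refine card_le_card_of_surjOn (fun s => rr z s.2 + s.2.1 * s.1) fun p hp => ?_
    obtain ⟨h2, ⟨h3, h4, h5⟩, l, hl, j, hj, ⟨m, hm⟩, h6⟩ := mem_filter.mp (mem_coe.mp hp)
    obtain ⟨-, h7, h8⟩ := hQ l hl
    obtain ⟨h9, h10⟩ := mem_Icc.mp hj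
    have h2 := mem_range.mp h2
    have h11 : z + 1 ≤ m := by
      by_contra h12
      have : l * m ≤ z * (z + 1) := Nat.mul_le_mul h8 (by omega)
      omega
    have h12 : m ≤ (x + y) / y := by
      rw [Nat.le_div_iff_mul_le hy]
      have : m * y ≤ l * m := by rw [mul_comm]; exact Nat.mul_le_mul_right _ h7.le
      omega
    have h13 : rr z (l, j) + l * (l + m - (z + 1)) = p := by
      have e1 : l * m = l * (z + 1 - l) + l * (l + m - (z + 1)) := by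
        rw [← mul_add]; congr 1; omega
      have e2 : l ≤ l * (z + 1 - l) := Nat.le_mul_of_pos_right _ (by omega)
      simp only [rr]
      omega
    refine ⟨⟨l + m - (z + 1), (l, j)⟩, mem_coe.mpr (mem_sigma.mpr ⟨mem_filter.mpr
      ⟨mem_range.mpr (by dsimp only; omega), by dsimp only; omega, l, m, by omega, by omega,
        by dsimp only; omega, hm ▸ h6⟩, mem_filter.mpr ⟨mem_product.mpr ⟨hl, hj⟩, ?_⟩⟩), h13⟩
    simp only [P, h13]
    exact ⟨h3, h4⟩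
  have h2 : #T ≤ cnt N := by
    refine card_le_card_of_injOn (fun t => t + z + 1) (fun t ht => ?_) fun t _ t' _ h => ?_
    · obtain ⟨-, h3, h4⟩ := mem_filter.mp (mem_coe.mp ht)
      exact mem_coe.mpr (mem_filter.mpr ⟨mem_range.mpr (by dsimp only; omega), h4⟩)
    · dsimp only at h; omega
  have h3 : ∑ t ∈ T, #{i ∈ I | P i t} ≤
      2 * cnt N + ∑ τ ∈ Tr, #{t ∈ range N | P τ.1 t ∧ P τ.2.1 t ∧ P τ.2.2 t} := by
    calc _ ≤ ∑ t ∈ T, (2 + #{τ ∈ Tr | P τ.1 t ∧ P τ.2.1 t ∧ P τ.2.2 t}) := by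
          refine sum_le_sum fun t _ => (card_le_triples _).trans
            (Nat.add_le_add_left (card_le_card fun τ hτ => ?_) _)
          simp only [hTr, mem_filter, mem_product] at hτ ⊢
          tauto
      _ ≤ 2 * cnt N + ∑ t ∈ range N, #{τ ∈ Tr | P τ.1 t ∧ P τ.2.1 t ∧ P τ.2.2 t} := by
          rw [sum_add_distrib, sum_const, smul_eq_mul, mul_comm]
          exact add_le_add (Nat.mul_le_mul_left _ h2)
            (sum_le_sum_of_subset (filter_subset _ _))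
      _ = _ := by
          simp only [card_filter]
          rw [sum_comm]
  have hIc : #I ≤ z * y := by
    rw [hI, card_product, Nat.card_Icc, Nat.add_sub_cancel]
    refine Nat.mul_le_mul_right _ ((card_le_card (t := Icc 1 z) fun l hl => ?_).trans (by simp))
    have := hQ l hl
    exact mem_Icc.mpr ⟨by omega, this.2.2⟩
  have hTc : (#Tr : ℝ) ≤ ((z : ℝ) * y) ^ 3 := by
    have : #Tr ≤ (z * y) ^ 3 := by
      refine (card_filter_le _ _).trans ?_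
      rw [card_product I, card_product I, pow_three]
      exact Nat.mul_le_mul hIc (Nat.mul_le_mul hIc hIc)
    exact_mod_cast this
  have hb : ∀ i ∈ I, (i.1.Prime ∧ y < i.1 ∧ i.1 ≤ z) ∧ (1 ≤ i.2 ∧ i.2 ≤ y) ∧
      i.1 ≤ z * (z + 1) ∧ rr z i ≤ z * (z + 1) := fun i hi => by
    obtain ⟨a1, a2⟩ := mem_product.mp hi
    have a3 := hQ _ a1
    refine ⟨a3, mem_Icc.mp a2, a3.2.2.trans (Nat.le_mul_of_pos_right _ (by omega)),
      (Nat.sub_le _ _).trans (Nat.mul_le_mul a3.2.2 (Nat.sub_le _ _))⟩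
  have h4 : ∀ τ ∈ Tr, (#{t ∈ range N | P τ.1 t ∧ P τ.2.1 t ∧ P τ.2.2 t} : ℝ) ≤
      N * (6 * ((z * (z + 1) : ℕ) : ℝ) ^ 9) ^ 3 / Real.log w ^ 3 + 2 * (w : ℝ) ^ 12 := by
    intro τ hτ
    obtain ⟨a1, a2, a3, a4⟩ := mem_filter.mp hτ
    obtain ⟨i1, a5⟩ := mem_product.mp a1
    obtain ⟨i2, i3⟩ := mem_product.mp a5
    obtain ⟨⟨b1, b2, b3⟩, ⟨b4, b5⟩, b6, b7⟩ := hb _ i1
    obtain ⟨⟨c1, c2, c3⟩, ⟨c4, c5⟩, c6, c7⟩ := hb _ i2
    obtain ⟨⟨d1, d2, d3⟩, ⟨d4, d5⟩, d6, d7⟩ := hb _ i3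
    have := sieve_three hw b1.ne_zero c1.ne_zero d1.ne_zero b6 c6 d6 b7 c7 d7
      (det_ne b1 c1 b2 b3 b5 b4 c2 c3 c5 a2) (det_ne b1 d1 b2 b3 b5 b4 d2 d3 d5 a3)
      (det_ne c1 d1 c2 c3 c5 c4 d2 d3 d5 a4) N
    convert this
  have hlog : 0 < Real.log w := Real.log_pos (by exact_mod_cast hw)
  calc _ ≤ ((2 * cnt N + ∑ τ ∈ Tr, #{t ∈ range N | P τ.1 t ∧ P τ.2.1 t ∧ P τ.2.2 t} : ℕ) : ℝ) :=
        Nat.cast_le.mpr (h1.trans h3)
    _ ≤ _ := by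
        rw [Nat.cast_add, Nat.cast_sum, Nat.cast_mul, Nat.cast_ofNat]
        refine add_le_add le_rfl ((sum_le_card_nsmul _ _ _ h4).trans ?_)
        rw [nsmul_eq_mul]
        gcongr

lemma sum_sq_le {ρ : ℝ} (h0 : 0 ≤ ρ) (h1 : ρ ≤ 1 / 2) (y : ℕ) :
    ∑ g ∈ Icc 2 y, (g : ℝ) ^ 2 * ρ ^ (g - 1) ≤ 24 * ρ := by
  have key : ∀ n : ℕ, ∑ g ∈ range n, (g : ℝ) ^ 2 * (1 / 2 : ℝ) ^ g =
      6 - (2 * (n : ℝ) ^ 2 + 4 * n + 6) * (1 / 2 : ℝ) ^ n := by
    intro n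
    induction n with
    | zero => simp
    | succ n ih => rw [sum_range_succ, ih]; push_cast; ring
  calc _ ≤ ∑ g ∈ Icc 2 y, 4 * ρ * ((g : ℝ) ^ 2 * (1 / 2) ^ g) := by
        refine sum_le_sum fun g hg => ?_
        obtain ⟨k, rfl⟩ : ∃ k, g = k + 2 := ⟨g - 2, by have := (mem_Icc.mp hg).1; omega⟩
        have : ρ ^ k ≤ (1 / 2) ^ k := pow_le_pow_left₀ h0 h1 k
        calc _ = ((k + 2 : ℕ) : ℝ) ^ 2 * ρ * ρ ^ k := by
              rw [show k + 2 - 1 = k + 1 by omega]; ring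
          _ ≤ ((k + 2 : ℕ) : ℝ) ^ 2 * ρ * (1 / 2) ^ k := by gcongr
          _ = _ := by ring
    _ ≤ 4 * ρ * ∑ g ∈ range (y + 1), (g : ℝ) ^ 2 * (1 / 2) ^ g := by
        rw [← mul_sum]
        gcongr
        intro g hg
        exact mem_range.mpr (by have := (mem_Icc.mp hg).2; omega)
    _ ≤ 4 * ρ * 6 := by
        rw [key]
        gcongr
        exact sub_le_self _ (by positivity)
    _ = _ := by ring

/-- The finite inequality. -/
theorem finite_ineq (Q : Finset ℕ) {x y z w N : ℕ} (hQ : ∀ l ∈ Q, l.Prime ∧ y < l ∧ l ≤ z)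
    (hy : 0 < y) (hyz : y ≤ z) (hw : 2 ≤ w) (hN : z + (x + y) / y ≤ N) {ρ M : ℝ}
    (hρ : ∏ l ∈ Q, (1 - 1 / (l : ℝ)) ≤ ρ) (hρ' : ρ ≤ 1 / 2) (hM : ((∏ l ∈ Q, l : ℕ) : ℝ) ≤ M) :
    (#{p ∈ range (x + 1) | p.Prime ∧ (Nat.primeCounting p).Prime} : ℝ) ≤
      3 * cnt N + (w + 1 + z * (z + 1)) + 96 * ρ * (x + M) / Real.log w ^ 2 +
      2 * y * M * (w : ℝ) ^ 8 + ((z : ℝ) * y) ^ 3 *
        (N * (6 * ((z * (z + 1) : ℕ) : ℝ) ^ 9) ^ 3 / Real.log w ^ 3 + 2 * (w : ℝ) ^ 12) := by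
  set A := {p ∈ range (x + 1) | (p.Prime ∧ (Nat.primeCounting p).Prime) ∧
      ∀ i, 1 ≤ i → i ≤ y → ¬ (p + i).Prime} with hA
  set B := fun g => {p ∈ range (x + 1) | (p.Prime ∧ w < p) ∧ (p + g).Prime ∧
        ∀ l ∈ Q, ∀ j ∈ range (g + 1), ¬ l ∣ p + j} with hB
  set C := {p ∈ range (x + 1) | (p.Prime ∧ w < p ∧ z * (z + 1) ≤ p) ∧
        ∃ l ∈ Q, ∃ j ∈ Icc 1 y, l ∣ p + j ∧ (Nat.primeCounting (p + j)).Prime} with hC
  have h1 : {p ∈ range (x + 1) | p.Prime ∧ (Nat.primeCounting p).Prime} ⊆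
      ((range (w + 1 + z * (z + 1)) ∪ A) ∪ (Icc 2 y).biUnion B) ∪ C := by
    intro p hp
    obtain ⟨a1, a2, a3⟩ := mem_filter.mp hp
    simp only [mem_union]
    by_cases b1 : p < w + 1 + z * (z + 1)
    · exact Or.inl (Or.inl (Or.inl (mem_range.mpr b1)))
    by_cases b2 : ∃ i, 1 ≤ i ∧ i ≤ y ∧ (p + i).Prime
    swap
    · exact Or.inl (Or.inl (Or.inr (mem_filter.mpr ⟨a1, ⟨a2, a3⟩,
        fun i c1 c2 c3 => b2 ⟨i, c1, c2, c3⟩⟩)))
    obtain ⟨c1, c2, c3⟩ := Nat.find_spec b2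
    have c4 := fun i => @Nat.find_min _ _ b2 i
    set g := Nat.find b2 with hg
    have c5 : g ≠ 1 := by
      intro h
      rw [h] at c3
      have := a2.eq_two_or_odd
      have := c3.eq_two_or_odd
      omega
    by_cases b3 : ∀ l ∈ Q, ∀ j ∈ range (g + 1), ¬ l ∣ p + j
    · exact Or.inl (Or.inr (mem_biUnion.mpr ⟨g, mem_Icc.mpr ⟨by omega, c2⟩,
        mem_filter.mpr ⟨a1, ⟨a2, by omega⟩, c3, b3⟩⟩))
    push Not at b3
    obtain ⟨l, hl, j, hj, d1⟩ := b3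
    obtain ⟨d2, d3, d4⟩ := hQ l hl
    have hj := mem_range.mp hj
    have d5 : z ≤ z * (z + 1) := Nat.le_mul_of_pos_right _ (by omega)
    have d6 : j ≠ 0 := by
      rintro rfl
      have := (Nat.prime_dvd_prime_iff_eq d2 a2).mp d1
      omega
    have d7 : j ≠ g := by
      rintro rfl
      have := (Nat.prime_dvd_prime_iff_eq d2 c3).mp d1
      omega
    refine Or.inr (mem_filter.mpr ⟨a1, ⟨a2, by omega, by omega⟩, l, hl, j,
      mem_Icc.mpr ⟨by omega, by omega⟩, d1, ?_⟩)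
    rw [pi_add fun i e1 e2 e3 => c4 i (by omega) ⟨e1, by omega, e3⟩]
    exact a3
  have h2 : #{p ∈ range (x + 1) | p.Prime ∧ (Nat.primeCounting p).Prime} ≤
      w + 1 + z * (z + 1) + #A + ∑ g ∈ Icc 2 y, #(B g) + #C := by
    refine (card_le_card h1).trans ((card_union_le _ _).trans (add_le_add ((card_union_le _ _).trans
      (add_le_add ((card_union_le _ _).trans ?_) card_biUnion_le)) le_rfl))
    rw [card_range]
  have h3 : (#A : ℝ) ≤ cnt N := Nat.cast_le.mpr (gap_le hy (by omega))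
  have h4 := good_le Q hQ hy hw hN
  have hlog : 0 < Real.log w := Real.log_pos (by exact_mod_cast hw)
  have hρ0 : 0 ≤ ∏ l ∈ Q, (1 - 1 / (l : ℝ)) := prod_nonneg fun l hl => by
    have : (1 : ℝ) < l := by exact_mod_cast (hQ l hl).1.one_lt
    rw [sub_nonneg, div_le_one (by linarith)]; exact this.le
  have hM0 : 0 ≤ M := le_trans (by positivity) hM
  have h5 : ∑ g ∈ Icc 2 y, (#(B g) : ℝ) ≤
      96 * ρ * (x + M) / Real.log w ^ 2 + 2 * y * M * (w : ℝ) ^ 8 := by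
    calc _ ≤ ∑ g ∈ Icc 2 y, (4 * (x + M) / Real.log w ^ 2 * ((g : ℝ) ^ 2 * ρ ^ (g - 1)) +
            2 * M * (w : ℝ) ^ 8) := by
          refine sum_le_sum fun g hg => ?_
          obtain ⟨g1, g2⟩ := mem_Icc.mp hg
          have := bad_le Q (fun l hl => (hQ l hl).1) (g := g) (by omega)
            (fun l hl => by have := (hQ l hl).2.1; omega) hw x
          refine (le_of_eq (by congr!)).trans (this.trans ?_)
          calc _ ≤ ((x : ℝ) + M) * (4 * g ^ 2 * ρ ^ (g - 1)) / Real.log w ^ 2 +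
                2 * M * (w : ℝ) ^ 8 := by gcongr
            _ = _ := by ring
      _ ≤ 4 * (x + M) / Real.log w ^ 2 * (24 * ρ) + y * (2 * M * (w : ℝ) ^ 8) := by
          rw [sum_add_distrib, ← mul_sum, sum_const, nsmul_eq_mul, Nat.card_Icc]
          gcongr
          · exact sum_sq_le (hρ0.trans hρ) hρ' y
          · omega
      _ = _ := by ring
  have h6 : (#{p ∈ range (x + 1) | p.Prime ∧ (Nat.primeCounting p).Prime} : ℝ) ≤
      w + 1 + z * (z + 1) + #A + ∑ g ∈ Icc 2 y, (#(B g) : ℝ) + #C := by exact_mod_cast h2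
  linarith

end Pool.Agent.MP_100d00_nt
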