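import Pool.Agent.MP_100d00_nt.Sel2

/-!
The finite counting inequality over dyadic ranges.
-/

set_option autoImplicit false

namespace Pool.Agent.MP_100d00_nt

open Finset Pool.Agent.MP_a96b63_al
open scoped Classical

lemma rho_pos {Q : Finset ℕ} (hQ : ∀ l ∈ Q, l.Prime) : 0 < ∏ l ∈ Q, (1 - 1 / (l : ℝ)) :=
  prod_pos fun l hl => by
    have : (1 : ℝ) < l := by exact_mod_cast (hQ l hl).one_lt
    rw [sub_pos, div_lt_one (by linarith)]; exact this

lemma hh_prod_le {Q : Finset ℕ} (hQ : ∀ l ∈ Q, l.Prime) {g : ℕ} (hg : 1 ≤ g) :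
    hh ((∏ l ∈ Q, l) * (2 * g)) ≤ 2 * g / ∏ l ∈ Q, (1 - 1 / (l : ℝ)) := by
  have hρ0 := rho_pos hQ
  have hM0 : 0 < ∏ l ∈ Q, l := prod_pos fun l hl => (hQ l hl).pos
  have hhM : hh (∏ l ∈ Q, l) * ∏ l ∈ Q, (1 - 1 / (l : ℝ)) = 1 := by
    unfold hh
    rw [Nat.primeFactors_prod hQ, ← prod_mul_distrib]
    refine prod_eq_one fun l hl => ?_
    have : (1 : ℝ) < l := by exact_mod_cast (hQ l hl).one_lt
    have h2 : (l : ℝ) - 1 ≠ 0 := by linarith
    field_simp; ring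
  have h1 := hh_mul_le (b := 2 * g) hM0.ne' (by omega)
  have h2 := hh_le (n := 2 * g) (by omega)
  have h3 := hh_pos (∏ l ∈ Q, l)
  rw [le_div_iff₀ hρ0]
  push_cast at h2
  calc _ ≤ hh (∏ l ∈ Q, l) * (2 * g) * ∏ l ∈ Q, (1 - 1 / (l : ℝ)) := by
        gcongr
        exact h1.trans (by gcongr)
    _ = 2 * g * (hh (∏ l ∈ Q, l) * ∏ l ∈ Q, (1 - 1 / (l : ℝ))) := by ring
    _ = _ := by rw [hhM, mul_one]

theorem bad2_le (Q : Finset ℕ) {g a w z K : ℕ}
    (hQ : ∀ l ∈ Q, l.Prime ∧ g < l ∧ 2 * (a + 1) ≤ l ∧ l ≤ z) (hzw : z ≤ w) (hz1 : 1 ≤ z)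
    (ha1 : 1 ≤ a) (hag : a ≤ g) (hw : 2 ≤ w)
    (hK : 2 * Real.exp (2 * (a + 1) * ∑ l ∈ Q, 1 / (l : ℝ)) ≤ 2 ^ K) (x : ℕ) :
    (#{p ∈ range (x + 1) | (p.Prime ∧ w < p) ∧ (p + g).Prime ∧
        ∀ l ∈ Q, ∀ j ∈ range a, ¬ l ∣ p + j} : ℝ) ≤
      ((x : ℝ) + 1) * (8 * g ^ 2 * (∏ l ∈ Q, (1 - 1 / (l : ℝ))) ^ (a - 1)) / Real.log w ^ 2 +
        2 * ((z ^ K * (w * w) : ℕ) : ℝ) ^ 4 := by
  have hQp : ∀ l ∈ Q, l.Prime := fun l hl => (hQ l hl).1
  have hρ0 := rho_pos hQp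
  have hD := hh_prod_le hQp (ha1.trans hag)
  set ρ := ∏ l ∈ Q, (1 - 1 / (l : ℝ)) with hρ
  set D := (∏ l ∈ Q, l) * (2 * g) with hDdef
  have hD0 : D ≠ 0 := mul_ne_zero (prod_pos fun l hl => (hQp l hl).pos).ne' (by omega)
  have hP0 : ∀ q ∈ PP w D, q.Prime ∧ q ≤ w ∧ q ∉ Q ∧ 2 < q ∧ ¬ q ∣ g := fun q hq => by
    obtain ⟨h1, h2, h3⟩ := mem_filter.mp hq
    refine ⟨h2, Nat.lt_succ_iff.mp (mem_range.mp h1),
      fun h => h3 ((dvd_prod_of_mem _ h).mul_right _), ?_, fun h => h3 ((h.mul_left _).mul_left _)⟩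
    have := h2.two_le
    by_contra h4
    exact h3 ((show q = 2 by omega) ▸ (dvd_mul_right 2 g).mul_left _)
  set P := Q ∪ PP w D with hP
  have hPc : ∀ q ∈ P, q ∉ Q → q ∈ PP w D := fun q hq h => (mem_union.mp hq).resolve_left h
  have hPp : ∀ q ∈ P, q.Prime := fun q hq => by
    by_cases h : q ∈ Q
    exacts [hQp q h, (hP0 q (hPc q hq h)).1]
  let J : ℕ → Finset ℕ := fun q => if q ∈ Q then insert g (range a) else {0, g}
  let k : ℕ → ℕ := fun q => if q ∈ Q then a + 1 else 2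
  have hkq : ∀ q ∈ P, k q < q := fun q hq => by
    by_cases h : q ∈ Q
    · have := hQ q h
      simp only [k, if_pos h]; omega
    · simp only [k, if_neg h]; exact (hP0 q (hPc q hq h)).2.2.2.1
  have h := selberg2 P hPp (fun q t => ∃ j ∈ J q, q ∣ j + 1 * t)
    (fun q _ t => by simp only [dvd_mod_iff']) k
    (fun q _ => by simp only [k]; split_ifs <;> omega)
    (fun q hq => by
      refine (card_roots (J q) (fun j => j) (fun _ => 1) (hPp q hq)
        (fun _ _ => (hPp q hq).not_dvd_one) fun i hi i' hi' hne hd => ?_).trans ?_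
      · by_cases h : q ∈ Q
        · simp only [J, if_pos h, mem_insert, mem_range] at hi hi'
          have h1 := (hQ q h).2.1
          have := Nat.le_of_dvd (by omega) hd
          omega
        · simp only [J, if_neg h, mem_insert, mem_singleton] at hi hi'
          apply (hP0 q (hPc q hq h)).2.2.2.2
          rwa [show (((1 : ℕ) : ℤ) * (i : ℤ) - ((1 : ℕ) : ℤ) * (i' : ℤ)).natAbs = g by omega] at hd
      · by_cases h : q ∈ Q
        · simp only [J, k, if_pos h]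
          rw [card_insert_of_notMem (by simp; omega), card_range]
        · simp only [J, k, if_neg h]
          exact card_pair (by omega))
    hkq (z := z ^ K * (w * w)) (Nat.mul_pos (Nat.pow_pos hz1) (Nat.mul_pos (by omega) (by omega)))
    (x + 1)
  have h1 : (#{p ∈ range (x + 1) | (p.Prime ∧ w < p) ∧ (p + g).Prime ∧
        ∀ l ∈ Q, ∀ j ∈ range a, ¬ l ∣ p + j} : ℝ) ≤
      #{t ∈ range (x + 1) | ∀ q ∈ P, ¬ ∃ j ∈ J q, q ∣ j + 1 * t} := by
    refine Nat.cast_le.mpr (card_le_card fun t ht => ?_)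
    obtain ⟨h2, ⟨h3, h4⟩, h5, h6⟩ := mem_filter.mp ht
    refine mem_filter.mpr ⟨h2, fun q hq ⟨j, hj, h7⟩ => ?_⟩
    rw [one_mul, add_comm] at h7
    have hqw : q ≤ w := by
      by_cases h : q ∈ Q
      exacts [(hQ q h).2.2.2.trans hzw, (hP0 q (hPc q hq h)).2.1]
    have hg' : j ≠ g := by
      rintro rfl
      have := (Nat.prime_dvd_prime_iff_eq (hPp q hq) h5).mp h7
      omega
    by_cases h : q ∈ Q
    · simp only [J, if_pos h, mem_insert] at hj
      exact h6 q h j (hj.resolve_left hg') h7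
    · simp only [J, if_neg h, mem_insert, mem_singleton] at hj
      rw [hj.resolve_right hg'] at h7
      have := (Nat.prime_dvd_prime_iff_eq (hPp q hq) h3).mp h7
      omega
  refine h1.trans ((le_of_eq (by congr!)).trans (h.trans (add_le_add ?_ le_rfl)))
  set X : ℕ → ℝ := fun q => (k q : ℝ) / (q - k q) with hX
  have hX0 : ∀ q ∈ P, 0 ≤ X q := fun q hq => by
    have : (k q : ℝ) < q := by exact_mod_cast hkq q hq
    exact div_nonneg (by positivity) (by linarith)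
  have hXQ : ∀ q ∈ Q, 0 ≤ X q ∧ X q ≤ 2 * (a + 1) * (1 / q) ∧
      1 ≤ (1 + X q) * (1 - 1 / (q : ℝ)) ^ (a + 1) := fun q hq => by
    have e1 : 2 * ((a : ℝ) + 1) ≤ q := by exact_mod_cast (hQ q hq).2.2.1
    have e0 : (0 : ℝ) ≤ a := by positivity
    have e2 : (0 : ℝ) < q - (a + 1) := by linarith
    have e3 : (0 : ℝ) < q := by linarith
    have e4 : X q = (a + 1) / (q - (a + 1)) := by simp only [hX, k, if_pos hq]; push_cast; rfl
    have e5 := one_add_mul_le_pow (a := -(1 / (q : ℝ))) (by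
      have : 1 / (q : ℝ) ≤ 1 := by rw [div_le_one e3]; linarith
      linarith) (a + 1)
    rw [e4]
    refine ⟨by positivity, ?_, ?_⟩
    · rw [mul_one_div, div_le_div_iff₀ e2 e3]; nlinarith
    · calc (1 : ℝ) = (1 + (a + 1) / (q - (a + 1))) * (1 + ((a + 1 : ℕ) : ℝ) * -(1 / (q : ℝ))) := by
            push_cast; field_simp; ring
        _ ≤ _ := by rw [sub_eq_add_neg (1 : ℝ)]; gcongr
  have hA := GG_markov Q (h := X) (fun q hq => (hXQ q hq).1) hz1 (fun q hq => (hQ q hq).2.2.2)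
    (K := K) (by
      refine le_trans ?_ hK
      rw [mul_sum, Real.exp_sum]
      gcongr with q hq
      · exact fun q hq => by have := (hXQ q hq).1; linarith
      · have := (hXQ q hq).2.1
        have := Real.add_one_le_exp (2 * ((a : ℝ) + 1) * (1 / q))
        linarith)
  have hA2 : 1 ≤ (∏ q ∈ Q, (1 + X q)) * ρ ^ (a + 1) := by
    rw [hρ, ← prod_pow, ← prod_mul_distrib]
    exact one_le_prod fun q hq => (hXQ q hq).2.2
  have hx : ∀ q ∈ PP w D, 0 ≤ 1 / ((q : ℝ) - 1) := fun q hq => inv_pred_nonneg (hP0 q hq).1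
  have g0 := GG_nonneg hx w
  have hB := (GG_mul (PP w D) (fun q hq => (hP0 q hq).1.pos) _ hx w w).trans
    (GG_subset (R := P) subset_union_right (x' := fun q => if q ∈ Q then 0 else X q)
      (fun q hq => by have := hx q hq; positivity)
      (fun q hq => by have := hX0 q hq; split_ifs <;> simp [this]) (fun q hq => by
        obtain ⟨-, -, e1, e2, -⟩ := hP0 q hq
        have : (2 : ℝ) < q := by exact_mod_cast e2
        have a1 : (0 : ℝ) < q - 1 := by linarith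
        have a2 : (0 : ℝ) < q - 2 := by linarith
        simp only [hX, k, if_neg e1]
        push_cast
        rw [show 2 * (1 / ((q : ℝ) - 1)) + (1 / ((q : ℝ) - 1)) ^ 2 = (2 * q - 1) / (q - 1) ^ 2 by
          field_simp; ring, div_le_div_iff₀ (by positivity) a2]
        nlinarith) _)
  have hC := GG_subset (R := P) subset_union_left (x := X) (x' := fun q => if q ∈ Q then X q else 0)
    (fun q hq => (hXQ q hq).1) (fun q hq => by have := hX0 q hq; split_ifs <;> simp [this])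
    (fun q hq => by rw [if_pos hq]) (z ^ K)
  have hE := GG_mul2 P (fun q hq => (hPp q hq).pos) (fun q => if q ∈ Q then X q else 0)
    (fun q => if q ∈ Q then 0 else X q)
    (fun q hq => by have := hX0 q hq; split_ifs <;> simp [this])
    (fun q hq => by have := hX0 q hq; split_ifs <;> simp [this]) (z ^ K) (w * w)
  have hF : (fun q => (if q ∈ Q then X q else 0) + (if q ∈ Q then 0 else X q) +
      (if q ∈ Q then X q else 0) * (if q ∈ Q then 0 else X q)) = X := by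
    ext q; split_ifs <;> simp
  rw [hF] at hE
  have hA0 : 0 ≤ (∏ q ∈ Q, (1 + X q)) / 2 :=
    div_nonneg (prod_nonneg fun q hq => by have := (hXQ q hq).1; linarith) two_pos.le
  have hG := (mul_le_mul (hA.trans hC) hB (by positivity) (hA0.trans (hA.trans hC))).trans hE
  have h3 : 0 < Real.log w := Real.log_pos (by exact_mod_cast hw)
  have h5 := (log_le_GG w hD0).trans (mul_le_mul_of_nonneg_left hD g0)
  change ((x + 1 : ℕ) : ℝ) / GG P X (z ^ K * (w * w)) ≤ _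
  obtain ⟨b, rfl⟩ : ∃ b, a = b + 1 := ⟨a - 1, by omega⟩
  rw [Nat.add_sub_cancel]
  have h7 : Real.log w ^ 2 ≤ 8 * g ^ 2 * ρ ^ b * GG P X (z ^ K * (w * w)) := by
    set G0 := GG (PP w D) (fun q => 1 / ((q : ℝ) - 1)) w
    set A := ∏ q ∈ Q, (1 + X q)
    calc _ ≤ (G0 * (2 * g / ρ)) ^ 2 * 1 := by rw [mul_one]; gcongr
      _ ≤ (G0 * (2 * g / ρ)) ^ 2 * (A * ρ ^ (b + 1 + 1)) := by gcongr
      _ = 8 * g ^ 2 * ρ ^ b * (A / 2 * (G0 * G0)) := by field_simp; ring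
      _ ≤ _ := by gcongr
  have h8 : 0 < GG P X (z ^ K * (w * w)) := by
    by_contra h9
    have : (0 : ℝ) ≤ 8 * g ^ 2 * ρ ^ b := by positivity
    nlinarith [pow_pos h3 2]
  push_cast
  rw [div_le_div_iff₀ h8 (by positivity), mul_assoc]
  gcongr

lemma le_choose {r m : ℕ} {T : ℝ} (hm : 0 < m) (hT : 2 * (m : ℝ) ≤ T) :
    (r : ℝ) ≤ T + 2 ^ m * m.factorial / T ^ (m - 1) * r.choose m := by
  have hm' : (0 : ℝ) < m := by exact_mod_cast hm
  have hT0 : 0 < T := by linarith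
  rcases le_or_gt (r : ℝ) T with h | h
  · exact h.trans (le_add_of_nonneg_right (by positivity))
  refine le_trans ?_ (le_add_of_nonneg_left hT0.le)
  have h1 : 2 * m ≤ r := by
    have : ((2 * m : ℕ) : ℝ) ≤ r := by push_cast; linarith
    exact_mod_cast this
  have h2 := Nat.pow_le_choose (α := ℝ) m r
  have h3 : (r : ℝ) / 2 ≤ ((r + 1 - m : ℕ) : ℝ) := by
    rw [Nat.cast_sub (by omega)]; push_cast; linarith
  rw [div_le_iff₀ (by positivity)] at h2
  have h4 := (pow_le_pow_left₀ (by positivity) h3 m).trans h2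
  obtain ⟨b, rfl⟩ : ∃ b, m = b + 1 := ⟨m - 1, by omega⟩
  rw [Nat.add_sub_cancel, div_mul_eq_mul_div, le_div_iff₀ (by positivity)]
  rw [div_pow, div_le_iff₀ (by positivity)] at h4
  calc _ ≤ (r : ℝ) * r ^ b := by gcongr
    _ = r ^ (b + 1) := by ring
    _ ≤ _ := h4.trans (le_of_eq (by ring))

theorem good2_le (Q : Finset ℕ) {x R a w m N : ℕ} {T : ℝ}
    (hQ : ∀ l ∈ Q, l.Prime ∧ R < l ∧ l ≤ 2 * R) (hR : 0 < R) (haR : a ≤ R) (hw : 2 ≤ w) (hm : 0 < m)
    (hT : 2 * (m : ℝ) ≤ T) (hN : 2 * R + (x + a) / R ≤ N) :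
    (#{p ∈ range (x + 1) | (p.Prime ∧ w < p ∧ 2 * R * (2 * R + 1) ≤ p) ∧
        ∃ l ∈ Q, ∃ j ∈ Icc 1 a, l ∣ p + j ∧ (Nat.primeCounting (p + j)).Prime} : ℝ) ≤
      T * cnt N + (2 * (R * a : ℝ)) ^ m / T ^ (m - 1) *
        (N * (1 + 2 * (m ^ 2 + 3 * m ^ 2 * Real.log (2 * R * (2 * R + 1) : ℕ))) ^ m /
          Real.log w ^ m + 2 * (w : ℝ) ^ (4 * m)) := by
  set z := 2 * R with hz
  set I := Q ×ˢ Icc 1 a with hI
  let P : ℕ × ℕ → ℕ → Prop := fun i t => (rr z i + i.1 * t).Prime ∧ w < rr z i + i.1 * t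
  set S := {t ∈ range N | t + z + 1 ≤ N ∧ Good (t + z + 1)} with hS
  have hm' : (0 : ℝ) < m := by exact_mod_cast hm
  have hT0 : 0 < T := by linarith
  have h1 : #{p ∈ range (x + 1) | (p.Prime ∧ w < p ∧ z * (z + 1) ≤ p) ∧
        ∃ l ∈ Q, ∃ j ∈ Icc 1 a, l ∣ p + j ∧ (Nat.primeCounting (p + j)).Prime} ≤
      ∑ t ∈ S, #{i ∈ I | P i t} := by
    rw [← card_sigma]
    refine card_le_card_of_surjOn (fun s => rr z s.2 + s.2.1 * s.1) fun p hp => ?_
    obtain ⟨h2, ⟨h3, h4, h5⟩, l, hl, j, hj, ⟨n, hn⟩, h6⟩ := mem_filter.mp (mem_coe.mp hp)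
    obtain ⟨-, h7, h8⟩ := hQ l hl
    obtain ⟨h9, h10⟩ := mem_Icc.mp hj
    have h2 := mem_range.mp h2
    have h11 : z + 1 ≤ n := by
      by_contra h12
      have : l * n ≤ z * (z + 1) := Nat.mul_le_mul h8 (by omega)
      have : l * n ≤ z * z := Nat.mul_le_mul h8 (by omega)
      have : z * (z + 1) = z * z + z := by ring
      omega
    have h12 : n ≤ (x + a) / R := by
      rw [Nat.le_div_iff_mul_le hR]
      have : n * R ≤ l * n := by rw [mul_comm]; exact Nat.mul_le_mul_right _ h7.le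
      omega
    have h13 : rr z (l, j) + l * (l + n - (z + 1)) = p := by
      have e1 : l * n = l * (z + 1 - l) + l * (l + n - (z + 1)) := by
        rw [← mul_add]; congr 1; omega
      have e2 : l ≤ l * (z + 1 - l) := Nat.le_mul_of_pos_right _ (by omega)
      simp only [rr]
      omega
    refine ⟨⟨l + n - (z + 1), (l, j)⟩, mem_coe.mpr (mem_sigma.mpr ⟨mem_filter.mpr
      ⟨mem_range.mpr (by dsimp only; omega), by dsimp only; omega, l, n, by omega, by omega,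
        by dsimp only; omega, hn ▸ h6⟩, mem_filter.mpr ⟨mem_product.mpr ⟨hl, hj⟩, ?_⟩⟩), h13⟩
    simp only [P, h13]
    exact ⟨h3, h4⟩
  have h2 : #S ≤ cnt N := by
    refine card_le_card_of_injOn (fun t => t + z + 1) (fun t ht => ?_) fun t _ t' _ h => ?_
    · obtain ⟨-, h3, h4⟩ := mem_filter.mp (mem_coe.mp ht)
      exact mem_coe.mpr (mem_filter.mpr ⟨mem_range.mpr (by dsimp only; omega), h4⟩)
    · dsimp only at h; omega
  have h3 : ∑ t ∈ range N, (#{i ∈ I | P i t}).choose m =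
      ∑ s ∈ powersetCard m I, #{t ∈ range N | ∀ i ∈ s, P i t} := by
    rw [sum_congr rfl fun s (_ : s ∈ powersetCard m I) =>
      card_filter (fun t => ∀ i ∈ s, P i t) (range N), sum_comm]
    refine sum_congr rfl fun t _ => ?_
    rw [← card_powersetCard, ← card_filter]
    congr 1
    ext s
    simp only [mem_powersetCard, mem_filter, subset_iff]
    exact ⟨fun ⟨h, h'⟩ => ⟨⟨fun _ hi => (h hi).1, h'⟩, fun _ hi => (h hi).2⟩,
      fun ⟨⟨h, h'⟩, h''⟩ => ⟨fun i hi => ⟨h hi, h'' i hi⟩, h'⟩⟩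
  have hIc : #I ≤ R * a := by
    rw [hI, card_product, Nat.card_Icc, Nat.add_sub_cancel]
    refine Nat.mul_le_mul_right _ ((card_le_card (t := Ioc R (2 * R)) fun l hl => ?_).trans ?_)
    · exact mem_Ioc.mpr (hQ l hl).2
    · rw [Nat.card_Ioc]; omega
  have hb : ∀ i ∈ I, (i.1.Prime ∧ R < i.1 ∧ i.1 ≤ z) ∧ (1 ≤ i.2 ∧ i.2 ≤ a) ∧
      i.1 ≤ z * (z + 1) ∧ rr z i ≤ z * (z + 1) := fun i hi => by
    obtain ⟨a1, a2⟩ := mem_product.mp hi
    have a3 := hQ _ a1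
    refine ⟨a3, mem_Icc.mp a2, a3.2.2.trans (Nat.le_mul_of_pos_right _ (by omega)),
      (Nat.sub_le _ _).trans (Nat.mul_le_mul a3.2.2 (Nat.sub_le _ _))⟩
  set E := N * (1 + 2 * (m ^ 2 + 3 * m ^ 2 * Real.log (z * (z + 1) : ℕ))) ^ m /
    Real.log w ^ m + 2 * (w : ℝ) ^ (4 * m) with hE
  have h4 : ∀ s ∈ powersetCard m I, (#{t ∈ range N | ∀ i ∈ s, P i t} : ℝ) ≤ E := by
    intro s hs
    obtain ⟨s1, s2⟩ := mem_powersetCard.mp hs
    exact sieve_fin s (rr z) Prod.fst s2 hm hw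
      (fun i hi => ⟨(hb i (s1 hi)).1.1.ne_zero, (hb i (s1 hi)).2.2⟩) (fun i hi i' hi' hne => by
        obtain ⟨⟨b1, b2, b3⟩, ⟨b4, b5⟩, -⟩ := hb _ (s1 hi)
        obtain ⟨⟨c1, c2, c3⟩, ⟨-, c5⟩, -⟩ := hb _ (s1 hi')
        exact det_ne b1 c1 b2 b3 (b5.trans haR) b4 c2 c3 (c5.trans haR) hne) N
  have hlog : 0 < Real.log w := Real.log_pos (by exact_mod_cast hw)
  have hE0 : 0 ≤ E := by
    have := Real.log_natCast_nonneg (z * (z + 1))
    positivity
  have h5 : (m.factorial : ℝ) * (#I).choose m ≤ ((R : ℝ) * a) ^ m := by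
    have : m.factorial * (#I).choose m ≤ (R * a) ^ m := by
      rw [← Nat.descFactorial_eq_factorial_mul_choose]
      exact (Nat.descFactorial_le_pow _ _).trans (Nat.pow_le_pow_left hIc m)
    exact_mod_cast this
  calc _ ≤ ∑ t ∈ S, (#{i ∈ I | P i t} : ℝ) := by exact_mod_cast h1
    _ ≤ ∑ t ∈ S, (T + 2 ^ m * m.factorial / T ^ (m - 1) * (#{i ∈ I | P i t}).choose m) :=
        sum_le_sum fun t _ => le_choose hm hT
    _ ≤ T * cnt N + 2 ^ m * m.factorial / T ^ (m - 1) *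
          ((∑ t ∈ range N, (#{i ∈ I | P i t}).choose m : ℕ) : ℝ) := by
        rw [sum_add_distrib, sum_const, nsmul_eq_mul, mul_comm, ← mul_sum, Nat.cast_sum]
        gcongr
        exact filter_subset _ _
    _ ≤ T * cnt N + 2 ^ m * m.factorial / T ^ (m - 1) * ((#I).choose m * E) := by
        rw [h3, Nat.cast_sum, ← card_powersetCard, ← nsmul_eq_mul]
        gcongr
        exact sum_le_card_nsmul _ _ _ h4
    _ = T * cnt N + 2 ^ m * (m.factorial * (#I).choose m) / T ^ (m - 1) * E := by ring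
    _ ≤ _ := by rw [mul_pow 2]; gcongr

lemma dyadic {y l n : ℕ} (h1 : y < l) (h2 : l ≤ y * 2 ^ n) :
    ∃ i < n, y * 2 ^ i < l ∧ l ≤ 2 * (y * 2 ^ i) := by
  induction n with
  | zero => omega
  | succ n ih =>
    by_cases h : l ≤ y * 2 ^ n
    · obtain ⟨i, hi, h3⟩ := ih h
      exact ⟨i, by omega, h3⟩
    · exact ⟨n, by omega, by omega, by rw [pow_succ, ← mul_assoc] at h2; omega⟩

/-- The finite inequality. -/
theorem finite_ineq2 {x y n z a w w' K m : ℕ} {T : ℕ → ℝ} {ρ σ β : ℝ} (hz : z = y * 2 ^ n)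
    (ha : 1 ≤ a) (hay : 2 * a + 2 ≤ y) (hzw : z ≤ w) (hw : 2 ≤ w) (hw' : 2 ≤ w') (hm : 0 < m)
    (hρ : ∏ l ∈ (Ioc y z).filter Nat.Prime, (1 - 1 / (l : ℝ)) ≤ ρ) (hρ' : ρ ≤ 1 / 2)
    (hσ : ∑ l ∈ (Ioc y z).filter Nat.Prime, 1 / (l : ℝ) ≤ σ)
    (hK : 2 * Real.exp (2 * (a + 1) * σ) ≤ 2 ^ K)
    (hβ : ∀ R : ℕ, y ≤ R → 2 * R ≤ z → 2 * (m : ℝ) ≤ T R ∧
      T R * cnt (2 * R + (x + a) / R) + (2 * (R * a : ℝ)) ^ m / T R ^ (m - 1) *
        ((2 * R + (x + a) / R : ℕ) *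
          (1 + 2 * (m ^ 2 + 3 * m ^ 2 * Real.log (2 * R * (2 * R + 1) : ℕ))) ^ m /
          Real.log w' ^ m + 2 * (w' : ℝ) ^ (4 * m)) ≤ β) :
    (#{p ∈ range (x + 1) | p.Prime ∧ (Nat.primeCounting p).Prime} : ℝ) ≤
      (w + w' + 1 + z * (z + 1)) + cnt (y + (x + y) / y) +
      8 * (x + 1) / Real.log w ^ 2 * (24 * ρ + y * (y ^ 2 * ρ ^ (a - 1))) +
      y * (2 * ((z : ℝ) ^ K * (w * w)) ^ 4) + n * β := by
  set Q := (Ioc y z).filter Nat.Prime with hQdef
  have hQ : ∀ l ∈ Q, l.Prime ∧ y < l ∧ l ≤ z := fun l hl =>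
    ⟨(mem_filter.mp hl).2, mem_Ioc.mp (mem_filter.mp hl).1⟩
  have hyz : y ≤ z := hz ▸ Nat.le_mul_of_pos_right _ (by positivity)
  set A := {p ∈ range (x + 1) | (p.Prime ∧ (Nat.primeCounting p).Prime) ∧
      ∀ i, 1 ≤ i → i ≤ y → ¬ (p + i).Prime} with hA
  set B := fun g => {p ∈ range (x + 1) | (p.Prime ∧ w < p) ∧ (p + g).Prime ∧
        ∀ l ∈ Q, ∀ j ∈ range (min g a), ¬ l ∣ p + j} with hB
  set C := fun R => {p ∈ range (x + 1) | (p.Prime ∧ w' < p ∧ 2 * R * (2 * R + 1) ≤ p) ∧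
        ∃ l ∈ (Ioc R (2 * R)).filter Nat.Prime, ∃ j ∈ Icc 1 a,
          l ∣ p + j ∧ (Nat.primeCounting (p + j)).Prime} with hC
  have hR : ∀ i < n, y ≤ y * 2 ^ i ∧ 2 * (y * 2 ^ i) ≤ z := fun i hi =>
    ⟨Nat.le_mul_of_pos_right _ (by positivity), by
      rw [hz, ← mul_assoc, mul_comm 2, mul_assoc, ← pow_succ']
      exact Nat.mul_le_mul_left _ (Nat.pow_le_pow_right two_pos hi)⟩
  have h1 : {p ∈ range (x + 1) | p.Prime ∧ (Nat.primeCounting p).Prime} ⊆
      ((range (w + w' + 1 + z * (z + 1)) ∪ A) ∪ (Icc 2 y).biUnion B) ∪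
        (range n).biUnion fun i => C (y * 2 ^ i) := by
    intro p hp
    obtain ⟨a1, a2, a3⟩ := mem_filter.mp hp
    simp only [mem_union]
    by_cases b1 : p < w + w' + 1 + z * (z + 1)
    · exact Or.inl (Or.inl (Or.inl (mem_range.mpr b1)))
    by_cases b2 : ∃ i, 1 ≤ i ∧ i ≤ y ∧ (p + i).Prime
    swap
    · exact Or.inl (Or.inl (Or.inr (mem_filter.mpr ⟨a1, ⟨a2, a3⟩,
        fun i c1 c2 c3 => b2 ⟨i, c1, c2, c3⟩⟩)))
    obtain ⟨c1, c2, c3⟩ := Nat.find_spec b2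
    have c4 := fun i => @Nat.find_min _ _ b2 i
    set g := Nat.find b2 with hg
    have c5 : g ≠ 1 := by
      intro h
      rw [h] at c3
      have := a2.eq_two_or_odd
      have := c3.eq_two_or_odd
      omega
    by_cases b3 : ∀ l ∈ Q, ∀ j ∈ range (min g a), ¬ l ∣ p + j
    · exact Or.inl (Or.inr (mem_biUnion.mpr ⟨g, mem_Icc.mpr ⟨by omega, c2⟩,
        mem_filter.mpr ⟨a1, ⟨a2, by omega⟩, c3, b3⟩⟩))
    push Not at b3
    obtain ⟨l, hl, j, hj, d1⟩ := b3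
    obtain ⟨d2, d3, d4⟩ := hQ l hl
    have hj := mem_range.mp hj
    have d5 : z ≤ z * (z + 1) := Nat.le_mul_of_pos_right _ (by omega)
    have d6 : j ≠ 0 := by
      rintro rfl
      have := (Nat.prime_dvd_prime_iff_eq d2 a2).mp d1
      omega
    obtain ⟨i, hi, d7⟩ := dyadic d3 (hz ▸ d4)
    have d8 : 2 * (y * 2 ^ i) * (2 * (y * 2 ^ i) + 1) ≤ z * (z + 1) :=
      Nat.mul_le_mul (hR i hi).2 (Nat.succ_le_succ (hR i hi).2)
    refine Or.inr (mem_biUnion.mpr ⟨i, mem_range.mpr hi, mem_filter.mpr ⟨a1,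
      ⟨a2, by omega, by omega⟩, l, mem_filter.mpr ⟨mem_Ioc.mpr d7, d2⟩, j,
      mem_Icc.mpr ⟨by omega, by omega⟩, d1, ?_⟩⟩)
    rw [pi_add fun i e1 e2 e3 => c4 i (by omega) ⟨e1, by omega, e3⟩]
    exact a3
  have h2 : #{p ∈ range (x + 1) | p.Prime ∧ (Nat.primeCounting p).Prime} ≤
      w + w' + 1 + z * (z + 1) + #A + ∑ g ∈ Icc 2 y, #(B g) +
        ∑ i ∈ range n, #(C (y * 2 ^ i)) := by
    refine (card_le_card h1).trans ((card_union_le _ _).trans (add_le_add ((card_union_le _ _).trans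
      (add_le_add ((card_union_le _ _).trans ?_) card_biUnion_le)) card_biUnion_le))
    rw [card_range]
  have h3 : (#A : ℝ) ≤ cnt (y + (x + y) / y) := Nat.cast_le.mpr (gap_le (by omega) le_rfl)
  have h4 : ∑ i ∈ range n, (#(C (y * 2 ^ i)) : ℝ) ≤ n * β := by
    refine (sum_le_card_nsmul _ _ β fun i hi => ?_).trans (by rw [card_range, nsmul_eq_mul])
    obtain ⟨e1, e2⟩ := hR i (mem_range.mp hi)
    obtain ⟨e3, e4⟩ := hβ _ e1 e2
    exact (good2_le _ (fun l hl => ⟨(mem_filter.mp hl).2, mem_Ioc.mp (mem_filter.mp hl).1⟩)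
      (by omega) (by omega) hw' hm e3 le_rfl).trans e4
  have hlog : 0 < Real.log w := Real.log_pos (by exact_mod_cast hw)
  have hρ0 := (rho_pos fun l hl => (hQ l hl).1).le
  have hρ1 := hρ0.trans hρ
  have hσ0 : 0 ≤ ∑ l ∈ Q, 1 / (l : ℝ) := sum_nonneg fun _ _ => by positivity
  have h5 : ∑ g ∈ Icc 2 y, (#(B g) : ℝ) ≤
      8 * (x + 1) / Real.log w ^ 2 * (24 * ρ + y * (y ^ 2 * ρ ^ (a - 1))) +
        y * (2 * ((z : ℝ) ^ K * (w * w)) ^ 4) := by
    calc _ ≤ ∑ g ∈ Icc 2 y, (8 * (x + 1) / Real.log w ^ 2 * ((g : ℝ) ^ 2 * ρ ^ (g - 1) +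
            y ^ 2 * ρ ^ (a - 1)) + 2 * ((z : ℝ) ^ K * (w * w)) ^ 4) := by
          refine sum_le_sum fun g hg => ?_
          obtain ⟨g1, g2⟩ := mem_Icc.mp hg
          have := bad2_le Q (g := g) (a := min g a) (K := K)
            (fun l hl => by have := hQ l hl; exact ⟨this.1, by omega, by omega, this.2.2⟩) hzw
            (by omega) (by omega) (by omega) hw (le_trans (by
              have : ((min g a : ℕ) : ℝ) ≤ a := by exact_mod_cast min_le_right g a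
              gcongr) hK) x
          refine this.trans ?_
          have e1 : (g : ℝ) ≤ y := by exact_mod_cast g2
          have e2 : (g : ℝ) ^ 2 * ρ ^ (min g a - 1) ≤ g ^ 2 * ρ ^ (g - 1) + y ^ 2 * ρ ^ (a - 1) := by
            rcases min_choice g a with h | h <;> rw [h]
            · exact le_add_of_nonneg_right (by positivity)
            · exact le_add_of_nonneg_of_le (by positivity) (by gcongr)
          push_cast
          calc _ ≤ ((x : ℝ) + 1) * (8 * g ^ 2 * ρ ^ (min g a - 1)) / Real.log w ^ 2 +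
                2 * ((z : ℝ) ^ K * (w * w)) ^ 4 := by gcongr
            _ = 8 * (x + 1) / Real.log w ^ 2 * (g ^ 2 * ρ ^ (min g a - 1)) +
                2 * ((z : ℝ) ^ K * (w * w)) ^ 4 := by ring
            _ ≤ _ := by gcongr
      _ ≤ _ := by
          rw [sum_add_distrib, ← mul_sum, sum_add_distrib, sum_const, sum_const, nsmul_eq_mul,
            nsmul_eq_mul, Nat.card_Icc]
          have : ((y + 1 - 2 : ℕ) : ℝ) ≤ y := by exact_mod_cast (by omega : y + 1 - 2 ≤ y)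
          gcongr
          exact sum_sq_le hρ1 hρ' y
  have h6 : (#{p ∈ range (x + 1) | p.Prime ∧ (Nat.primeCounting p).Prime} : ℝ) ≤
      w + w' + 1 + z * (z + 1) + #A + ∑ g ∈ Icc 2 y, (#(B g) : ℝ) +
        ∑ i ∈ range n, (#(C (y * 2 ^ i)) : ℝ) := by exact_mod_cast h2
  linarith

end Pool.Agent.MP_100d00_nt
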