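import Pool.Agent.MP_100d00_nt.Big

/-!
The finite counting inequality with a threshold on the gaps.
-/

set_option autoImplicit false

namespace Pool.Agent.MP_100d00_nt

open Finset Pool.Agent.MP_a96b63_al
open scoped Classical

lemma det_ne2 {l l' : ℕ} {z c c' : ℤ} (hl : l.Prime) (hl' : l'.Prime) (h0 : c ≠ 0) (h1 : |c| < l)
    (hne : l = l' → c ≠ c') :
    (l' * (l * (z - l) - c) : ℤ) - l * (l' * (z - l') - c') ≠ 0 := by
  intro h
  by_cases e : l = l'
  · subst e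
    have h5 : (l : ℤ) * (c' - c) = 0 := by linear_combination h
    rcases mul_eq_zero.mp h5 with h6 | h6
    · have := hl.pos; omega
    · exact hne rfl (by omega)
  · have h5 : (l : ℤ) ∣ l' * c := ⟨l' * (l' - l) + c', by linear_combination -h⟩
    rcases (Nat.prime_iff_prime_int.mp hl).dvd_or_dvd h5 with h6 | h6
    · exact e ((Nat.prime_dvd_prime_iff_eq hl hl').mp (Int.natCast_dvd_natCast.mp h6))
    · exact absurd (Int.le_of_dvd (abs_pos.mpr h0) ((dvd_abs _ _).mpr h6)) (not_le.mpr h1)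

theorem good3_le (Q : Finset ℕ) {x R a G w m N : ℕ} {T : ℝ}
    (hQ : ∀ l ∈ Q, l.Prime ∧ R < l ∧ l ≤ 2 * R) (hR : 0 < R) (haR : a ≤ R) (hGR : G ≤ R)
    (hw : 2 ≤ w) (hm : 0 < m) (hT : 2 * (m : ℝ) ≤ T) (hN : 2 * R + (x + a) / R ≤ N) :
    (#{p ∈ range (x + 1) | (p.Prime ∧ w < p ∧ 2 * R * (2 * R + 1) ≤ p) ∧
        ∃ l ∈ Q, ∃ j ∈ Icc 1 a, ∃ g ∈ Icc 1 G, j < g ∧ (p + g).Prime ∧ l ∣ p + j ∧
          (Nat.primeCounting (p + j)).Prime} : ℝ) ≤
      a * (T * cnt N + (2 * (R * (a * G) : ℝ)) ^ m / T ^ (m - 1) *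
        (N * (1 + 2 * ((m * 2 : ℕ) ^ 2 + 3 * (m * 2 : ℕ) ^ 2 *
          Real.log (2 * R * (2 * R + 1) + R : ℕ))) ^ (m * 2) /
          Real.log w ^ (m * 2) + 2 * (w : ℝ) ^ (4 * (m * 2)))) := by
  set z := 2 * R with hz
  set C := {c ∈ Icc 1 a ×ˢ Icc 1 G | c.1 < c.2} with hC
  let F : ℕ → ℕ × ℕ → ℕ → ℕ → Prop := fun l c b t =>
    (rr z (l, c.1) + b * c.2 + l * t).Prime ∧ w < rr z (l, c.1) + b * c.2 + l * t
  let P : ℕ → ℕ → Prop := fun l t => ∃ c ∈ C, F l c 0 t ∧ F l c 1 t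
  set S := {t ∈ range N | t + z + 1 ≤ N ∧ Good (t + z + 1)} with hS
  have hm' : (0 : ℝ) < m := by exact_mod_cast hm
  have hT0 : 0 < T := by linarith
  have h1 : #{p ∈ range (x + 1) | (p.Prime ∧ w < p ∧ z * (z + 1) ≤ p) ∧
        ∃ l ∈ Q, ∃ j ∈ Icc 1 a, ∃ g ∈ Icc 1 G, j < g ∧ (p + g).Prime ∧ l ∣ p + j ∧
          (Nat.primeCounting (p + j)).Prime} ≤ a * ∑ t ∈ S, #{l ∈ Q | P l t} := by
    rw [← card_sigma, show a = #(Icc 1 a) by simp, ← card_product]
    refine card_le_card_of_surjOn (fun s => rr z (s.2.2, s.1) + s.2.2 * s.2.1) fun p hp => ?_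
    obtain ⟨h2, ⟨h3, h4, h5⟩, l, hl, j, hj, g, hg, hjg, hpg, ⟨n, hn⟩, h6⟩ :=
      mem_filter.mp (mem_coe.mp hp)
    rw [show #(Icc 1 a) = a by simp] at hj
    obtain ⟨-, h7, h8⟩ := hQ l hl
    obtain ⟨h9, h10⟩ := mem_Icc.mp hj
    have h2 := mem_range.mp h2
    have h11 : z + 1 ≤ n := by
      by_contra h12
      have : l * n ≤ z * z := Nat.mul_le_mul h8 (by omega)
      have : z * (z + 1) = z * z + z := by ring
      omega
    have h12 : n ≤ (x + a) / R := by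
      rw [Nat.le_div_iff_mul_le hR]
      have : n * R ≤ l * n := by rw [mul_comm]; exact Nat.mul_le_mul_right _ h7.le
      omega
    have h13 : rr z (l, j) + l * (l + n - (z + 1)) = p := by
      have e1 : l * n = l * (z + 1 - l) + l * (l + n - (z + 1)) := by
        rw [← mul_add]; congr 1; omega
      have e2 : l ≤ l * (z + 1 - l) := Nat.le_mul_of_pos_right _ (by omega)
      simp only [rr]
      omega
    refine ⟨(j, ⟨l + n - (z + 1), l⟩), mem_coe.mpr (mem_product.mpr ⟨hj, mem_sigma.mpr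
      ⟨mem_filter.mpr ⟨mem_range.mpr (by dsimp only; omega), by dsimp only; omega, l, n, by omega,
        by omega, by dsimp only; omega, hn ▸ h6⟩, mem_filter.mpr ⟨hl, (j, g),
          mem_filter.mpr ⟨mem_product.mpr ⟨hj, hg⟩, hjg⟩, ?_, ?_⟩⟩⟩), h13⟩
    · simp only [F, zero_mul, add_zero, h13]
      exact ⟨h3, h4⟩
    · simp only [F, one_mul]
      rw [add_right_comm, h13]
      exact ⟨hpg, by omega⟩
  have h2 : #S ≤ cnt N := by
    refine card_le_card_of_injOn (fun t => t + z + 1) (fun t ht => ?_) fun t _ t' _ h => ?_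
    · obtain ⟨-, h3, h4⟩ := mem_filter.mp (mem_coe.mp ht)
      exact mem_coe.mpr (mem_filter.mpr ⟨mem_range.mpr (by dsimp only; omega), h4⟩)
    · dsimp only at h; omega
  have hQc : (#Q : ℝ) ≤ R := by
    refine Nat.cast_le.mpr ((card_le_card (t := Ioc R (2 * R)) fun l hl => ?_).trans ?_)
    · exact mem_Ioc.mpr (hQ l hl).2
    · rw [Nat.card_Ioc]; omega
  have hCc : (#C : ℝ) ≤ a * G := by
    have : #C ≤ a * G := (card_filter_le _ _).trans (by simp)
    exact_mod_cast this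
  have hCm : ∀ c ∈ C, 1 ≤ c.1 ∧ c.1 ≤ R ∧ c.1 < c.2 ∧ c.2 ≤ R := fun c hc => by
    obtain ⟨c1, c2⟩ := mem_filter.mp hc
    obtain ⟨c3, c4⟩ := mem_product.mp c1
    rw [mem_Icc] at c3 c4
    omega
  set E := N * (1 + 2 * ((m * 2 : ℕ) ^ 2 + 3 * (m * 2 : ℕ) ^ 2 *
    Real.log (z * (z + 1) + R : ℕ))) ^ (m * 2) / Real.log w ^ (m * 2) +
      2 * (w : ℝ) ^ (4 * (m * 2)) with hE
  have hlog : 0 < Real.log w := Real.log_pos (by exact_mod_cast hw)
  have hE0 : 0 ≤ E := by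
    have := Real.log_natCast_nonneg (z * (z + 1) + R)
    positivity
  have h4 := moment_le Q P N m (E := (a * G : ℝ) ^ m * E) (by positivity) fun s hs => by
    obtain ⟨s1, s2⟩ := mem_powersetCard.mp hs
    have e1 : {t ∈ range N | ∀ l ∈ s, P l t} ⊆ (s.pi fun _ => C).biUnion fun f =>
        {t ∈ range N | ∀ i ∈ s.attach ×ˢ range 2, F i.1.1 (f i.1.1 i.1.2) i.2 t} := by
      intro t ht
      obtain ⟨e2, e3⟩ := mem_filter.mp ht
      choose f hf using e3
      refine mem_biUnion.mpr ⟨f, mem_pi.mpr fun l hl => (hf l hl).1, mem_filter.mpr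
        ⟨e2, fun i hi => ?_⟩⟩
      have := mem_range.mp (mem_product.mp hi).2
      obtain h | h : i.2 = 0 ∨ i.2 = 1 := by omega
      · rw [h]; exact (hf _ _).2.1
      · rw [h]; exact (hf _ _).2.2
    refine (le_of_eq (by congr!)).trans ((Nat.cast_le.mpr ((card_le_card e1).trans
      card_biUnion_le)).trans ?_)
    rw [Nat.cast_sum]
    refine (sum_le_card_nsmul _ _ E fun f hf => ?_).trans ?_
    · have hf := fun i : {l // l ∈ s} × ℕ => hCm _ (mem_pi.mp hf i.1.1 i.1.2)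
      have hq := fun i : {l // l ∈ s} × ℕ => hQ _ (s1 i.1.2)
      refine (le_of_eq (by congr!)).trans (sieve_fin (s.attach ×ˢ range 2)
        (fun i => rr z (i.1.1, (f i.1.1 i.1.2).1) + i.2 * (f i.1.1 i.1.2).2) (fun i => i.1.1)
        (B := z * (z + 1) + R) (m := m * 2) (by simp [s2]) (by omega) hw (fun i hi => ?_)
        (fun i hi i' hi' hne => ?_) N)
      · have e2 := mem_range.mp (mem_product.mp hi).2
        have e3 : i.2 * (f i.1.1 i.1.2).2 ≤ 1 * R := Nat.mul_le_mul (by omega) (hf i).2.2.2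
        have e4 : rr z (i.1.1, (f i.1.1 i.1.2).1) ≤ z * (z + 1) :=
          (Nat.sub_le _ _).trans (Nat.mul_le_mul (hq i).2.2 (Nat.sub_le _ _))
        have e5 : z ≤ z * (z + 1) := Nat.le_mul_of_pos_right _ (by omega)
        have := hq i
        exact ⟨this.1.ne_zero, by omega, by omega⟩
      · have e2 := mem_range.mp (mem_product.mp hi).2
        have e3 := mem_range.mp (mem_product.mp hi').2
        have e4 := det_ne2 (z := z + 1)
          (c := (f i.1.1 i.1.2).1 - i.2 * (f i.1.1 i.1.2).2)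
          (c' := (f i'.1.1 i'.1.2).1 - i'.2 * (f i'.1.1 i'.1.2).2) (hq i).1 (hq i').1
          (by have := hf i; obtain h | h : i.2 = 0 ∨ i.2 = 1 := by omega
              all_goals rw [h]; omega)
          (by have := hf i; have := hq i; rw [abs_lt]; obtain h | h : i.2 = 0 ∨ i.2 = 1 := by omega
              all_goals rw [h]; omega)
          (fun e h => by
            obtain ⟨i1, i2⟩ := i
            obtain ⟨j1, j2⟩ := i'
            obtain rfl : i1 = j1 := Subtype.ext e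
            have := hf (i1, i2)
            dsimp only at *
            have e5 : i2 ≠ j2 := fun h => hne (by rw [h])
            obtain ⟨rfl, rfl⟩ | ⟨rfl, rfl⟩ : (i2 = 0 ∧ j2 = 1) ∨ (i2 = 1 ∧ j2 = 0) := by omega
            all_goals omega)
        push_cast
        rw [rr_cast (y := R) (hq i).2.1 (hq i).2.2 (hf i).2.1,
          rr_cast (y := R) (hq i').2.1 (hq i').2.2 (hf i').2.1]
        intro h
        exact e4 (by linear_combination h)
    · rw [card_pi, prod_const, s2, nsmul_eq_mul, Nat.cast_pow]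
      gcongr
  calc _ ≤ (a : ℝ) * ∑ t ∈ S, (#{l ∈ Q | P l t} : ℝ) := by exact_mod_cast h1
    _ ≤ a * ∑ t ∈ S, (T + 2 ^ m * m.factorial / T ^ (m - 1) * (#{l ∈ Q | P l t}).choose m) :=
        mul_le_mul_of_nonneg_left (sum_le_sum fun t _ => le_choose hm hT) (by positivity)
    _ ≤ a * (T * cnt N + 2 ^ m / T ^ (m - 1) *
          ∑ t ∈ range N, (m.factorial : ℝ) * (#{l ∈ Q | P l t}).choose m) := by
        rw [sum_add_distrib, sum_const, nsmul_eq_mul, mul_comm _ T, mul_sum]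
        refine mul_le_mul_of_nonneg_left (add_le_add (by gcongr) ?_) (by positivity)
        refine le_trans (le_of_eq (sum_congr rfl fun t _ => by ring))
          (sum_le_sum_of_subset_of_nonneg (filter_subset _ _) fun _ _ _ => by positivity)
    _ ≤ a * (T * cnt N + 2 ^ m / T ^ (m - 1) * (R ^ m * ((a * G : ℝ) ^ m * E))) := by
        gcongr
        exact (le_of_eq (by congr!)).trans (h4.trans (by gcongr))
    _ = _ := by rw [mul_pow 2, mul_pow (R : ℝ)]; ring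

/-- The finite inequality. -/
theorem finite_ineq3 {x y n z a w w' K m U J K₂ N₁ : ℕ} {T : ℕ → ℝ} {ρ σ β : ℝ}
    (hz : z = y * 2 ^ n) (ha : 1 ≤ a) (hay : 2 * a + 2 ≤ y) (hzw : z ≤ w) (hw : 2 ≤ w)
    (hw' : 2 ≤ w') (hm : 0 < m) (hU : 0 < U) (hUy : 4 * U ^ 2 ≤ y)
    (hN₁ : 4 * U ^ 2 + (x + 4 * U ^ 2) / U ^ 2 ≤ N₁)
    (hρ : ∏ l ∈ (Ioc y z).filter Nat.Prime, (1 - 1 / (l : ℝ)) ≤ ρ) (hρ' : ρ ≤ 1 / 2)
    (hσ : ∑ l ∈ (Ioc y z).filter Nat.Prime, 1 / (l : ℝ) ≤ σ)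
    (hK : 2 * Real.exp (2 * (a + 1) * σ) ≤ 2 ^ K)
    (hβ : ∀ R : ℕ, y ≤ R → 2 * R ≤ z → 2 * (m : ℝ) ≤ T R ∧
      a * (T R * cnt (2 * R + (x + a) / R) + (2 * (R * (a * (4 * U ^ 2 : ℕ)) : ℝ)) ^ m / T R ^ (m - 1) *
        ((2 * R + (x + a) / R : ℕ) * (1 + 2 * ((m * 2 : ℕ) ^ 2 + 3 * (m * 2 : ℕ) ^ 2 *
          Real.log (2 * R * (2 * R + 1) + R : ℕ))) ^ (m * 2) /
          Real.log w' ^ (m * 2) + 2 * (w' : ℝ) ^ (4 * (m * 2)))) ≤ β) :
    (#{p ∈ range (x + 1) | p.Prime ∧ (Nat.primeCounting p).Prime} : ℝ) ≤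
      (w + 2 * (w' + 1) + z * (z + 1)) + (K₂ + 2) * cnt N₁ / U +
      (#{t ∈ range (x + 1) | (J : ℝ) < #{h ∈ Icc 1 (16 * U ^ 4) | (h + 1 * t).Prime ∧ w' < h + 1 * t}} +
       #{t ∈ range (x + 1) | (K₂ : ℝ) < #{h ∈ Icc 1 J | (h + 1 * t).Prime ∧ w' < h + 1 * t}}) +
      8 * (x + 1) / Real.log w ^ 2 * (24 * ρ + y * (y ^ 2 * ρ ^ (a - 1))) +
      y * (2 * ((z : ℝ) ^ K * (w * w)) ^ 4) + n * β := by
  set Q := (Ioc y z).filter Nat.Prime with hQdef
  have hQ : ∀ l ∈ Q, l.Prime ∧ y < l ∧ l ≤ z := fun l hl =>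
    ⟨(mem_filter.mp hl).2, mem_Ioc.mp (mem_filter.mp hl).1⟩
  have hyz : y ≤ z := hz ▸ Nat.le_mul_of_pos_right _ (by positivity)
  set E₁ := {t ∈ range (x + 1) |
    (J : ℝ) < #{h ∈ Icc 1 (16 * U ^ 4) | (h + 1 * t).Prime ∧ w' < h + 1 * t}} with hE₁
  set E₂ := {t ∈ range (x + 1) |
    (K₂ : ℝ) < #{h ∈ Icc 1 J | (h + 1 * t).Prime ∧ w' < h + 1 * t}} with hE₂
  set E₃ := {p ∈ range (x + 1) | p.Prime ∧ Nat.primeCounting p ∈ range (w' + 1) ∪ E₂} with hE₃
  set A := {p ∈ range (x + 1) | (((p.Prime ∧ (Nat.primeCounting p).Prime) ∧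
      ∀ i, 1 ≤ i → i ≤ 4 * U ^ 2 → ¬ (p + i).Prime) ∧ w' < p) ∧ p ∉ E₁ ∧ p ∉ E₃} with hA
  set B := fun g => {p ∈ range (x + 1) | (p.Prime ∧ w < p) ∧ (p + g).Prime ∧
        ∀ l ∈ Q, ∀ j ∈ range (min g a), ¬ l ∣ p + j} with hB
  set C := fun R => {p ∈ range (x + 1) | (p.Prime ∧ w' < p ∧ 2 * R * (2 * R + 1) ≤ p) ∧
        ∃ l ∈ (Ioc R (2 * R)).filter Nat.Prime, ∃ j ∈ Icc 1 a, ∃ g ∈ Icc 1 (4 * U ^ 2), j < g ∧
          (p + g).Prime ∧ l ∣ p + j ∧ (Nat.primeCounting (p + j)).Prime} with hC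
  have hR : ∀ i < n, y ≤ y * 2 ^ i ∧ 2 * (y * 2 ^ i) ≤ z := fun i hi =>
    ⟨Nat.le_mul_of_pos_right _ (by positivity), by
      rw [hz, ← mul_assoc, mul_comm 2, mul_assoc, ← pow_succ']
      exact Nat.mul_le_mul_left _ (Nat.pow_le_pow_right two_pos hi)⟩
  have h1 : {p ∈ range (x + 1) | p.Prime ∧ (Nat.primeCounting p).Prime} ⊆
      ((((range (w + w' + 1 + z * (z + 1)) ∪ A) ∪ E₁) ∪ E₃) ∪ (Icc 2 y).biUnion B) ∪
        (range n).biUnion fun i => C (y * 2 ^ i) := by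
    intro p hp
    obtain ⟨a1, a2, a3⟩ := mem_filter.mp hp
    simp only [mem_union]
    by_cases b1 : p < w + w' + 1 + z * (z + 1)
    · exact Or.inl (Or.inl (Or.inl (Or.inl (Or.inl (mem_range.mpr b1)))))
    by_cases b4 : p ∈ E₁
    · exact Or.inl (Or.inl (Or.inl (Or.inr b4)))
    by_cases b5 : p ∈ E₃
    · exact Or.inl (Or.inl (Or.inr b5))
    by_cases b2 : ∃ i, 1 ≤ i ∧ i ≤ 4 * U ^ 2 ∧ (p + i).Prime
    swap
    · exact Or.inl (Or.inl (Or.inl (Or.inl (Or.inr (mem_filter.mpr ⟨a1, ⟨⟨⟨a2, a3⟩,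
        fun i c1 c2 c3 => b2 ⟨i, c1, c2, c3⟩⟩, by omega⟩, b4, b5⟩)))))
    obtain ⟨c1, c2, c3⟩ := Nat.find_spec b2
    have c4 := fun i => @Nat.find_min _ _ b2 i
    set g := Nat.find b2 with hg
    have c5 : g ≠ 1 := by
      intro h
      rw [h] at c3
      have := a2.eq_two_or_odd
      have := c3.eq_two_or_odd
      omega
    by_cases b3 : ∀ l ∈ Q, ∀ j ∈ range (min g a), ¬ l ∣ p + j
    · exact Or.inl (Or.inr (mem_biUnion.mpr ⟨g, mem_Icc.mpr ⟨by omega, by omega⟩,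
        mem_filter.mpr ⟨a1, ⟨a2, by omega⟩, c3, b3⟩⟩))
    push Not at b3
    obtain ⟨l, hl, j, hj, d1⟩ := b3
    obtain ⟨d2, d3, d4⟩ := hQ l hl
    have hj := mem_range.mp hj
    have d5 : z ≤ z * (z + 1) := Nat.le_mul_of_pos_right _ (by omega)
    have d6 : j ≠ 0 := by
      rintro rfl
      have := (Nat.prime_dvd_prime_iff_eq d2 a2).mp d1
      omega
    obtain ⟨i, hi, d7⟩ := dyadic d3 (hz ▸ d4)
    have d8 : 2 * (y * 2 ^ i) * (2 * (y * 2 ^ i) + 1) ≤ z * (z + 1) :=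
      Nat.mul_le_mul (hR i hi).2 (Nat.succ_le_succ (hR i hi).2)
    refine Or.inr (mem_biUnion.mpr ⟨i, mem_range.mpr hi, mem_filter.mpr ⟨a1,
      ⟨a2, by omega, by omega⟩, l, mem_filter.mpr ⟨mem_Ioc.mpr d7, d2⟩, j,
      mem_Icc.mpr ⟨by omega, by omega⟩, g, mem_Icc.mpr ⟨c1, c2⟩, by omega, c3, d1, ?_⟩⟩)
    rw [pi_add fun i e1 e2 e3 => c4 i (by omega) ⟨e1, by omega, e3⟩]
    exact a3
  have h0 : #E₃ ≤ w' + 1 + #E₂ := by
    refine le_trans (card_le_card_of_injOn Nat.primeCounting (fun p hp => ?_) fun p hp q hq h => ?_)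
      ((card_union_le (range (w' + 1)) E₂).trans (by rw [card_range]))
    · exact (mem_filter.mp (mem_coe.mp hp)).2.2
    · exact pi_inj (mem_filter.mp (mem_coe.mp hp)).2.1 (mem_filter.mp (mem_coe.mp hq)).2.1 h
  have h2 : #{p ∈ range (x + 1) | p.Prime ∧ (Nat.primeCounting p).Prime} ≤
      w + w' + 1 + z * (z + 1) + #A + #E₁ + (w' + 1 + #E₂) + ∑ g ∈ Icc 2 y, #(B g) +
        ∑ i ∈ range n, #(C (y * 2 ^ i)) := by
    refine (card_le_card h1).trans ((card_union_le _ _).trans (add_le_add ((card_union_le _ _).trans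
      (add_le_add ((card_union_le _ _).trans (add_le_add ((card_union_le _ _).trans
        (add_le_add ((card_union_le _ _).trans ?_) le_rfl)) h0)) card_biUnion_le)) card_biUnion_le))
    rw [card_range]
  have h3 : (#A : ℝ) ≤ (K₂ + 2) * cnt N₁ / U := by
    have := big_le A (x := x) (K := K₂) hU (fun p hp => ⟨Nat.lt_succ_iff.mp
      (mem_range.mp (mem_filter.mp hp).1), (mem_filter.mp hp).2.1.1⟩) (fun p hp => by
        obtain ⟨e1, ⟨⟨⟨e2, -⟩, -⟩, e3⟩, e4, e5⟩ := mem_filter.mp hp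
        have e6 : Nat.primeCounting p ∉ range (w' + 1) ∪ E₂ :=
          fun h => e5 (mem_filter.mpr ⟨e1, e2, h⟩)
        rw [mem_union, not_or, mem_range] at e6
        have e7 : Nat.primeCounting p ∈ range (x + 1) := by
          have : Nat.primeCounting p ≤ p := by
            have := pi_add_card 0 p
            have e := card_filter_le (Icc 1 p) fun h => (0 + h).Prime
            rw [zero_add, Nat.primeCounting_zero] at this
            rw [Nat.card_Icc] at e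
            omega
          have := mem_range.mp e1
          exact mem_range.mpr (by omega)
        refine (cluster (J := J) e3 (by omega) ?_ A fun q hq => (mem_filter.mp hq).2.1.1.1).trans ?_
        · exact_mod_cast not_lt.mp fun h => e4 (mem_filter.mpr ⟨e1, h⟩)
        · exact_mod_cast not_lt.mp fun h => e6.2 (mem_filter.mpr ⟨e7, h⟩)) hN₁
    rw [le_div_iff₀ (by exact_mod_cast hU), mul_comm]
    exact_mod_cast this
  have h4 : ∑ i ∈ range n, (#(C (y * 2 ^ i)) : ℝ) ≤ n * β := by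
    refine (sum_le_card_nsmul _ _ β fun i hi => ?_).trans (by rw [card_range, nsmul_eq_mul])
    obtain ⟨e1, e2⟩ := hR i (mem_range.mp hi)
    obtain ⟨e3, e4⟩ := hβ _ e1 e2
    exact (good3_le _ (fun l hl => ⟨(mem_filter.mp hl).2, mem_Ioc.mp (mem_filter.mp hl).1⟩)
      (by omega) (by omega) (by omega) hw' hm e3 le_rfl).trans e4
  have hlog : 0 < Real.log w := Real.log_pos (by exact_mod_cast hw)
  have hρ0 := (rho_pos fun l hl => (hQ l hl).1).le
  have hρ1 := hρ0.trans hρ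
  have hσ0 : 0 ≤ ∑ l ∈ Q, 1 / (l : ℝ) := sum_nonneg fun _ _ => by positivity
  have h5 : ∑ g ∈ Icc 2 y, (#(B g) : ℝ) ≤
      8 * (x + 1) / Real.log w ^ 2 * (24 * ρ + y * (y ^ 2 * ρ ^ (a - 1))) +
        y * (2 * ((z : ℝ) ^ K * (w * w)) ^ 4) := by
    calc _ ≤ ∑ g ∈ Icc 2 y, (8 * (x + 1) / Real.log w ^ 2 * ((g : ℝ) ^ 2 * ρ ^ (g - 1) +
            y ^ 2 * ρ ^ (a - 1)) + 2 * ((z : ℝ) ^ K * (w * w)) ^ 4) := by
          refine sum_le_sum fun g hg => ?_
          obtain ⟨g1, g2⟩ := mem_Icc.mp hg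
          have := bad2_le Q (g := g) (a := min g a) (K := K)
            (fun l hl => by have := hQ l hl; exact ⟨this.1, by omega, by omega, this.2.2⟩) hzw
            (by omega) (by omega) (by omega) hw (le_trans (by
              have : ((min g a : ℕ) : ℝ) ≤ a := by exact_mod_cast min_le_right g a
              gcongr) hK) x
          refine this.trans ?_
          have e1 : (g : ℝ) ≤ y := by exact_mod_cast g2
          have e2 : (g : ℝ) ^ 2 * ρ ^ (min g a - 1) ≤ g ^ 2 * ρ ^ (g - 1) + y ^ 2 * ρ ^ (a - 1) := by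
            rcases min_choice g a with h | h <;> rw [h]
            · exact le_add_of_nonneg_right (by positivity)
            · exact le_add_of_nonneg_of_le (by positivity) (by gcongr)
          push_cast
          calc _ ≤ ((x : ℝ) + 1) * (8 * g ^ 2 * ρ ^ (min g a - 1)) / Real.log w ^ 2 +
                2 * ((z : ℝ) ^ K * (w * w)) ^ 4 := by gcongr
            _ = 8 * (x + 1) / Real.log w ^ 2 * (g ^ 2 * ρ ^ (min g a - 1)) +
                2 * ((z : ℝ) ^ K * (w * w)) ^ 4 := by ring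
            _ ≤ _ := by gcongr
      _ ≤ _ := by
          rw [sum_add_distrib, ← mul_sum, sum_add_distrib, sum_const, sum_const, nsmul_eq_mul,
            nsmul_eq_mul, Nat.card_Icc]
          have : ((y + 1 - 2 : ℕ) : ℝ) ≤ y := by exact_mod_cast (by omega : y + 1 - 2 ≤ y)
          gcongr
          exact sum_sq_le hρ1 hρ' y
  have h6 : (#{p ∈ range (x + 1) | p.Prime ∧ (Nat.primeCounting p).Prime} : ℝ) ≤
      w + w' + 1 + z * (z + 1) + #A + #E₁ + (w' + 1 + #E₂) + ∑ g ∈ Icc 2 y, (#(B g) : ℝ) +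
        ∑ i ∈ range n, (#(C (y * 2 ^ i)) : ℝ) := by exact_mod_cast h2
  linarith

end Pool.Agent.MP_100d00_nt
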