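import Pool.Agent.MP_100d00_nt.Cnt3

/-!
The finite counting inequality for an arbitrary set of sieving primes.
-/

set_option autoImplicit false

namespace Pool.Agent.MP_100d00_nt

open Finset Pool.Agent.MP_a96b63_al
open scoped Classical

/-- The finite inequality. -/
theorem finite_ineq4 (Q : Finset ℕ) {x y n z a w w' K m U J K₂ N₁ : ℕ} {T : ℕ → ℝ} {ρ σ β : ℝ}
    (hz : z = y * 2 ^ n) (ha : 1 ≤ a) (hay : 2 * a + 2 ≤ y) (hzw : z ≤ w) (hw : 2 ≤ w)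
    (hw' : 2 ≤ w') (hm : 0 < m) (hU : 0 < U) (hUy : 4 * U ^ 2 ≤ y)
    (hN₁ : 4 * U ^ 2 + (x + 4 * U ^ 2) / U ^ 2 ≤ N₁)
    (hQ : ∀ l ∈ Q, l.Prime ∧ y < l ∧ l ≤ z)
    (hρ : ∏ l ∈ Q, (1 - 1 / (l : ℝ)) ≤ ρ) (hρ' : ρ ≤ 1 / 2)
    (hσ : ∑ l ∈ Q, 1 / (l : ℝ) ≤ σ) (hβ0 : 0 ≤ β)
    (hK : 2 * Real.exp (2 * (a + 1) * σ) ≤ 2 ^ K)
    (hβ : ∀ R : ℕ, y ≤ R → 2 * R ≤ z → (∃ l ∈ Q, R < l ∧ l ≤ 2 * R) → 2 * (m : ℝ) ≤ T R ∧
      a * (T R * cnt (2 * R + (x + a) / R) + (2 * (R * (a * (4 * U ^ 2 : ℕ)) : ℝ)) ^ m / T R ^ (m - 1) *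
        ((2 * R + (x + a) / R : ℕ) * (1 + 2 * ((m * 2 : ℕ) ^ 2 + 3 * (m * 2 : ℕ) ^ 2 *
          Real.log (2 * R * (2 * R + 1) + R : ℕ))) ^ (m * 2) /
          Real.log w' ^ (m * 2) + 2 * (w' : ℝ) ^ (4 * (m * 2)))) ≤ β) :
    (#{p ∈ range (x + 1) | p.Prime ∧ (Nat.primeCounting p).Prime} : ℝ) ≤
      (w + 2 * (w' + 1) + z * (z + 1)) + (K₂ + 2) * cnt N₁ / U +
      (#{t ∈ range (x + 1) | (J : ℝ) < #{h ∈ Icc 1 (16 * U ^ 4) | (h + 1 * t).Prime ∧ w' < h + 1 * t}} +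
       #{t ∈ range (x + 1) | (K₂ : ℝ) < #{h ∈ Icc 1 J | (h + 1 * t).Prime ∧ w' < h + 1 * t}}) +
      8 * (x + 1) / Real.log w ^ 2 * (24 * ρ + y * (y ^ 2 * ρ ^ (a - 1))) +
      y * (2 * ((z : ℝ) ^ K * (w * w)) ^ 4) + n * β := by
  have hyz : y ≤ z := hz ▸ Nat.le_mul_of_pos_right _ (by positivity)
  set E₁ := {t ∈ range (x + 1) |
    (J : ℝ) < #{h ∈ Icc 1 (16 * U ^ 4) | (h + 1 * t).Prime ∧ w' < h + 1 * t}} with hE₁
  set E₂ := {t ∈ range (x + 1) |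
    (K₂ : ℝ) < #{h ∈ Icc 1 J | (h + 1 * t).Prime ∧ w' < h + 1 * t}} with hE₂
  set E₃ := {p ∈ range (x + 1) | p.Prime ∧ Nat.primeCounting p ∈ range (w' + 1) ∪ E₂} with hE₃
  set A := {p ∈ range (x + 1) | (((p.Prime ∧ (Nat.primeCounting p).Prime) ∧
      ∀ i, 1 ≤ i → i ≤ 4 * U ^ 2 → ¬ (p + i).Prime) ∧ w' < p) ∧ p ∉ E₁ ∧ p ∉ E₃} with hA
  set B := fun g => {p ∈ range (x + 1) | (p.Prime ∧ w < p) ∧ (p + g).Prime ∧
        ∀ l ∈ Q, ∀ j ∈ range (min g a), ¬ l ∣ p + j} with hB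
  set C := fun R => {p ∈ range (x + 1) | (p.Prime ∧ w' < p ∧ 2 * R * (2 * R + 1) ≤ p) ∧
        ∃ l ∈ {l ∈ Q | R < l ∧ l ≤ 2 * R}, ∃ j ∈ Icc 1 a, ∃ g ∈ Icc 1 (4 * U ^ 2), j < g ∧
          (p + g).Prime ∧ l ∣ p + j ∧ (Nat.primeCounting (p + j)).Prime} with hC
  have hR : ∀ i < n, y ≤ y * 2 ^ i ∧ 2 * (y * 2 ^ i) ≤ z := fun i hi =>
    ⟨Nat.le_mul_of_pos_right _ (by positivity), by
      rw [hz, ← mul_assoc, mul_comm 2, mul_assoc, ← pow_succ']
      exact Nat.mul_le_mul_left _ (Nat.pow_le_pow_right two_pos hi)⟩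
  have h1 : {p ∈ range (x + 1) | p.Prime ∧ (Nat.primeCounting p).Prime} ⊆
      ((((range (w + w' + 1 + z * (z + 1)) ∪ A) ∪ E₁) ∪ E₃) ∪ (Icc 2 y).biUnion B) ∪
        (range n).biUnion fun i => C (y * 2 ^ i) := by
    intro p hp
    obtain ⟨a1, a2, a3⟩ := mem_filter.mp hp
    simp only [mem_union]
    by_cases b1 : p < w + w' + 1 + z * (z + 1)
    · exact Or.inl (Or.inl (Or.inl (Or.inl (Or.inl (mem_range.mpr b1)))))
    by_cases b4 : p ∈ E₁
    · exact Or.inl (Or.inl (Or.inl (Or.inr b4)))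
    by_cases b5 : p ∈ E₃
    · exact Or.inl (Or.inl (Or.inr b5))
    by_cases b2 : ∃ i, 1 ≤ i ∧ i ≤ 4 * U ^ 2 ∧ (p + i).Prime
    swap
    · exact Or.inl (Or.inl (Or.inl (Or.inl (Or.inr (mem_filter.mpr ⟨a1, ⟨⟨⟨a2, a3⟩,
        fun i c1 c2 c3 => b2 ⟨i, c1, c2, c3⟩⟩, by omega⟩, b4, b5⟩)))))
    obtain ⟨c1, c2, c3⟩ := Nat.find_spec b2
    have c4 := fun i => @Nat.find_min _ _ b2 i
    set g := Nat.find b2 with hg
    have c5 : g ≠ 1 := by
      intro h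
      rw [h] at c3
      have := a2.eq_two_or_odd
      have := c3.eq_two_or_odd
      omega
    by_cases b3 : ∀ l ∈ Q, ∀ j ∈ range (min g a), ¬ l ∣ p + j
    · exact Or.inl (Or.inr (mem_biUnion.mpr ⟨g, mem_Icc.mpr ⟨by omega, by omega⟩,
        mem_filter.mpr ⟨a1, ⟨a2, by omega⟩, c3, b3⟩⟩))
    push Not at b3
    obtain ⟨l, hl, j, hj, d1⟩ := b3
    obtain ⟨d2, d3, d4⟩ := hQ l hl
    have hj := mem_range.mp hj
    have d5 : z ≤ z * (z + 1) := Nat.le_mul_of_pos_right _ (by omega)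
    have d6 : j ≠ 0 := by
      rintro rfl
      have := (Nat.prime_dvd_prime_iff_eq d2 a2).mp d1
      omega
    obtain ⟨i, hi, d7⟩ := dyadic d3 (hz ▸ d4)
    have d8 : 2 * (y * 2 ^ i) * (2 * (y * 2 ^ i) + 1) ≤ z * (z + 1) :=
      Nat.mul_le_mul (hR i hi).2 (Nat.succ_le_succ (hR i hi).2)
    refine Or.inr (mem_biUnion.mpr ⟨i, mem_range.mpr hi, mem_filter.mpr ⟨a1,
      ⟨a2, by omega, by omega⟩, l, mem_filter.mpr ⟨hl, d7⟩, j,
      mem_Icc.mpr ⟨by omega, by omega⟩, g, mem_Icc.mpr ⟨c1, c2⟩, by omega, c3, d1, ?_⟩⟩)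
    rw [pi_add fun i e1 e2 e3 => c4 i (by omega) ⟨e1, by omega, e3⟩]
    exact a3
  have h0 : #E₃ ≤ w' + 1 + #E₂ := by
    refine le_trans (card_le_card_of_injOn Nat.primeCounting (fun p hp => ?_) fun p hp q hq h => ?_)
      ((card_union_le (range (w' + 1)) E₂).trans (by rw [card_range]))
    · exact (mem_filter.mp (mem_coe.mp hp)).2.2
    · exact pi_inj (mem_filter.mp (mem_coe.mp hp)).2.1 (mem_filter.mp (mem_coe.mp hq)).2.1 h
  have h2 : #{p ∈ range (x + 1) | p.Prime ∧ (Nat.primeCounting p).Prime} ≤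
      w + w' + 1 + z * (z + 1) + #A + #E₁ + (w' + 1 + #E₂) + ∑ g ∈ Icc 2 y, #(B g) +
        ∑ i ∈ range n, #(C (y * 2 ^ i)) := by
    refine (card_le_card h1).trans ((card_union_le _ _).trans (add_le_add ((card_union_le _ _).trans
      (add_le_add ((card_union_le _ _).trans (add_le_add ((card_union_le _ _).trans
        (add_le_add ((card_union_le _ _).trans ?_) le_rfl)) h0)) card_biUnion_le)) card_biUnion_le))
    rw [card_range]
  have h3 : (#A : ℝ) ≤ (K₂ + 2) * cnt N₁ / U := by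
    have := big_le A (x := x) (K := K₂) hU (fun p hp => ⟨Nat.lt_succ_iff.mp
      (mem_range.mp (mem_filter.mp hp).1), (mem_filter.mp hp).2.1.1⟩) (fun p hp => by
        obtain ⟨e1, ⟨⟨⟨e2, -⟩, -⟩, e3⟩, e4, e5⟩ := mem_filter.mp hp
        have e6 : Nat.primeCounting p ∉ range (w' + 1) ∪ E₂ :=
          fun h => e5 (mem_filter.mpr ⟨e1, e2, h⟩)
        rw [mem_union, not_or, mem_range] at e6
        have e7 : Nat.primeCounting p ∈ range (x + 1) := by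
          have : Nat.primeCounting p ≤ p := by
            have := pi_add_card 0 p
            have e := card_filter_le (Icc 1 p) fun h => (0 + h).Prime
            rw [zero_add, Nat.primeCounting_zero] at this
            rw [Nat.card_Icc] at e
            omega
          have := mem_range.mp e1
          exact mem_range.mpr (by omega)
        refine (cluster (J := J) e3 (by omega) ?_ A fun q hq => (mem_filter.mp hq).2.1.1.1).trans ?_
        · exact_mod_cast not_lt.mp fun h => e4 (mem_filter.mpr ⟨e1, h⟩)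
        · exact_mod_cast not_lt.mp fun h => e6.2 (mem_filter.mpr ⟨e7, h⟩)) hN₁
    rw [le_div_iff₀ (by exact_mod_cast hU), mul_comm]
    exact_mod_cast this
  have h4 : ∑ i ∈ range n, (#(C (y * 2 ^ i)) : ℝ) ≤ n * β := by
    refine (sum_le_card_nsmul _ _ β fun i hi => ?_).trans (by rw [card_range, nsmul_eq_mul])
    obtain ⟨e1, e2⟩ := hR i (mem_range.mp hi)
    rcases (C (y * 2 ^ i)).eq_empty_or_nonempty with e0 | ⟨p, hp⟩
    · rw [e0]; simpa using hβ0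
    obtain ⟨l₀, e0, -⟩ := (mem_filter.mp hp).2.2
    obtain ⟨e3, e4⟩ := hβ _ e1 e2 ⟨l₀, mem_filter.mp e0⟩
    exact (good3_le _ (fun l hl => ⟨(hQ l (mem_filter.mp hl).1).1, (mem_filter.mp hl).2⟩)
      (by omega) (by omega) (by omega) hw' hm e3 le_rfl).trans e4
  have hlog : 0 < Real.log w := Real.log_pos (by exact_mod_cast hw)
  have hρ0 := (rho_pos fun l hl => (hQ l hl).1).le
  have hρ1 := hρ0.trans hρ
  have hσ0 : 0 ≤ ∑ l ∈ Q, 1 / (l : ℝ) := sum_nonneg fun _ _ => by positivity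
  have h5 : ∑ g ∈ Icc 2 y, (#(B g) : ℝ) ≤
      8 * (x + 1) / Real.log w ^ 2 * (24 * ρ + y * (y ^ 2 * ρ ^ (a - 1))) +
        y * (2 * ((z : ℝ) ^ K * (w * w)) ^ 4) := by
    calc _ ≤ ∑ g ∈ Icc 2 y, (8 * (x + 1) / Real.log w ^ 2 * ((g : ℝ) ^ 2 * ρ ^ (g - 1) +
            y ^ 2 * ρ ^ (a - 1)) + 2 * ((z : ℝ) ^ K * (w * w)) ^ 4) := by
          refine sum_le_sum fun g hg => ?_
          obtain ⟨g1, g2⟩ := mem_Icc.mp hg
          have := bad2_le Q (g := g) (a := min g a) (K := K)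
            (fun l hl => by have := hQ l hl; exact ⟨this.1, by omega, by omega, this.2.2⟩) hzw
            (by omega) (by omega) (by omega) hw (le_trans (by
              have : ((min g a : ℕ) : ℝ) ≤ a := by exact_mod_cast min_le_right g a
              gcongr) hK) x
          refine this.trans ?_
          have e1 : (g : ℝ) ≤ y := by exact_mod_cast g2
          have e2 : (g : ℝ) ^ 2 * ρ ^ (min g a - 1) ≤ g ^ 2 * ρ ^ (g - 1) + y ^ 2 * ρ ^ (a - 1) := by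
            rcases min_choice g a with h | h <;> rw [h]
            · exact le_add_of_nonneg_right (by positivity)
            · exact le_add_of_nonneg_of_le (by positivity) (by gcongr)
          push_cast
          calc _ ≤ ((x : ℝ) + 1) * (8 * g ^ 2 * ρ ^ (min g a - 1)) / Real.log w ^ 2 +
                2 * ((z : ℝ) ^ K * (w * w)) ^ 4 := by gcongr
            _ = 8 * (x + 1) / Real.log w ^ 2 * (g ^ 2 * ρ ^ (min g a - 1)) +
                2 * ((z : ℝ) ^ K * (w * w)) ^ 4 := by ring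
            _ ≤ _ := by gcongr
      _ ≤ _ := by
          rw [sum_add_distrib, ← mul_sum, sum_add_distrib, sum_const, sum_const, nsmul_eq_mul,
            nsmul_eq_mul, Nat.card_Icc]
          have : ((y + 1 - 2 : ℕ) : ℝ) ≤ y := by exact_mod_cast (by omega : y + 1 - 2 ≤ y)
          gcongr
          exact sum_sq_le hρ1 hρ' y
  have h6 : (#{p ∈ range (x + 1) | p.Prime ∧ (Nat.primeCounting p).Prime} : ℝ) ≤
      w + w' + 1 + z * (z + 1) + #A + #E₁ + (w' + 1 + #E₂) + ∑ g ∈ Icc 2 y, (#(B g) : ℝ) +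
        ∑ i ∈ range n, (#(C (y * 2 ^ i)) : ℝ) := by exact_mod_cast h2
  linarith

end Pool.Agent.MP_100d00_nt
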