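import Pool.Agent.Results.MP_100d00_nt.LogSaving

/-!
A discrete rising sun lemma, and primes in `(2 ^ d, 2 ^ (d + 3)]`.
-/

set_option autoImplicit false

namespace Pool.Agent.MP_100d00_nt.Comb

open Finset Filter Pool.Agent.Results.MP_100d00_nt.LogSaving

lemma sun (P : ℕ → Prop) [DecidablePred P] {M : ℕ} {ε : ℝ} (hε : 0 < ε)
    (h : 2 * ε * M < Nat.count P M) : ∃ τ : ℕ, τ ≤ M ∧ ε * M < M - τ ∧
      ∀ s : ℕ, τ + s ≤ M → ε * s ≤ Nat.count (fun t => P (τ + t)) s := by
  obtain ⟨τ, h1, h2⟩ := exists_min_image (range (M + 1))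
    (fun t => (Nat.count P t : ℝ) - ε * t) ⟨0, by simp⟩
  have h3 : τ ≤ M := Nat.lt_succ_iff.mp (mem_range.mp h1)
  refine ⟨τ, h3, ?_, fun s hs => ?_⟩
  · have e1 := h2 0 (by simp)
    obtain ⟨s, rfl⟩ := Nat.exists_eq_add_of_le h3
    rw [Nat.count_add] at h
    have e2 : (Nat.count (fun t => P (τ + t)) s : ℝ) ≤ s := by exact_mod_cast Nat.count_le _
    have e3 : 0 ≤ ε * s := by positivity
    simp only [Nat.count_zero, Nat.cast_zero, mul_zero, sub_zero] at e1
    push_cast at h ⊢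
    linarith
  · have e1 := h2 (τ + s) (mem_range.mpr (by omega))
    rw [Nat.count_add] at e1
    push_cast at e1
    linarith

lemma scales (P : ℕ → Prop) [DecidablePred P] {w q : ℕ} {ε : ℝ} (hw : 0 < w) (hq : 1 ≤ q)
    (hq' : 2 ≤ ε * q) (K : ℕ) (h : ∀ s ≤ w * q ^ K, ε * s ≤ Nat.count P s) :
    K * ε / 2 ≤ ∑ t ∈ Ico w (w * q ^ K), if P t then 1 / (t : ℝ) else 0 := by
  induction K with
  | zero => simp
  | succ K ih =>
    have e1 : w ≤ w * q ^ K := Nat.le_mul_of_pos_right _ (by positivity)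
    have e2 : w * q ^ K ≤ w * q ^ (K + 1) :=
      Nat.mul_le_mul_left _ (Nat.pow_le_pow_right hq (by omega))
    have e3 := h _ le_rfl
    have e4 := ih fun s hs => h s (hs.trans e2)
    rw [← sum_Ico_consecutive _ e1 e2]
    have e5 : ((w * q ^ (K + 1) : ℕ) : ℝ) = (w * q ^ K : ℕ) * q := by push_cast; ring
    have e0 : 0 < w * q ^ K := by positivity
    generalize w * q ^ (K + 1) = v at *
    generalize w * q ^ K = u at *
    have u0 : (0 : ℝ) < u := by exact_mod_cast e0
    have v0 : (0 : ℝ) < v := by exact_mod_cast e0.trans_le e2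
    have e6 : (Nat.count P v : ℝ) ≤ u + #{t ∈ Ico u v | P t} := by
      rw [Nat.count_eq_card_filter_range]
      have : {t ∈ range v | P t} ⊆ range u ∪ {t ∈ Ico u v | P t} := fun t ht => by
        have := mem_filter.mp ht
        simp only [mem_union, mem_range, mem_filter, mem_Ico] at this ⊢
        by_cases e : t < u
        · exact Or.inl e
        · exact Or.inr ⟨⟨by omega, this.1⟩, this.2⟩
      have := (card_le_card this).trans (card_union_le _ _)
      rw [card_range] at this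
      exact_mod_cast this
    have e7 : (#{t ∈ Ico u v | P t} : ℝ) * (1 / v) ≤
        ∑ t ∈ Ico u v, if P t then 1 / (t : ℝ) else 0 := by
      rw [← sum_filter, ← nsmul_eq_mul]
      refine card_nsmul_le_sum _ _ _ fun t ht => ?_
      obtain ⟨f1, f2⟩ := mem_Ico.mp (mem_filter.mp ht).1
      exact one_div_le_one_div_of_le (u0.trans_le (by exact_mod_cast f1)) (by exact_mod_cast f2.le)
    have e8 : ε / 2 ≤ (#{t ∈ Ico u v | P t} : ℝ) * (1 / v) := by
      rw [mul_one_div, le_div_iff₀ v0]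
      have : 2 * (u : ℝ) ≤ ε * v := by rw [e5]; nlinarith
      linarith
    push_cast
    linarith

lemma primes_block : ∀ᶠ d : ℕ in atTop,
    1 / (16 * (d : ℝ)) ≤ ∑ p ∈ (Ioc (2 ^ d) (2 ^ (d + 3))).filter Nat.Prime, 1 / (p : ℝ) := by
  have h1 : Tendsto (fun d : ℕ => (2 : ℝ) ^ d) atTop atTop :=
    tendsto_pow_atTop_atTop_of_one_lt one_lt_two
  filter_upwards [h1.eventually (Chebyshev.eventually_primeCounting_le (ε := 1 / 10) (by norm_num)),
    eventually_ge_atTop 3] with d e1 e2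
  have e3 := pi_low (n := 2 ^ (d + 3)) (le_trans (by norm_num)
    (Nat.pow_le_pow_right two_pos (by omega : 6 ≤ d + 3)))
  rw [show (2 : ℝ) ^ d = ((2 ^ d : ℕ) : ℝ) by push_cast; rfl, Nat.floor_natCast] at e1
  have l1 := Real.log_two_lt_d9
  have l2 := Real.log_two_gt_d9
  have d3 : (3 : ℝ) ≤ d := by exact_mod_cast e2
  have e4 : Nat.primeCounting (2 ^ (d + 3)) ≤
      Nat.primeCounting (2 ^ d) + #((Ioc (2 ^ d) (2 ^ (d + 3))).filter Nat.Prime) := by
    rw [Nat.primeCounting, Nat.primeCounting, Nat.primeCounting', Nat.count_eq_card_filter_range,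
      Nat.count_eq_card_filter_range]
    refine (card_le_card fun t ht => ?_).trans (card_union_le _ _)
    simp only [mem_union, mem_range, mem_filter, mem_Ioc] at ht ⊢
    by_cases e : t < 2 ^ d + 1
    · exact Or.inl ⟨e, ht.2⟩
    · exact Or.inr ⟨⟨by omega, by omega⟩, ht.2⟩
  have e5 : (Nat.primeCounting (2 ^ (d + 3)) : ℝ) ≤
      Nat.primeCounting (2 ^ d) + #((Ioc (2 ^ d) (2 ^ (d + 3))).filter Nat.Prime) := by
    exact_mod_cast e4
  have e6 : (#((Ioc (2 ^ d) (2 ^ (d + 3))).filter Nat.Prime) : ℝ) * (1 / (8 * 2 ^ d)) ≤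
      ∑ p ∈ (Ioc (2 ^ d) (2 ^ (d + 3))).filter Nat.Prime, 1 / (p : ℝ) := by
    rw [← nsmul_eq_mul]
    refine card_nsmul_le_sum _ _ _ fun t ht => ?_
    obtain ⟨f1, f2⟩ := mem_Ioc.mp (mem_filter.mp ht).1
    refine one_div_le_one_div_of_le (by exact_mod_cast (Nat.zero_le _).trans_lt f1) ?_
    rw [pow_add, mul_comm] at f2
    exact_mod_cast f2
  refine le_trans ?_ e6
  push_cast at e1 e3
  rw [Real.log_pow] at e1 e3
  rw [show (4 : ℝ) = 2 ^ 2 by norm_num, Real.log_pow] at e1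
  push_cast at e1 e3
  generalize (#((Ioc (2 ^ d) (2 ^ (d + 3))).filter Nat.Prime) : ℝ) = c at *
  have R0 : (0 : ℝ) < 2 ^ d := by positivity
  rw [pow_add] at e3
  generalize (2 : ℝ) ^ d = R at *
  have g1 : 2 * R / (d * Real.log 2) ≤ R * 2 ^ 3 / (2 * ((d + 3) * Real.log 2)) := by
    rw [div_le_div_iff₀ (by positivity) (by positivity)]
    have : 0 ≤ R * Real.log 2 * (d - 3) := by have : (0 : ℝ) ≤ d - 3 := by linarith
                                              positivity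
    linarith
  have g2 : (2 * Real.log 2 + 1 / 10) * R / (d * Real.log 2) ≤ 3 / 2 * R / (d * Real.log 2) := by
    gcongr; linarith
  have g3 : R / (2 * d) ≤ 2 * R / (d * Real.log 2) - 3 / 2 * R / (d * Real.log 2) := by
    rw [← sub_div, show 2 * R - 3 / 2 * R = R / 2 by ring, div_div]
    gcongr
    nlinarith
  calc _ = R / (2 * d) * (1 / (8 * R)) := by field_simp; ring
    _ ≤ _ := by gcongr; linarith

end Pool.Agent.MP_100d00_nt.Comb
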