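import Pool.Agent.MP_100d00_nt.Cnt4
import Pool.Agent.Results.MP_100d00_nt.LogSaving

/-!
If the scale `x / (log x) ^ (4 / 5)` and the scales `x / p`, `p ∈ Q`, have few good integers, then
the primes of `Q` have a bounded sum of reciprocals.
-/

set_option autoImplicit false

namespace Pool.Agent.MP_100d00_nt.Core

open Finset Filter Pool.Agent.MP_100d00_nt Pool.Agent.Results.MP_100d00_nt.LogSaving

lemma scale {x c d R : ℕ} (hR : 0 < R) (h1 : 1 ≤ c) (h2 : c ≤ 4 * R) (h3 : d ≤ x)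
    (h4 : (R : ℝ) * R ≤ x) : (x : ℝ) / R ≤ (c + (x + d) / R : ℕ) ∧
      ((c + (x + d) / R : ℕ) : ℝ) ≤ 6 * x / R := by
  have hR' : (0 : ℝ) < R := by exact_mod_cast hR
  constructor
  · rw [div_le_iff₀ hR']
    have e1 := Nat.div_add_mod (x + d) R
    have e2 := Nat.mod_lt (x + d) hR
    have e3 : R ≤ c * R := Nat.le_mul_of_pos_left _ h1
    have : x ≤ (c + (x + d) / R) * R := by rw [add_mul, mul_comm ((x + d) / R)]; omega
    exact_mod_cast this
  · rw [le_div_iff₀ hR']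
    have e1 : (x + d) / R * R ≤ x + d := Nat.div_mul_le_self _ _
    have e2 : c * R ≤ 4 * (R * R) := by rw [← mul_assoc]; exact Nat.mul_le_mul_right _ h2
    have e3 : R * R ≤ x := by exact_mod_cast h4
    have : (c + (x + d) / R) * R ≤ 6 * x := by rw [add_mul]; omega
    exact_mod_cast this

lemma pow_small {L l q : ℝ} {m : ℕ} (hL : L = Real.exp l) (hm : l ≤ m) (h0 : 0 ≤ q)
    (hq : q ≤ 1 / 27) : q ^ m ≤ 1 / L ^ 3 := by
  have e2 : (1 : ℝ) / 27 ≤ Real.exp (-3) := by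
    rw [Real.exp_neg, one_div, show (3 : ℝ) = (3 : ℕ) * 1 by norm_num, Real.exp_nat_mul]
    have := Real.exp_one_lt_d9
    refine inv_anti₀ (by positivity) ?_
    calc _ ≤ (3 : ℝ) ^ 3 := by gcongr; linarith
      _ = _ := by norm_num
  refine (pow_le_pow_left₀ h0 (hq.trans e2) m).trans ?_
  rw [hL, ← Real.exp_nat_mul, ← Real.exp_nat_mul, one_div, ← Real.exp_neg]
  exact Real.exp_le_exp.mpr (by push_cast; linarith)

lemma exc_le {L l x X H T lH lw v F : ℝ} {m : ℕ} (hl : 10 ^ 20 ≤ l) (hL : L = Real.exp l)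
    (hX0 : 0 ≤ X) (hX : X ≤ 2 * x) (hH0 : 0 ≤ H) (hT : 0 < T) (hH : H * l ^ 7 ≤ T * L)
    (hlH0 : 0 ≤ lH) (hlH : lH ≤ l ^ 2) (hlw : L / (128 * l) ≤ lw) (hm : l ≤ m)
    (hm' : (m : ℝ) ≤ 2 * l) (hv : Real.exp (4 * l ^ 2) ≤ v) (hF0 : 0 ≤ F) (hF : F ≤ v ^ 10) :
    (2 * H / T) ^ m * (X * (1 + 2 * (m ^ 2 + 3 * m ^ 2 * lH)) ^ m / lw ^ m + 2 * F) ≤
      2 * x / L ^ 3 + 2 * v ^ 11 := by
  have hl1 : 1 ≤ l := le_trans (by norm_num) hl
  have hL0 : 0 < L := hL ▸ Real.exp_pos l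
  have hlw0 : 0 < lw := lt_of_lt_of_le (by positivity) hlw
  have h1 : 2 * H / T ≤ 2 * L / l ^ 7 := by
    rw [div_le_div_iff₀ hT (by positivity)]; linarith
  have h2 : 1 + 2 * ((m : ℝ) ^ 2 + 3 * m ^ 2 * lH) ≤ 81 * l ^ 4 := by
    have := pow_le_pow_right₀ hl1 (show 2 ≤ 4 by norm_num)
    have := one_le_pow₀ (n := 2) hl1
    calc _ ≤ 1 + 2 * ((2 * l) ^ 2 + 3 * (2 * l) ^ 2 * l ^ 2) := by gcongr
      _ = 1 + 8 * l ^ 2 + 24 * l ^ 4 := by ring
      _ ≤ _ := by linarith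
  set G := 1 + 2 * ((m : ℝ) ^ 2 + 3 * m ^ 2 * lH) with hG
  have hG0 : 0 ≤ G := by positivity
  clear_value G
  have t2 : (2 * H / T) ^ m * (X * G ^ m / lw ^ m) ≤ 2 * x / L ^ 3 := by
    have e1 : 2 * H / T * G / lw ≤ 1 / 27 := by
      have : l ≤ l ^ 2 := le_self_pow₀ hl1 (by norm_num)
      calc _ ≤ 2 * L / l ^ 7 * (81 * l ^ 4) / (L / (128 * l)) := by gcongr
        _ = 20736 / l ^ 2 := by field_simp; ring
        _ ≤ 1 / 27 := by rw [div_le_div_iff₀ (by positivity) (by norm_num)]; linarith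
    calc _ = X * (2 * H / T * G / lw) ^ m := by rw [div_pow _ lw, mul_pow _ G]; ring
      _ ≤ 2 * x * (1 / L ^ 3) := by
          gcongr
          · linarith
          · exact pow_small hL hm (by positivity) e1
      _ = _ := by ring
  have t3 : (2 * H / T) ^ m ≤ v := by
    have e1 : 2 * H / T ≤ Real.exp (2 * l) := by
      have := Real.add_one_le_exp l
      rw [two_mul l, Real.exp_add, ← hL]
      refine h1.trans ((div_le_self (by positivity) (one_le_pow₀ hl1)).trans ?_)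
      gcongr; linarith
    refine (pow_le_pow_left₀ (by positivity) e1 m).trans (le_trans ?_ hv)
    rw [← Real.exp_nat_mul]
    exact Real.exp_le_exp.mpr (by nlinarith)
  have t4 : (2 * H / T) ^ m * (2 * F) ≤ 2 * v ^ 11 := by
    have hv0 : 0 ≤ v := le_trans (by positivity) hv
    calc _ ≤ v * (2 * v ^ 10) := by gcongr
      _ = _ := by ring
  rw [mul_add]
  linarith

lemma range_le {L l r x R a G N c H lw v F : ℝ} {m : ℕ} (hl : 10 ^ 20 ≤ l) (hL : L = Real.exp l)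
    (hr : 1 ≤ r) (hrL : r ^ 4 ≤ L) (hx : 0 ≤ x) (hR : L ^ 2 / 2 ≤ R) (ha0 : 0 ≤ a) (ha : a ≤ 7 * l)
    (hG0 : 0 ≤ G) (hG : G ≤ r ^ 4) (hN0 : 0 ≤ N) (hN : N ≤ 6 * x / R) (hc0 : 0 ≤ c)
    (hc : c ≤ 33554432 * N / (r ^ 4 * l ^ 16)) (hH0 : 0 ≤ H) (hH : H ≤ 300 * l ^ 4)
    (hlw : L / (128 * l) ≤ lw) (hm : l ≤ m) (hv : (2 * (R * (a * G))) ^ m ≤ v) (hav : a ≤ v)
    (hF0 : 0 ≤ F) (hF : F ≤ v ^ 10) :
    a * (R * r ^ 4 * l ^ 12 / L ^ 2 * c + (2 * (R * (a * G))) ^ m /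
      (R * r ^ 4 * l ^ 12 / L ^ 2) ^ (m - 1) * (N * H ^ (m * 2) / lw ^ (m * 2) + 2 * F)) ≤
      x / L ^ 2 * (1409286144 / l ^ 3 + 42 * l ^ 13 / L ^ 2) + 2 * v ^ 12 := by
  have hl0 : 0 < l := lt_of_lt_of_le (by norm_num) hl
  have hL0 : 0 < L := hL ▸ Real.exp_pos l
  have hR0 : 0 < R := lt_of_lt_of_le (by positivity) hR
  have hlw0 : 0 < lw := lt_of_lt_of_le (by positivity) hlw
  set T := R * r ^ 4 * l ^ 12 / L ^ 2 with hT
  have hT0 : 0 < T := by positivity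
  clear_value T
  have hT1 : 1 ≤ T := by
    have h1 : l ≤ l ^ 12 := le_self_pow₀ (by linarith) (by norm_num)
    have h2 : 1 ≤ r ^ 4 := one_le_pow₀ hr
    rw [hT, le_div_iff₀ (by positivity)]
    calc _ = L ^ 2 / 2 * 1 * 2 := by ring
      _ ≤ _ := by gcongr; linarith
  have t1 : a * (T * c) ≤ x / L ^ 2 * (1409286144 / l ^ 3) := by
    calc _ ≤ 7 * l * (T * (33554432 * (6 * x / R) / (r ^ 4 * l ^ 16))) := by
          gcongr
          exact hc.trans (by gcongr)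
      _ = _ := by rw [hT]; field_simp; ring
  obtain ⟨b, rfl⟩ : ∃ b, m = b + 1 := ⟨m - 1, by
    have : (0 : ℝ) < m := by linarith
    have : 0 < m := by exact_mod_cast this
    omega⟩
  rw [Nat.add_sub_cancel]
  have t2 : a * ((2 * (R * (a * G))) ^ (b + 1) / T ^ b *
      (N * H ^ ((b + 1) * 2) / lw ^ ((b + 1) * 2))) ≤ x / L ^ 2 * (42 * l ^ 13 / L ^ 2) := by
    have e1 : 2 * (R * (a * G)) * H ^ 2 / (T * lw ^ 2) ≤ 1 / 27 := by
      calc _ ≤ 2 * (R * (7 * l * r ^ 4)) * (300 * l ^ 4) ^ 2 / (T * (L / (128 * l)) ^ 2) := by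
            gcongr
        _ = 20643840000 / l := by rw [hT]; field_simp; ring
        _ ≤ 1 / 27 := by rw [div_le_div_iff₀ hl0 (by norm_num)]; linarith
    calc _ = a * (T * N * (2 * (R * (a * G)) * H ^ 2 / (T * lw ^ 2)) ^ (b + 1)) := by
          rw [div_pow, mul_pow _ (H ^ 2), mul_pow T, pow_succ T, pow_mul' H, pow_mul' lw]
          field_simp
      _ ≤ 7 * l * (T * (6 * x / R) * (1 / L ^ 3)) := by
          gcongr
          exact pow_small hL hm (by positivity) e1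
      _ = x / L ^ 2 * (42 * l ^ 13 * r ^ 4 / L ^ 3) := by rw [hT]; field_simp; ring
      _ ≤ x / L ^ 2 * (42 * l ^ 13 * L / L ^ 3) := by gcongr
      _ = _ := by field_simp
  have t3 : a * ((2 * (R * (a * G))) ^ (b + 1) / T ^ b * (2 * F)) ≤ 2 * v ^ 12 := by
    have hv0 : 0 ≤ v := ha0.trans hav
    calc _ ≤ v * (v / 1 * (2 * v ^ 10)) := by
          gcongr
          exact one_le_pow₀ hT1
      _ = _ := by ring
  rw [mul_add _ (N * _ / _), mul_add a, mul_add a, mul_add (x / L ^ 2)]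
  linarith

lemma final {L l r x v y n S c W lw ρ' E U k e : ℝ} (hl : 10 ^ 20 ≤ l) (hlL : l ^ 12 ≤ L)
    (hLv : L ≤ v) (hx : v ^ 40 = x) (hr0 : 0 < r) (hr : r ^ 5 = L) (hy0 : 0 ≤ y) (hy' : y ≤ L ^ 2)
    (hn : n ≤ l ^ 2) (hS : x / (4 * L ^ 2) ≤ S) (hU : r ^ 2 / 4 ≤ U) (hk : k ≤ 4 * l ^ 7)
    (hc0 : 0 ≤ c) (hc : c ≤ 33554432 * (6 * x / U ^ 2) / (r ^ 4 * l ^ 16)) (hW : W ≤ 7 * v ^ 2)
    (hlw : L / 80 ≤ lw) (hρ0 : 0 ≤ ρ') (hρ : ρ' ≤ 25 * (1 / 163840000)) (hE0 : 0 ≤ E)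
    (hE : E ≤ v ^ 3) (he : e ≤ 2 * (2 * x / L ^ 3 + 2 * v ^ 11))
    (h : S ≤ W + k * c / U + e + 8 * (x + 1) / lw ^ 2 * ρ' + y * (2 * E ^ 4) +
      n * (x / L ^ 2 * (1409286144 / l ^ 3 + 42 * l ^ 13 / L ^ 2) + 2 * v ^ 12)) : False := by
  have hl1 : 1 ≤ l := le_trans (by norm_num) hl
  have hll : ∀ k, k ≤ 12 → l ^ k ≤ L := fun k hk => (pow_le_pow_right₀ hl1 hk).trans hlL
  have hL5 : 10 ^ 20 ≤ L := hl.trans (by simpa using hll 1 (by norm_num))
  have hL0 : 0 < L := lt_of_lt_of_le (by norm_num) hL5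
  have hv5 : 10 ^ 20 ≤ v := hL5.trans hLv
  have hv1 : 1 ≤ v := le_trans (by norm_num) hv5
  have hvv : ∀ j k, j ≤ k → v ^ j ≤ v ^ k := fun j k h => pow_le_pow_right₀ hv1 h
  have hx1 : 1 ≤ x := hx ▸ one_le_pow₀ hv1
  have hq : 0 < x / L ^ 2 := by positivity
  have t0 : x / (4 * L ^ 2) = x / L ^ 2 / 4 := by field_simp
  have t1 : k * c / U ≤ x / L ^ 2 / 64 := by
    have : l ≤ l ^ 9 := le_self_pow₀ hl1 (by norm_num)
    calc _ ≤ 4 * l ^ 7 * (33554432 * (6 * x / (r ^ 2 / 4) ^ 2) / (r ^ 4 * l ^ 16)) / (r ^ 2 / 4) := by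
          gcongr
          exact hc.trans (by gcongr)
      _ = x / L ^ 2 * (51539607552 / l ^ 9) := by rw [← hr]; field_simp; ring
      _ ≤ x / L ^ 2 * (1 / 64) := by
          refine mul_le_mul_of_nonneg_left ?_ hq.le
          rw [div_le_div_iff₀ (by positivity) (by norm_num)]; linarith
      _ = _ := by ring
  have t2 : 8 * (x + 1) / lw ^ 2 * ρ' ≤ x / L ^ 2 / 64 := by
    calc _ ≤ 8 * (x + x) / (L / 80) ^ 2 * (25 * (1 / 163840000)) := by gcongr
      _ = _ := by field_simp; ring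
  have t3 : y * (2 * E ^ 4) ≤ 2 * v ^ 14 := by
    calc _ ≤ v ^ 2 * (2 * (v ^ 3) ^ 4) := by gcongr; exact hy'.trans (by gcongr)
      _ = _ := by ring
  have t4 : n * (x / L ^ 2 * (1409286144 / l ^ 3 + 42 * l ^ 13 / L ^ 2) + 2 * v ^ 12) ≤
      x / L ^ 2 / 32 + 2 * v ^ 14 := by
    have e1 : 1409286144 / l ≤ 1 / 64 := by
      rw [div_le_div_iff₀ (by linarith) (by norm_num)]; linarith
    have e2 : 42 * l ^ 15 / L ^ 2 ≤ 1 / 64 := by
      have e4 := hll 4 (by norm_num)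
      rw [div_le_div_iff₀ (by positivity) (by norm_num)]
      calc _ = 2688 * l ^ 3 * l ^ 12 := by ring
        _ ≤ l * l ^ 3 * l ^ 12 := by gcongr; linarith
        _ = l ^ 4 * l ^ 12 := by ring
        _ ≤ L * L := by gcongr
        _ = _ := by ring
    have e3 : l ^ 2 * v ^ 12 ≤ v ^ 14 := by
      calc _ ≤ v * v ^ 12 := by gcongr; exact (hll 2 (by norm_num)).trans hLv
        _ = v ^ 13 := by ring
        _ ≤ _ := hvv 13 14 (by norm_num)
    calc _ ≤ l ^ 2 * (x / L ^ 2 * (1409286144 / l ^ 3 + 42 * l ^ 13 / L ^ 2) + 2 * v ^ 12) := by gcongr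
      _ = x / L ^ 2 * (1409286144 / l + 42 * l ^ 15 / L ^ 2) + 2 * (l ^ 2 * v ^ 12) := by field_simp
      _ ≤ x / L ^ 2 * (1 / 64 + 1 / 64) + 2 * v ^ 14 := by gcongr
      _ = _ := by ring
  have t5 : 15 * v ^ 14 ≤ x / L ^ 2 / 64 := by
    rw [le_div_iff₀ (by norm_num), le_div_iff₀ (by positivity)]
    calc _ ≤ 15 * v ^ 14 * 64 * v ^ 2 := by gcongr
      _ = 960 * v ^ 16 := by ring
      _ ≤ v * v ^ 16 := by gcongr; linarith
      _ = v ^ 17 := by ring
      _ ≤ _ := hx ▸ hvv 17 40 (by norm_num)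
  have t6 : 2 * x / L ^ 3 ≤ x / L ^ 2 / 128 := by
    calc _ = x / L ^ 2 * (2 / L) := by field_simp
      _ ≤ x / L ^ 2 * (1 / 128) := by
          refine mul_le_mul_of_nonneg_left ?_ hq.le
          rw [div_le_div_iff₀ hL0 (by norm_num)]; linarith
      _ = _ := by ring
  have := hvv 2 14 (by norm_num)
  have := hvv 11 14 (by norm_num)
  linarith

/-- few good integers up to `N` -/
def Bad (N : ℕ) : Prop :=
  (cnt N : ℝ) < N / (Real.log N ^ (4 / 5 : ℝ) * Real.log (Real.log N) ^ 16)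

lemma cnt_mono {N N' : ℕ} (h : N ≤ N') : cnt N ≤ cnt N' := by
  classical
  exact card_le_card (filter_subset_filter _ (range_mono (by omega)))

theorem core {B : ℕ} (hB : 1 ≤ B) : ∀ᶠ x : ℕ in atTop, ∀ Q : Finset ℕ,
    (∀ p ∈ Q, p.Prime ∧ Real.log x ^ 2 < p ∧ p ≤ Real.log x ^ B ∧
      ∃ N : ℕ, 12 * x ≤ N * p ∧ N * p ≤ 256 * x ∧ Bad N) →
    (∃ N : ℕ, 96 * (x : ℝ) ≤ N * Real.log x ^ (4 / 5 : ℝ) ∧
      N * Real.log x ^ (4 / 5 : ℝ) ≤ 768 * x ∧ Bad N) →
    1 / 163840000 < ∏ p ∈ Q, (1 - 1 / (p : ℝ)) := by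
  classical
  have hB' : (1 : ℝ) ≤ B := by exact_mod_cast hB
  have hlog : Tendsto (fun N : ℕ => Real.log N) atTop atTop :=
    Real.tendsto_log_atTop.comp tendsto_natCast_atTop_atTop
  filter_upwards [(Real.tendsto_log_atTop.comp hlog).eventually_ge_atTop (10 ^ 20 * B),
    hlog.eventually_ge_atTop 3200, Nat.tendsto_primeCounting.eventually_ge_atTop 30,
    eventually_ge_atTop 1] with x e1 e3 e4 e5
  simp only [Function.comp] at e1
  rintro Q hQ ⟨N₀, hN1, hN2, hN3⟩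
  by_contra hρ
  push Not at hρ
  set L := Real.log x with hL
  set l := Real.log L with hl
  have hL0 : 0 < L := by linarith
  have hx0 : (0 : ℝ) < x := by exact_mod_cast e5
  have hLl : L = Real.exp l := (Real.exp_log hL0).symm
  have hl10 : 10 ^ 20 ≤ l := by nlinarith only [e1, hB']
  have hl1 : 1 ≤ l := by linarith
  set r := Real.exp (l / 5) with hr
  have r5 : r ^ 5 = L := by
    rw [hr, ← Real.exp_nat_mul, hLl]; congr 1; push_cast; ring
  have r4 : L ^ (4 / 5 : ℝ) = r ^ 4 := by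
    rw [Real.rpow_def_of_pos hL0, hr, ← Real.exp_nat_mul, ← hl]; congr 1; push_cast; ring
  rw [r4] at hN1 hN2
  have r12 : l ^ 12 ≤ r := by
    have h1 := Real.pow_div_factorial_le_exp (l / 5) (by linarith) 13
    rw [← hr, div_le_iff₀ (by positivity), div_pow, div_le_iff₀ (by positivity)] at h1
    norm_num [Nat.factorial] at h1
    have h2 : l ^ 12 * 10 ^ 20 ≤ l ^ 12 * l := by gcongr
    have h3 : l ^ 13 = l ^ 12 * l := by ring
    have h4 : 0 ≤ l ^ 12 := by positivity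
    linarith only [h1, h2, h3, h4]
  have r1 : 1 ≤ r := (one_le_pow₀ hl1).trans r12
  have hrr : ∀ j, j ≤ 5 → r ^ j ≤ L := fun j h => r5 ▸ pow_le_pow_right₀ r1 h
  have hl12 : l ^ 12 ≤ L := r12.trans (by simpa using hrr 1 (by norm_num))
  clear_value r
  have hll : ∀ j k, j ≤ k → l ^ j ≤ l ^ k := fun j k h => pow_le_pow_right₀ hl1 h
  have hup : ∀ j : ℕ, 10 ^ 20 * l ^ j ≤ l ^ (j + 1) := fun j => by
    rw [pow_succ l, mul_comm]; gcongr
  have u1 := hup 1
  have u2 := hup 2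
  have u3 := hup 3
  have u6 := hup 6
  have u7 := hll 7 12 (by norm_num)
  have u8 := hll 3 6 (by norm_num)
  have u9 := hll 2 3 (by norm_num)
  have u10 := hll 2 4 (by norm_num)
  norm_num at u1 u2 u3 u6
  set v := Real.exp (L / 40) with hv
  have hv40 : v ^ 40 = x := by
    rw [hv, ← Real.exp_nat_mul, show ((40 : ℕ) : ℝ) * (L / 40) = L by push_cast; ring, hL,
      Real.exp_log hx0]
  have hLv : L ≤ v := by
    have := Real.quadratic_le_exp_of_nonneg (x := L / 40) (by positivity)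
    nlinarith
  have hv1 : 1 ≤ v := by linarith
  have hv2 : v * v ≤ x := by rw [← sq, ← hv40]; exact pow_le_pow_right₀ hv1 (by norm_num)
  have hlog2 := Real.log_two_lt_d9
  have hlog2' := Real.log_two_gt_d9
  have hL2 : 3200 * L ≤ L ^ 2 := by nlinarith only [e3]
  set y := ⌊L ^ 2⌋₊ with hy
  have y1 : (y : ℝ) ≤ L ^ 2 := Nat.floor_le (by positivity)
  have y2 : L ^ 2 / 2 ≤ y := by have := Nat.lt_floor_add_one (L ^ 2); linarith
  have y3 : 6 ≤ y := by
    have : (6 : ℝ) ≤ y := by linarith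
    exact_mod_cast this
  set n := B * (Nat.log 2 y + 1) with hn
  have n1 : (n : ℝ) ≤ l ^ 2 := by
    have h1 : (2 : ℝ) ^ Nat.log 2 y ≤ y := by exact_mod_cast Nat.pow_log_le_self 2 (by omega : y ≠ 0)
    have h2 := Real.log_le_log (by positivity) (h1.trans y1)
    rw [Real.log_pow, Real.log_pow] at h2
    push_cast at h2
    have h3 : (0 : ℝ) ≤ Nat.log 2 y := by positivity
    have h4 : (Nat.log 2 y : ℝ) + 1 ≤ 4 * l := by nlinarith only [h2, h3, hl1, hlog2', hl]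
    rw [hn]; push_cast; nlinarith only [h3, h4, e1, hB', hl1]
  set z := y * 2 ^ n with hz
  have z0 : y ^ B ≤ z := by
    rw [hz, hn, mul_comm B, pow_mul]
    exact (Nat.pow_le_pow_left (Nat.lt_pow_succ_log_self one_lt_two y).le B).trans
      (Nat.le_mul_of_pos_left _ (by omega))
  have z1 : (z : ℝ) ≤ L ^ (4 * B + 2) := by
    have h1 : 2 ^ (Nat.log 2 y + 1) ≤ y ^ 2 := by
      rw [pow_succ, sq]
      exact Nat.mul_le_mul (Nat.pow_log_le_self 2 (by omega)) (by omega)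
    have h2 : z ≤ y ^ (2 * B + 1) := by
      rw [hz, hn, mul_comm B, pow_mul, pow_succ' y (2 * B), pow_mul]
      exact Nat.mul_le_mul_left _ (Nat.pow_le_pow_left h1 B)
    calc (z : ℝ) ≤ (y : ℝ) ^ (2 * B + 1) := by exact_mod_cast h2
      _ ≤ (L ^ 2) ^ (2 * B + 1) := by gcongr
      _ = _ := by ring
  have z2 : (z : ℝ) ≤ Real.exp (l ^ 2) := by
    refine z1.trans ?_
    rw [hLl, ← Real.exp_nat_mul]
    exact Real.exp_le_exp.mpr (by push_cast; nlinarith only [e1, hB', hl1])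
  have z3 : y ≤ z := Nat.le_mul_of_pos_right _ (by positivity)
  have z4 : (0 : ℝ) < z := by exact_mod_cast (by omega : 0 < z)
  have z5 : Real.log z ≤ l ^ 2 := (Real.log_le_iff_le_exp z4).mpr z2
  have z6 : (z : ℝ) ≤ v := z2.trans (Real.exp_le_exp.mpr (by linarith))
  have hwin : ∀ R c d N' : ℕ, 6 ≤ R → R ≤ z → 1 ≤ c → c ≤ 4 * R → d ≤ x →
      6 * (x : ℝ) ≤ N' * R → (N' : ℝ) * R ≤ 256 * x → Bad N' →
      ((c + (x + d) / R : ℕ) : ℝ) ≤ 6 * x / R ∧
      (cnt (c + (x + d) / R) : ℝ) ≤ 33554432 * (c + (x + d) / R : ℕ) / (r ^ 4 * l ^ 16) := by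
    intro R c d N' r1' r2 c1 c2 d1 f1 f2 f3
    have r3 : (R : ℝ) ≤ z := by exact_mod_cast r2
    have r4 : (6 : ℝ) ≤ R := by exact_mod_cast r1'
    have r0 : (0 : ℝ) < R := by linarith only [r4]
    obtain ⟨s1, s2⟩ := scale (x := x) (R := R) (by omega) c1 c2 d1
      (le_trans (by gcongr <;> linarith) hv2)
    set N := c + (x + d) / R
    have s0 : (N : ℝ) ≤ N' := s2.trans (by rwa [div_le_iff₀ r0])
    have s3 : (x : ℝ) / z ≤ N' := le_trans (by gcongr) (s1.trans s0)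
    have s4 : (N' : ℝ) ≤ 256 * N := by
      rw [div_le_iff₀ r0] at s1
      exact le_of_mul_le_mul_right (by linarith only [s1, f2]) r0
    have s5 : L / 2 ≤ Real.log N' := by
      have := Real.log_le_log (by positivity) s3
      rw [Real.log_div hx0.ne' z4.ne'] at this
      linarith
    have s6 : l / 2 ≤ Real.log (Real.log N') := by
      have := Real.log_le_log (by positivity) s5
      rw [Real.log_div hL0.ne' two_ne_zero] at this
      linarith
    have s7 : r ^ 4 / 2 ≤ Real.log N' ^ (4 / 5 : ℝ) := by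
      have s8 : 0 ≤ Real.log N' := by linarith only [s5, hL0]
      refine le_of_pow_le_pow_left₀ (n := 5) (by norm_num) (by positivity) ?_
      rw [← Real.rpow_natCast (_ ^ (4 / 5 : ℝ)), ← Real.rpow_mul s8,
        show (4 / 5 : ℝ) * (5 : ℕ) = (4 : ℕ) by norm_num, Real.rpow_natCast]
      calc _ = (r ^ 5) ^ 4 / 32 := by ring
        _ ≤ (r ^ 5) ^ 4 / 16 := by gcongr; norm_num
        _ = (L / 2) ^ 4 := by rw [r5]; ring
        _ ≤ _ := by gcongr
    have s9 : (cnt N : ℝ) ≤ cnt N' := by exact_mod_cast cnt_mono (by exact_mod_cast s0)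
    refine ⟨s2, s9.trans (f3.le.trans ?_)⟩
    calc _ ≤ 256 * (N : ℝ) / (r ^ 4 / 2 * (l / 2) ^ 16) := by gcongr
      _ = _ := by field_simp; ring
  set a := ⌈6 * l⌉₊ + 2 with ha
  have a1 : (a : ℝ) ≤ 7 * l := by
    have := Nat.ceil_lt_add_one (a := 6 * l) (by linarith)
    rw [ha]; push_cast; linarith
  have a2 : 2 * a + 2 ≤ y := by
    have : ((2 * a + 2 : ℕ) : ℝ) ≤ y := by push_cast; linarith
    exact_mod_cast this
  have rr2 : r ≤ r ^ 2 := le_self_pow₀ r1 (by norm_num)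
  set U := ⌊r ^ 2 / 2⌋₊ with hU
  have U1 : (U : ℝ) ≤ r ^ 2 / 2 := Nat.floor_le (by positivity)
  have U2 : r ^ 2 / 4 ≤ U := by have := Nat.lt_floor_add_one (r ^ 2 / 2); linarith
  have U3 : 3 ≤ U := by
    have : (3 : ℝ) ≤ U := by linarith
    exact_mod_cast this
  have U4 : ((4 * U ^ 2 : ℕ) : ℝ) ≤ r ^ 4 := by
    push_cast
    calc _ ≤ 4 * (r ^ 2 / 2) ^ 2 := by gcongr
      _ = _ := by ring
  have U5 : 4 * U ^ 2 ≤ y := by
    have := hrr 4 (by norm_num)
    have : ((4 * U ^ 2 : ℕ) : ℝ) ≤ y := by linarith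
    exact_mod_cast this
  have U6 : ((16 * U ^ 4 : ℕ) : ℝ) ≤ r ^ 8 := by
    push_cast
    calc _ ≤ 16 * (r ^ 2 / 2) ^ 4 := by gcongr
      _ = _ := by ring
  have U7 : 6 ≤ U ^ 2 := le_trans (by norm_num) (Nat.pow_le_pow_left U3 2)
  have yx : z ≤ x := by
    have : (z : ℝ) ≤ x := by nlinarith only [z6, hv1, hv2]
    exact_mod_cast this
  set w := ⌊v⌋₊ with hw
  have w1 : (w : ℝ) ≤ v := Nat.floor_le (by positivity)
  have w3 : z ≤ w := Nat.le_floor z6
  have w4 : L / 80 ≤ Real.log w := by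
    have h1 : Real.log (v / 2) ≤ Real.log w := Real.log_le_log (by positivity)
      (by have := Nat.lt_floor_add_one v; linarith)
    rw [Real.log_div (by positivity) two_ne_zero, hv, Real.log_exp] at h1
    linarith
  set m := ⌈l⌉₊ with hm
  have m1 : l ≤ m := Nat.le_ceil l
  have m2 : (m : ℝ) ≤ 2 * l := by have := Nat.ceil_lt_add_one (a := l) (by linarith); linarith
  have m3 : (0 : ℝ) < m := by linarith
  have m4 : L / (64 * l) ≤ L / (32 * m) :=
    div_le_div_of_nonneg_left hL0.le (by positivity) (by linarith only [m2])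
  have m5 : 4 ≤ L / (128 * l) := by rw [le_div_iff₀ (by positivity)]; linarith
  have m6 : L / (64 * l) = 2 * (L / (128 * l)) := by field_simp; ring
  set v' := Real.exp (L / (32 * m)) with hv'
  have v1 : 2 ≤ v' := by have := Real.add_one_le_exp (L / (32 * m)); linarith
  set w' := ⌊v'⌋₊ with hw'
  have q1 : (w' : ℝ) ≤ v' := Nat.floor_le (by positivity)
  have q2 : 2 ≤ w' := Nat.le_floor (by exact_mod_cast v1)
  have q3 : L / (128 * l) ≤ Real.log w' := by
    have h1 : Real.log (v' / 2) ≤ Real.log w' := Real.log_le_log (by positivity)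
      (by have := Nat.lt_floor_add_one v'; linarith)
    rw [Real.log_div (by positivity) two_ne_zero, hv', Real.log_exp] at h1
    linarith
  have q4 : (w' : ℝ) ≤ v := q1.trans (Real.exp_le_exp.mpr (by gcongr; linarith))
  have q5 : (w' : ℝ) ^ (4 * (m * 2)) ≤ v ^ 10 := by
    refine (pow_le_pow_left₀ (by positivity) q1 _).trans (le_of_eq ?_)
    rw [hv, hv', ← Real.exp_nat_mul, ← Real.exp_nat_mul]
    congr 1
    push_cast; field_simp; ring
  have q6 : (w' : ℝ) ^ (4 * m) ≤ v ^ 10 :=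
    (pow_le_pow_right₀ (by exact_mod_cast (by omega : 1 ≤ w')) (by omega)).trans q5
  have l7 : l ^ 2 ≤ l ^ 7 := hll 2 7 (by norm_num)
  set K₂ := ⌈l ^ 7⌉₊ with hK₂
  have j1 : l ^ 7 ≤ K₂ := Nat.le_ceil _
  have j2 : (K₂ : ℝ) + 2 ≤ 4 * l ^ 7 := by
    have := Nat.ceil_lt_add_one (a := l ^ 7) (by positivity)
    linarith
  set J := ⌈r ^ 3 * l ^ 7⌉₊ with hJ
  have j3 : r ^ 3 * l ^ 7 ≤ J := Nat.le_ceil _
  have j4 : l ^ 7 ≤ r ^ 3 * l ^ 7 := le_mul_of_one_le_left (by positivity) (one_le_pow₀ r1)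
  have j5 : (J : ℝ) ≤ L := by
    have h1 := Nat.ceil_lt_add_one (a := r ^ 3 * l ^ 7) (by positivity)
    have h2 : r ^ 3 * l ^ 7 ≤ r ^ 3 * r := by gcongr; linarith
    have h3 : 2 * r ^ 4 ≤ r * r ^ 4 := by gcongr; linarith
    have h4 : r ^ 3 * r = r ^ 4 := by ring
    have h5 : r * r ^ 4 = r ^ 5 := by ring
    have h6 : 1 ≤ r ^ 4 := one_le_pow₀ r1
    linarith only [h1, h2, h3, h4, h5, h6, r5]
  have hx1 : ((x + 1 : ℕ) : ℝ) ≤ 2 * x := by exact_mod_cast (by omega : x + 1 ≤ 2 * x)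
  have hve : Real.exp (4 * l ^ 2) ≤ v := Real.exp_le_exp.mpr (by linarith)
  have hlg : ∀ H : ℕ, (H : ℝ) ≤ L ^ 2 → Real.log H ≤ l ^ 2 := fun H h => by
    rcases Nat.eq_zero_or_pos H with rfl | h0
    · simp; positivity
    have := Real.log_le_log (by exact_mod_cast h0) h
    rw [Real.log_pow] at this
    push_cast at this
    linarith
  have E1 := (many_le (X := x + 1) (H := 16 * U ^ 4) (m := m) (T := J) q2 (by exact_mod_cast m3)
    (by linarith)).trans (exc_le hl10 hLl (by positivity) hx1 (by positivity) (by linarith)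
      (by calc _ ≤ r ^ 8 * l ^ 7 := by gcongr
            _ = r ^ 3 * l ^ 7 * r ^ 5 := by ring
            _ ≤ _ := by rw [r5]; gcongr)
      (Real.log_natCast_nonneg _) (hlg _ (U6.trans (by
        rw [← r5, ← pow_mul]; exact pow_le_pow_right₀ r1 (by norm_num)))) q3 m1 m2 hve
      (by positivity) q6)
  have E2 := (many_le (X := x + 1) (H := J) (m := m) (T := K₂) q2 (by exact_mod_cast m3)
    (by linarith)).trans (exc_le hl10 hLl (by positivity) hx1 (by positivity) (by linarith)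
      (by rw [mul_comm]; gcongr) (Real.log_natCast_nonneg _) (hlg _ (by linarith)) q3 m1 m2 hve
      (by positivity) q6)
  set K := ⌈l ^ 4⌉₊ with hK
  have k1 : l ^ 4 ≤ K := Nat.le_ceil _
  have k2 : (K : ℝ) ≤ 2 * l ^ 4 := by
    have := Nat.ceil_lt_add_one (a := l ^ 4) (by positivity)
    have := one_le_pow₀ (n := 4) hl1
    linarith
  have k3 : (z : ℝ) ^ K ≤ v := by
    refine (pow_le_pow_left₀ z4.le z2 K).trans ?_
    rw [← Real.exp_nat_mul]
    refine Real.exp_le_exp.mpr ?_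
    have : (K : ℝ) * l ^ 2 ≤ 2 * l ^ 4 * l ^ 2 := by gcongr
    have : 2 * l ^ 4 * l ^ 2 = 2 * l ^ 6 := by ring
    linarith
  have hQ' : ∀ p ∈ Q, p.Prime ∧ y < p ∧ p ≤ z := fun p hp => by
    obtain ⟨f1, f2, f3, -⟩ := hQ p hp
    have f4 : (p : ℝ) ≤ (y : ℝ) ^ B := f3.trans (by gcongr; linarith)
    exact ⟨f1, by exact_mod_cast y1.trans_lt f2, le_trans (by exact_mod_cast f4) z0⟩
  have key := finite_ineq4 Q (x := x) (y := y) (n := n) (z := z) (a := a) (w := w) (w' := w') (K := K)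
    (m := m) (U := U) (J := J) (K₂ := K₂) (T := fun R => R * r ^ 4 * l ^ 12 / L ^ 2)
    (ρ := 1 / 163840000) (σ := 2 * l ^ 2)
    (β := x / L ^ 2 * (1409286144 / l ^ 3 + 42 * l ^ 13 / L ^ 2) + 2 * v ^ 12) hz (by omega) a2 w3
    (by omega) q2 (by exact_mod_cast m3) (by omega) U5 le_rfl
    hQ' hρ (by norm_num)
    (by
      have h1 := harmonic_le_one_add_log z
      rw [harmonic_eq_sum_Icc] at h1
      push_cast at h1
      have h2 : ∑ p ∈ Q, 1 / (p : ℝ) ≤ ∑ p ∈ Icc 1 z, (p : ℝ)⁻¹ := by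
        simp only [one_div]
        refine sum_le_sum_of_subset_of_nonneg (fun p hp => ?_) fun _ _ _ => by positivity
        have := (hQ' p hp).2
        exact mem_Icc.mpr ⟨by omega, this.2⟩
      linarith) (by positivity)
    (by
      rw [← Real.exp_log two_pos, ← Real.exp_nat_mul, Real.exp_log two_pos]
      nth_rewrite 1 [← Real.exp_log two_pos]
      rw [← Real.exp_add]
      refine Real.exp_le_exp.mpr ?_
      have h1 : 2 * ((a : ℝ) + 1) * (2 * l ^ 2) ≤ 2 * (8 * l) * (2 * l ^ 2) := by gcongr; linarith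
      have h2 : 2 * (8 * l) * (2 * l ^ 2) = 32 * l ^ 3 := by ring
      have h3 : l ^ 4 * (1 / 2) ≤ K * Real.log 2 := by gcongr; linarith
      linarith)
    (fun R r1' r2 ⟨p, hp, p1, p2⟩ => by
      obtain ⟨-, -, -, N', f1, f2, f3⟩ := hQ p hp
      have f4 : 6 * x ≤ N' * R := by
        have := Nat.mul_le_mul_left N' p2
        have : N' * (2 * R) = 2 * (N' * R) := by ring
        omega
      have f5 : N' * R ≤ 256 * x := (Nat.mul_le_mul_left N' p1.le).trans f2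
      have r3 : L ^ 2 / 2 ≤ R := y2.trans (by exact_mod_cast r1')
      have r4 : 2 * (R : ℝ) ≤ z := by exact_mod_cast r2
      have r6 : 0 < R := by omega
      obtain ⟨s1, s2⟩ := hwin R (2 * R) a N' (by omega) (by omega) (by omega) (by omega) (by omega)
        (by exact_mod_cast f4) (by exact_mod_cast f5) f3
      refine ⟨?_, range_le hl10 hLl r1 (hrr 4 (by norm_num)) hx0.le r3 (by positivity) a1
        (by positivity) U4 (by positivity) s1 (by positivity) s2 ?_ ?_ q3 m1 ?_ (by linarith)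
        (by positivity) q5⟩
      · rw [le_div_iff₀ (by positivity)]
        have h1 : 1 ≤ r ^ 4 := one_le_pow₀ r1
        calc _ ≤ l ^ 12 / 2 * L ^ 2 := by gcongr; linarith
          _ = L ^ 2 / 2 * 1 * l ^ 12 := by ring
          _ ≤ _ := by gcongr
      · have := Real.log_natCast_nonneg (2 * R * (2 * R + 1) + R)
        positivity
      · have h1 : Real.log (2 * R * (2 * R + 1) + R : ℕ) ≤ 3 * l ^ 2 := by
          have h2 : ((2 * R * (2 * R + 1) + R : ℕ) : ℝ) ≤ z ^ 3 := by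
            have h3 : 2 * R * (2 * R + 2) ≤ z * (z * z) :=
              Nat.mul_le_mul r2 (le_trans (by omega) (Nat.mul_le_mul_right z (by omega : 2 ≤ z)))
            have h4 : 2 * R * (2 * R + 1) + R ≤ z * (z * z) :=
              le_trans (by rw [mul_add, mul_add]; omega) h3
            calc _ ≤ ((z * (z * z) : ℕ) : ℝ) := by exact_mod_cast h4
              _ = _ := by push_cast; ring
          have h4 := Real.log_le_log
            (by exact_mod_cast (by positivity : 0 < 2 * R * (2 * R + 1) + R)) h2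
          rw [Real.log_pow] at h4
          push_cast at h4 ⊢
          linarith only [h4, z5]
        have h5 := Real.log_natCast_nonneg (2 * R * (2 * R + 1) + R)
        have h6 : ((m * 2 : ℕ) : ℝ) ≤ 4 * l := by push_cast; linarith only [m2]
        calc _ ≤ 1 + 2 * ((4 * l) ^ 2 + 3 * (4 * l) ^ 2 * (3 * l ^ 2)) := by gcongr
          _ = 1 + 32 * l ^ 2 + 288 * l ^ 4 := by ring
          _ ≤ _ := by linarith
      · have h1 : 2 * ((R : ℝ) * (a * (4 * U ^ 2 : ℕ))) ≤ Real.exp (3 * l ^ 2) := by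
          have h2 := Real.add_one_le_exp (l ^ 2)
          have h3 : ((4 * U ^ 2 : ℕ) : ℝ) ≤ z := by exact_mod_cast U5.trans z3
          rw [show 3 * l ^ 2 = l ^ 2 + (l ^ 2 + l ^ 2) by ring, Real.exp_add, Real.exp_add,
            ← mul_assoc]
          gcongr <;> linarith
        refine (pow_le_pow_left₀ (by positivity) h1 m).trans ?_
        rw [← Real.exp_nat_mul]
        refine Real.exp_le_exp.mpr ?_
        have : (m : ℝ) * (3 * l ^ 2) ≤ 2 * l * (3 * l ^ 2) := by gcongr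
        have : 2 * l * (3 * l ^ 2) = 6 * l ^ 3 := by ring
        linarith)
  have U8 : r ^ 4 ≤ 16 * (U : ℝ) ^ 2 := by
    calc _ = 16 * (r ^ 2 / 4) ^ 2 := by ring
      _ ≤ _ := by gcongr
  have U9 : (N₀ : ℝ) * r ^ 4 ≤ N₀ * (16 * (U : ℝ) ^ 2) := by gcongr
  have U10 : (N₀ : ℝ) * (4 * U ^ 2 : ℕ) ≤ N₀ * r ^ 4 := by gcongr
  obtain ⟨s1, s2⟩ := hwin (U ^ 2) (4 * U ^ 2) (4 * U ^ 2) N₀ U7 (by omega) (by omega) le_rfl
    (by omega) (by push_cast; linarith only [U9, hN1])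
    (by push_cast at U10 ⊢; linarith only [U10, hN2, hx0]) hN3
  rw [Nat.cast_pow] at s1
  refine final hl10 hl12 hLv hv40 (by linarith) r5 (by positivity) y1 n1 (super_low e4) U2 j2
    (by positivity) (s2.trans (by gcongr)) ?_ w4 (by positivity) ?_ (by positivity) ?_
    ((add_le_add E1 E2).trans (two_mul _).ge) ((le_of_eq (by congr!)).trans key)
  · nlinarith only [w1, q4, z6, hv1, z4]
  · have h1 : (y : ℝ) ^ 3 * (1 / 163840000) ^ ⌈6 * l⌉₊ ≤ 1 := by
      have h2 : (1 : ℝ) / 163840000 ≤ Real.exp (-1) := by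
        rw [Real.exp_neg, one_div]
        exact inv_anti₀ (by positivity) (by have := Real.exp_one_lt_d9; linarith only [this])
      calc _ ≤ (Real.exp l ^ 2) ^ 3 * Real.exp (-1) ^ ⌈6 * l⌉₊ := by
            gcongr; rwa [← hLl]
        _ ≤ _ := by
            rw [← pow_mul, ← Real.exp_nat_mul, ← Real.exp_nat_mul, ← Real.exp_add,
              Real.exp_le_one_iff]
            have := Nat.le_ceil (6 * l)
            push_cast; linarith only [this]
    rw [ha, show ⌈6 * l⌉₊ + 2 - 1 = ⌈6 * l⌉₊ + 1 by omega, pow_succ (1 / 163840000 : ℝ)]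
    linarith only [h1]
  · calc _ ≤ v * (v * v) := by gcongr
      _ = _ := by ring

end Pool.Agent.MP_100d00_nt.Core
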