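import Pool.Agent.MP_100d00_nt.Cnt

/-!
Selberg's sieve with a varying number of classes; many linear forms.
-/

set_option autoImplicit false

namespace Pool.Agent.MP_100d00_nt

open Finset Pool.Agent.MP_a96b63_al

theorem selberg2 (P : Finset ℕ) (hP : ∀ q ∈ P, q.Prime) (bad : ℕ → ℕ → Prop)
    [∀ q t, Decidable (bad q t)] (hper : ∀ q ∈ P, ∀ t, bad q (t % q) ↔ bad q t) (k : ℕ → ℕ)
    (hk0 : ∀ q ∈ P, 0 < k q) (hk : ∀ q ∈ P, #{t ∈ range q | bad q t} = k q)
    (hkq : ∀ q ∈ P, k q < q)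
    {z : ℕ} (hz : 1 ≤ z) (M : ℕ) :
    (#{t ∈ range M | ∀ q ∈ P, ¬ bad q t} : ℝ) ≤
      M / (∑ S ∈ P.powerset with ∏ q ∈ S, q ≤ z, ∏ q ∈ S, (k q : ℝ) / (q - k q)) + 2 * (z : ℝ) ^ 4 := by
  set 𝒟 := P.powerset.filter fun S => ∏ q ∈ S, q ≤ z with h𝒟
  have hk' : ∀ q ∈ P, (0 : ℝ) < k q := fun q hq => by exact_mod_cast hk0 q hq
  have hk1 : ∀ q ∈ P, (1 : ℝ) ≤ k q := fun q hq => by exact_mod_cast hk0 q hq
  have hkq' : ∀ q ∈ P, (0 : ℝ) < q - k q := fun q hq => by
    have : (k q : ℝ) < q := by exact_mod_cast hkq q hq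
    linarith
  have hsub : ∀ S ∈ 𝒟, S ⊆ P := fun S hS => mem_powerset.mp (mem_filter.mp hS).1
  set h : Finset ℕ → ℝ := fun S => ∏ q ∈ S, (k q : ℝ) / (q - k q) with hh
  have hpos : ∀ S ∈ 𝒟, 0 < h S := fun S hS =>
    prod_pos fun q hq => div_pos (hk' q (hsub S hS hq)) (hkq' q (hsub S hS hq))
  set G := ∑ S ∈ 𝒟, h S with hG
  have hG0 : 0 < G := sum_pos hpos ⟨∅, mem_filter.mpr ⟨empty_mem_powerset _, by simpa using hz⟩⟩
  set g : ℕ → ℕ → ℝ := fun q t => if bad q t then 1 - q / k q else 1 with hg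
  have g0 : ∀ q ∈ P, (#{t ∈ range q | ¬ bad q t} : ℝ) = q - k q := by
    intro q hq
    have := card_filter_add_card_filter_not (s := range q) (bad q)
    rw [hk q hq, card_range] at this
    have h2 : (k q : ℝ) + #{t ∈ range q | ¬ bad q t} = q := by exact_mod_cast this
    linarith
  have g1 : ∀ q ∈ P, ∑ t ∈ range q, g q t = 0 := by
    intro q hq
    have h5 := (hk' q hq).ne'
    simp only [hg, sum_ite, sum_const, nsmul_eq_mul, hk q hq, g0 q hq]
    field_simp; ring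
  have g2 : ∀ q ∈ P, ∑ t ∈ range q, g q t * g q t = q * ((k q : ℝ) / (q - k q))⁻¹ := by
    intro q hq
    have h3 := (hkq' q hq).ne'
    have h5 := (hk' q hq).ne'
    have h4 : ∀ t, g q t * g q t = if bad q t then (1 - (q : ℝ) / k q) ^ 2 else 1 := by
      intro t; simp only [hg]; split_ifs <;> ring
    simp only [h4, sum_ite, sum_const, nsmul_eq_mul, hk q hq, g0 q hq]
    field_simp; ring
  have g3 : ∀ S ∈ 𝒟, ∀ t, |∏ q ∈ S, g q t| ≤ z := by
    intro S hS t
    rw [abs_prod]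
    refine le_trans (prod_le_prod (fun q _ => abs_nonneg _) fun q hq => ?_)
      (by rw [← Nat.cast_prod]; exact_mod_cast (mem_filter.mp hS).2 : (∏ q ∈ S, (q : ℝ)) ≤ z)
    have h1 := hkq' q (hsub S hS hq)
    have h0 := hk1 q (hsub S hS hq)
    have h2 : (q : ℝ) / k q ≤ q := div_le_self (by positivity) (hk1 q (hsub S hS hq))
    have h3 : 0 ≤ (q : ℝ) / k q := by positivity
    simp only [hg]
    split_ifs
    · rw [abs_le]; constructor <;> linarith
    · rw [abs_one]; linarith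
  have key : ∀ S ∈ 𝒟, ∀ S' ∈ 𝒟, ∑ t ∈ range M, (∏ q ∈ S, g q t) * ∏ q ∈ S', g q t ≤
      (if S = S' then M * (h S)⁻¹ else 0) + 2 * (z : ℝ) ^ 4 := by
    intro S hS S' hS'
    set φ : ℕ → ℕ → ℝ := fun q t => (if q ∈ S then g q t else 1) * (if q ∈ S' then g q t else 1)
    have hU : ∀ q ∈ S ∪ S', q ∈ P := fun q hq => union_subset (hsub S hS) (hsub S' hS') hq
    have e1 : ∀ t, (∏ q ∈ S, g q t) * ∏ q ∈ S', g q t = ∏ q ∈ S ∪ S', φ q t := by
      intro t
      rw [prod_mul_distrib, prod_ite_mem, prod_ite_mem, union_inter_cancel_left,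
        union_inter_cancel_right]
    have hφ : ∀ q ∈ S ∪ S', ∀ t, φ q (t % q) = φ q t := fun q hq t => by
      simp only [φ, hg, hper q (hU q hq)]
    have hQ : 0 < ∏ q ∈ S ∪ S', q := prod_pos fun q hq => (hP q (hU q hq)).pos
    have hQz : ((∏ q ∈ S ∪ S', q : ℕ) : ℝ) ≤ z * z := by
      have h1 : ∏ q ∈ S ∪ S', q ≤ (∏ q ∈ S, q) * ∏ q ∈ S', q := by
        rw [← prod_union_inter]
        exact Nat.le_mul_of_pos_right _
          (prod_pos fun q hq => (hP q (hsub S hS (mem_inter.mp hq).1)).pos)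
      exact_mod_cast h1.trans (Nat.mul_le_mul (mem_filter.mp hS).2 (mem_filter.mp hS').2)
    have h2 := sum_periodic_le hQ (fun t => ∏ q ∈ S ∪ S', φ q t) (prod_periodic _ φ hφ)
      (B := z * z) (fun t => by
        rw [← e1, abs_mul]
        exact mul_le_mul (g3 S hS t) (g3 S' hS' t) (abs_nonneg _) (by positivity)) M
    simp only [e1]
    refine le_trans h2 (add_le_add (le_of_eq ?_) ?_)
    · rw [sum_prod_periodic _ (fun q hq => hP q (hU q hq)) φ hφ]
      split_ifs with he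
      · subst he
        have e2 : ∏ q ∈ S, ∑ t ∈ range q, φ q t = ∏ q ∈ S, (q : ℝ) * ((k q : ℝ) / (q - k q))⁻¹ :=
          prod_congr rfl fun q hq => by simp only [φ, hq, if_true]; exact g2 q (hsub S hS hq)
        rw [union_self, e2, prod_mul_distrib, prod_inv_distrib]
        rw [union_self] at hQ
        have : (0 : ℝ) < ∏ q ∈ S, (q : ℝ) := by rw [← Nat.cast_prod]; exact_mod_cast hQ
        push_cast
        rw [mul_div_cancel_left₀ _ this.ne']
      · obtain ⟨q, hq⟩ : ∃ q, ¬ (q ∈ S ↔ q ∈ S') := by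
          by_contra hc
          exact he (Finset.ext fun q => by_contra fun h => hc ⟨q, h⟩)
        have hqU : q ∈ S ∪ S' := by
          rw [mem_union]; tauto
        rw [prod_eq_zero hqU, zero_div, mul_zero]
        by_cases h1 : q ∈ S
        · have h2 : q ∉ S' := by tauto
          simp only [φ, h1, h2, if_true, if_false, mul_one]
          exact g1 q (hU q hqU)
        · have h2 : q ∈ S' := by tauto
          simp only [φ, h1, h2, if_true, if_false, one_mul]
          exact g1 q (hU q hqU)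
    · calc _ ≤ 2 * ((z : ℝ) * z) * (z * z) := by gcongr
        _ = _ := by ring
  have h1 : (#{t ∈ range M | ∀ q ∈ P, ¬ bad q t} : ℝ) * G ^ 2 ≤
      ∑ t ∈ range M, (∑ S ∈ 𝒟, h S * ∏ q ∈ S, g q t) ^ 2 := by
    rw [← nsmul_eq_mul, ← sum_const]
    refine le_trans (le_of_eq (sum_congr rfl fun t ht => ?_))
      (sum_le_sum_of_subset_of_nonneg (filter_subset _ _) fun _ _ _ => sq_nonneg _)
    congr 1
    refine sum_congr rfl fun S hS => ?_
    rw [prod_eq_one fun q hq => ?_, mul_one]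
    exact if_neg ((mem_filter.mp ht).2 q (hsub S hS hq))
  have h2 : ∑ t ∈ range M, (∑ S ∈ 𝒟, h S * ∏ q ∈ S, g q t) ^ 2 ≤
      M * G + 2 * (z : ℝ) ^ 4 * G ^ 2 := by
    calc _ = ∑ S ∈ 𝒟, ∑ S' ∈ 𝒟, h S * h S' *
          ∑ t ∈ range M, (∏ q ∈ S, g q t) * ∏ q ∈ S', g q t := by
          simp only [sq, sum_mul_sum]
          simp only [mul_sum]
          rw [sum_comm]
          refine sum_congr rfl fun S _ => ?_
          rw [sum_comm]
          exact sum_congr rfl fun S' _ => sum_congr rfl fun t _ => by ring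
      _ ≤ ∑ S ∈ 𝒟, ∑ S' ∈ 𝒟, h S * h S' *
          ((if S = S' then M * (h S)⁻¹ else 0) + 2 * (z : ℝ) ^ 4) :=
          sum_le_sum fun S hS => sum_le_sum fun S' hS' =>
            mul_le_mul_of_nonneg_left (key S hS S' hS') (mul_pos (hpos S hS) (hpos S' hS')).le
      _ = _ := by
          simp only [mul_add, sum_add_distrib, mul_ite, mul_zero]
          congr 1
          · rw [hG, mul_sum]
            refine sum_congr rfl fun S hS => ?_
            rw [sum_ite_eq, if_pos hS]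
            have := (hpos S hS).ne'
            field_simp
          · simp only [← sum_mul, ← mul_sum]
            ring
  have h3 : (M / G + 2 * (z : ℝ) ^ 4) * G ^ 2 = M * G + 2 * (z : ℝ) ^ 4 * G ^ 2 := by
    field_simp
  exact le_of_mul_le_mul_right (h3 ▸ h1.trans h2) (by positivity)


lemma card_roots {ι : Type*} (s : Finset ι) (r u : ι → ℕ) {q : ℕ} (hq : q.Prime)
    (hu : ∀ i ∈ s, ¬ q ∣ u i)
    (hd : ∀ i ∈ s, ∀ i' ∈ s, i ≠ i' → ¬ q ∣ ((u i' * r i : ℤ) - u i * r i').natAbs)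
    [∀ t, Decidable (∃ i ∈ s, q ∣ r i + u i * t)] :
    #{t ∈ range q | ∃ i ∈ s, q ∣ r i + u i * t} = #s := by
  have h : {t ∈ range q | ∃ i ∈ s, q ∣ r i + u i * t} =
      s.biUnion fun i => {t ∈ range q | q ∣ r i + u i * t} := by
    ext t
    simp only [mem_filter, mem_biUnion]
    tauto
  rw [h, card_biUnion, sum_congr rfl fun i hi => card_root hq (hu i hi) (r i)]
  · simp
  · intro i hi i' hi' hne
    rw [Function.onFun, disjoint_left]
    intro t h5 h6
    exact hd i hi i' hi' hne (det_dvd (mem_filter.mp h5).2 (mem_filter.mp h6).2)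

lemma GG_subset {P R : Finset ℕ} (h : P ⊆ R) {x x' : ℕ → ℝ} (hx : ∀ q ∈ P, 0 ≤ x q)
    (hx' : ∀ q ∈ R, 0 ≤ x' q) (hxx : ∀ q ∈ P, x q ≤ x' q) (z : ℕ) : GG P x z ≤ GG R x' z :=
  (GG_mono hx hxx le_rfl).trans (sum_le_sum_of_subset_of_nonneg
    (filter_subset_filter _ (powerset_mono.mpr h)) fun S hS _ =>
      prod_nonneg fun q hq => hx' q (mem_powerset.mp (mem_filter.mp hS).1 hq))

lemma GG_markov (Q : Finset ℕ) {h : ℕ → ℝ} (h0 : ∀ q ∈ Q, 0 ≤ h q) {z K : ℕ} (hz1 : 1 ≤ z)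
    (hz : ∀ q ∈ Q, q ≤ z) (hK : 2 * ∏ q ∈ Q, (1 + h q) ≤ 2 ^ K) :
    (∏ q ∈ Q, (1 + h q)) / 2 ≤ GG Q h (z ^ K) := by
  have h1 : ∏ q ∈ Q, (1 + h q) ≤ GG Q h (z ^ K) + (∏ q ∈ Q, (1 + 2 * h q)) / 2 ^ K := by
    rw [prod_one_add, prod_one_add, GG, sum_filter, sum_div, ← sum_add_distrib]
    refine sum_le_sum fun S hS => ?_
    have hS := mem_powerset.mp hS
    have h2 : 0 ≤ ∏ q ∈ S, h q := prod_nonneg fun q hq => h0 q (hS hq)
    rw [prod_mul_distrib, prod_const]
    split_ifs with h3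
    · exact le_add_of_nonneg_right (by positivity)
    · have h4 : K ≤ #S := by
        by_contra h5
        exact h3 ((prod_le_pow_card S _ z fun q hq => hz q (hS hq)).trans
          (Nat.pow_le_pow_right hz1 (by omega)))
      rw [zero_add, le_div_iff₀ (by positivity), mul_comm]
      gcongr
      norm_num
  have h2 : ∏ q ∈ Q, (1 + 2 * h q) ≤ (∏ q ∈ Q, (1 + h q)) ^ 2 := by
    rw [← prod_pow]
    exact prod_le_prod (fun q hq => by have := h0 q hq; positivity) fun q _ => by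
      nlinarith [sq_nonneg (h q)]
  have h3 : 0 ≤ ∏ q ∈ Q, (1 + h q) := prod_nonneg fun q hq => by have := h0 q hq; positivity
  have h4 : (∏ q ∈ Q, (1 + 2 * h q)) / 2 ^ K ≤ (∏ q ∈ Q, (1 + h q)) / 2 := by
    rw [div_le_div_iff₀ (by positivity) two_pos]
    nlinarith
  linarith

lemma GG_pow (P : Finset ℕ) (hP : ∀ q ∈ P, 0 < q) (x : ℕ → ℝ) (hx : ∀ q ∈ P, 0 ≤ x q) (w m : ℕ) :
    GG P x w ^ m ≤ GG P (fun q => (1 + x q) ^ m - 1) (w ^ m) := by
  have h0 : ∀ m : ℕ, ∀ q ∈ P, 0 ≤ (1 + x q) ^ m - 1 := fun m q hq =>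
    sub_nonneg.mpr (one_le_pow₀ (by have := hx q hq; linarith))
  induction m with
  | zero =>
    refine le_trans (le_of_eq ?_) (GG_subset (empty_subset P) (x := fun _ => 0) (by simp) (h0 0)
      (by simp) _)
    simp [GG, filter_singleton]
  | succ m ih =>
    rw [pow_succ, pow_succ w]
    refine (mul_le_mul_of_nonneg_right ih (GG_nonneg hx w)).trans
      ((GG_mul2 P hP _ _ (h0 m) hx _ _).trans (le_of_eq ?_))
    congr 1
    ext q
    ring

lemma prod_le_card (S : Finset ℕ) (hS : ∀ q ∈ S, 2 ≤ q) :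
    ∏ q ∈ S, (1 + 1 / ((q : ℝ) - 1)) ≤ #S + 1 := by
  induction S using Finset.induction_on_max with
  | empty => simp
  | insert a S ha ih =>
    have h1 : a ∉ S := fun h => lt_irrefl _ (ha a h)
    have h2 := ih fun q hq => hS q (mem_insert_of_mem hq)
    have h3 : #S + 2 ≤ a := by
      have h4 := hS a (mem_insert_self _ _)
      have := card_le_card (s := S) (t := Ico 2 a) fun q hq =>
        mem_Ico.mpr ⟨hS q (mem_insert_of_mem hq), ha q hq⟩
      rw [Nat.card_Ico] at this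
      omega
    have h4 : (#S : ℝ) + 2 ≤ a := by exact_mod_cast h3
    have h5 : 1 / ((a : ℝ) - 1) ≤ 1 / (#S + 1) :=
      one_div_le_one_div_of_le (by positivity) (by linarith)
    rw [prod_insert h1, card_insert_of_notMem h1]
    calc _ ≤ (1 + 1 / ((#S : ℝ) + 1)) * (#S + 1) := by
          refine mul_le_mul (by linarith) h2 (prod_nonneg fun q hq => ?_) (by positivity)
          have : (2 : ℝ) ≤ q := by exact_mod_cast hS q (mem_insert_of_mem hq)
          have : 0 ≤ 1 / ((q : ℝ) - 1) := div_nonneg zero_le_one (by linarith)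
          linarith
      _ = _ := by push_cast; field_simp

lemma hh_le_log {n : ℕ} (hn : n ≠ 0) : hh n ≤ 1 + 2 * Real.log n := by
  have h1 := prod_le_card n.primeFactors fun q hq => (Nat.prime_of_mem_primeFactors hq).two_le
  have h2 : 2 ^ #n.primeFactors ≤ n := (pow_card_le_prod _ _ 2 fun q hq =>
    (Nat.prime_of_mem_primeFactors hq).two_le).trans
      (Nat.le_of_dvd (Nat.pos_of_ne_zero hn) (Nat.prod_primeFactors_dvd n))
  have h3 : (2 : ℝ) ^ #n.primeFactors ≤ n := by exact_mod_cast h2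
  have h4 := Real.log_le_log (by positivity) h3
  rw [Real.log_pow] at h4
  have h5 := Real.log_two_gt_d9
  have h6 : (0 : ℝ) ≤ #n.primeFactors := by positivity
  unfold hh
  nlinarith

/-- Many linear forms. -/
theorem sieve_fin {ι : Type*} (s : Finset ι) (r u : ι → ℕ) {m w B : ℕ} (hm : #s = m) (hm0 : 0 < m)
    (hw : 2 ≤ w) (hu : ∀ i ∈ s, u i ≠ 0 ∧ u i ≤ B ∧ r i ≤ B)
    (hd : ∀ i ∈ s, ∀ i' ∈ s, i ≠ i' → (u i' * r i : ℤ) - u i * r i' ≠ 0) (M : ℕ)
    [∀ t, Decidable (∀ i ∈ s, (r i + u i * t).Prime ∧ w < r i + u i * t)] :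
    (#{t ∈ range M | ∀ i ∈ s, (r i + u i * t).Prime ∧ w < r i + u i * t} : ℝ) ≤
      M * (1 + 2 * (m ^ 2 + 3 * m ^ 2 * Real.log B)) ^ m / Real.log w ^ m +
        2 * (w : ℝ) ^ (4 * m) := by
  classical
  set D := m.factorial * (∏ i ∈ s, u i) *
    ∏ p ∈ s.offDiag, ((u p.2 * r p.1 : ℤ) - u p.1 * r p.2).natAbs with hDdef
  have hD : D ≠ 0 := mul_ne_zero (mul_ne_zero m.factorial_ne_zero
    (prod_ne_zero_iff.mpr fun i hi => (hu i hi).1)) (prod_ne_zero_iff.mpr fun p hp => by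
      obtain ⟨h1, h2, h3⟩ := mem_offDiag.mp hp
      exact Int.natAbs_ne_zero.mpr (hd _ h1 _ h2 h3))
  have hB : 1 ≤ B := by
    obtain ⟨i, hi⟩ := card_pos.mp (hm ▸ hm0)
    have := hu i hi
    omega
  have hDB : D ≤ m ^ m * B ^ (3 * m ^ 2) := by
    have h1 : ∏ i ∈ s, u i ≤ B ^ m := hm ▸ prod_le_pow_card s _ B fun i hi => (hu i hi).2.1
    have h2 : ∏ p ∈ s.offDiag, ((u p.2 * r p.1 : ℤ) - u p.1 * r p.2).natAbs ≤ (B ^ 2) ^ (m ^ 2) := by
      refine (prod_le_pow_card _ _ (B ^ 2) fun p hp => ?_).trans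
        (Nat.pow_le_pow_right (by positivity) ?_)
      · obtain ⟨h1, h2, -⟩ := mem_offDiag.mp hp
        exact det_le (hu _ h1).2.1 (hu _ h2).2.1 (hu _ h1).2.2 (hu _ h2).2.2
      · rw [offDiag_card, hm, sq]; omega
    have h3 : B ^ m ≤ B ^ (m ^ 2) := Nat.pow_le_pow_right hB (Nat.le_self_pow two_ne_zero m)
    calc D ≤ m ^ m * B ^ (m ^ 2) * (B ^ 2) ^ (m ^ 2) :=
          Nat.mul_le_mul (Nat.mul_le_mul m.factorial_le_pow (h1.trans h3)) h2
      _ = _ := by ring
  have hhD : hh D ≤ 1 + 2 * (m ^ 2 + 3 * m ^ 2 * Real.log B) := by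
    refine (hh_le_log hD).trans ?_
    have h1 : (D : ℝ) ≤ (m : ℝ) ^ m * (B : ℝ) ^ (3 * m ^ 2) := by exact_mod_cast hDB
    have h2 := Real.log_le_log (by exact_mod_cast Nat.pos_of_ne_zero hD) h1
    have h3 : (0 : ℝ) < m := by exact_mod_cast hm0
    have h4 : (0 : ℝ) < B := by exact_mod_cast hB
    rw [Real.log_mul (by positivity) (by positivity), Real.log_pow, Real.log_pow] at h2
    have h5 := Real.log_le_sub_one_of_pos h3
    push_cast at h2
    nlinarith
  have hq3 : ∀ q ∈ PP w D, m < q := by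
    intro q hq
    obtain ⟨-, h3, h4⟩ := mem_filter.mp hq
    by_contra h5
    exact h4 (((h3.dvd_factorial.mpr (by omega)).mul_right _).mul_right _)
  have h := selberg (PP w D) (fun q hq => (mem_filter.mp hq).2.1)
    (fun q t => ∃ i ∈ s, q ∣ r i + u i * t)
    (fun q _ t => by simp only [dvd_mod_iff']) m hm0
    (fun q hq => by
      obtain ⟨-, h3, h4⟩ := mem_filter.mp hq
      rw [← hm]
      exact card_roots s r u h3
        (fun i hi h => h4 (((h.trans (dvd_prod_of_mem _ hi)).mul_left _).mul_right _))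
        fun i hi i' hi' hne h => h4 ((h.trans (dvd_prod_of_mem (a := (i, i'))
          (fun p : ι × ι => ((u p.2 * r p.1 : ℤ) - u p.1 * r p.2).natAbs)
          (mem_offDiag.mpr ⟨hi, hi', hne⟩))).mul_left _))
    hq3 (z := w ^ m) (Nat.pow_pos (by omega)) M
  have h1 : (#{t ∈ range M | ∀ i ∈ s, (r i + u i * t).Prime ∧ w < r i + u i * t} : ℝ) ≤
      #{t ∈ range M | ∀ q ∈ PP w D, ¬ ∃ i ∈ s, q ∣ r i + u i * t} := by
    refine Nat.cast_le.mpr (card_le_card fun t ht => ?_)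
    obtain ⟨h2, h3⟩ := mem_filter.mp ht
    refine mem_filter.mpr ⟨h2, fun q hq ⟨i, hi, h5⟩ => ?_⟩
    have := mem_range.mp (mem_filter.mp hq).1
    have h6 := (Nat.prime_dvd_prime_iff_eq (mem_filter.mp hq).2.1 (h3 i hi).1).mp h5
    have := (h3 i hi).2
    omega
  refine h1.trans (h.trans (add_le_add ?_ (le_of_eq (by push_cast; ring))))
  have h3 : 0 < Real.log w := Real.log_pos (by exact_mod_cast hw)
  have h4 := hh_pos D
  have h5 := log_le_GG w hD
  have hx : ∀ q ∈ PP w D, 0 ≤ 1 / ((q : ℝ) - 1) := fun q hq =>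
    inv_pred_nonneg (mem_filter.mp hq).2.1
  have hP : ∀ q ∈ PP w D, 0 < q := fun q hq => (mem_filter.mp hq).2.1.pos
  have g0 := GG_nonneg hx w
  have h6 := (GG_pow (PP w D) hP _ hx w m).trans
    (GG_mono (x' := fun q => (m : ℝ) / (q - m))
      (fun q hq => sub_nonneg.mpr (one_le_pow₀ (by have := hx q hq; linarith))) (fun q hq => by
        have a0 : (m : ℝ) < q := by exact_mod_cast hq3 q hq
        have a3 : (1 : ℝ) ≤ m := by exact_mod_cast hm0
        have a1 : (0 : ℝ) < q - 1 := by linarith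
        have a2 : (0 : ℝ) < q - m := by linarith
        have a4 := one_add_mul_le_pow (a := -(1 / (q : ℝ))) (by
          have : 1 / (q : ℝ) ≤ 1 := by rw [div_le_one (by linarith)]; linarith
          linarith) m
        have a5 : (0 : ℝ) < q := by linarith
        rw [show 1 + (m : ℝ) * -(1 / (q : ℝ)) = (q - m) / q by field_simp; ring,
          show 1 + -(1 / (q : ℝ)) = (q - 1) / q by field_simp; ring] at a4
        have a6 := one_div_le_one_div_of_le (by positivity) a4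
        rw [← one_div_pow, one_div_div, one_div_div] at a6
        rw [show 1 + 1 / ((q : ℝ) - 1) = q / (q - 1) by field_simp; ring,
          show (m : ℝ) / (q - m) = q / (q - m) - 1 by field_simp; ring]
        linarith) le_rfl)
  change M / GG (PP w D) (fun q => (m : ℝ) / (q - m)) (w ^ m) ≤ _
  have h7 : Real.log w ^ m ≤ GG (PP w D) (fun q => (m : ℝ) / (q - m)) (w ^ m) *
      (1 + 2 * (m ^ 2 + 3 * m ^ 2 * Real.log B)) ^ m := by
    refine (pow_le_pow_left₀ h3.le h5 m).trans ?_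
    rw [mul_pow]
    exact mul_le_mul h6 (pow_le_pow_left₀ h4.le hhD m) (by positivity)
      (le_trans (by positivity) h6)
  have h8 : 0 < GG (PP w D) (fun q => (m : ℝ) / (q - m)) (w ^ m) := by
    by_contra h9
    have : (0 : ℝ) ≤ (1 + 2 * (m ^ 2 + 3 * m ^ 2 * Real.log B)) ^ m :=
      pow_nonneg (h4.le.trans hhD) m
    nlinarith [pow_pos h3 m]
  rw [div_le_div_iff₀ h8 (by positivity), mul_assoc, mul_comm (_ ^ m)]
  gcongr

end Pool.Agent.MP_100d00_nt
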