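import Pool.Agent.MP_a96b63_al.Sieve2

/-!
Sieve bounds: three linear forms; prime pairs whose gap avoids a set of primes.
-/

set_option autoImplicit false

namespace Pool.Agent.MP_100d00_nt

open Finset Pool.Agent.MP_a96b63_al

lemma GG_mul2 (P : Finset ℕ) (hP : ∀ q ∈ P, 0 < q) (x x' : ℕ → ℝ) (hx : ∀ q ∈ P, 0 ≤ x q)
    (hx' : ∀ q ∈ P, 0 ≤ x' q) (z z' : ℕ) :
    GG P x z * GG P x' z' ≤ GG P (fun q => x q + x' q + x q * x' q) (z * z') := by
  induction P using Finset.induction_on generalizing z z' with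
  | empty =>
    simp only [GG, powerset_empty, sum_filter, sum_singleton, prod_empty]
    split_ifs with h1 h2 h3 <;> first | exact absurd (Nat.mul_le_mul h1 h2) h3 | simp
  | insert q P hq ih =>
    have h1 := fun p hp => hP p (mem_insert_of_mem hp)
    have h2 := fun p hp => hx p (mem_insert_of_mem hp)
    have h2' := fun p hp => hx' p (mem_insert_of_mem hp)
    have h3 := hP q (mem_insert_self _ _)
    have h4 := hx q (mem_insert_self _ _)
    have h4' := hx' q (mem_insert_self _ _)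
    have h5 : ∀ p ∈ P, 0 ≤ x p + x' p + x p * x' p := fun p hp => by
      have := h2 p hp; have := h2' p hp; positivity
    rw [GG_insert hq h3, GG_insert hq h3, GG_insert hq h3]
    have a1 := ih h1 h2 h2' z z'
    have a2 := (ih h1 h2 h2' (z / q) z').trans (GG_mono h5 (fun _ _ => le_rfl)
      (show z / q * z' ≤ z * z' / q by
        rw [mul_comm, mul_comm z]; exact Nat.mul_div_le_mul_div_assoc _ _ _))
    have a3 := (ih h1 h2 h2' z (z' / q)).trans (GG_mono h5 (fun _ _ => le_rfl)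
      (Nat.mul_div_le_mul_div_assoc z z' q))
    have a4 := (ih h1 h2 h2' (z / q) (z' / q)).trans (GG_mono h5 (fun _ _ => le_rfl)
      (le_trans (Nat.mul_le_mul_right _ (Nat.div_le_self z q))
        (Nat.mul_div_le_mul_div_assoc z z' q)))
    have b2 := mul_le_mul_of_nonneg_left a2 h4
    have b3 := mul_le_mul_of_nonneg_left a3 h4'
    have b4 := mul_le_mul_of_nonneg_left a4 (mul_nonneg h4 h4')
    nlinarith

lemma hh_le {n : ℕ} (hn : n ≠ 0) : hh n ≤ n := by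
  calc hh n ≤ ∏ q ∈ n.primeFactors, (q : ℝ) := by
        refine prod_le_prod (fun q hq => ?_) fun q hq => ?_
        · have := inv_pred_nonneg (Nat.prime_of_mem_primeFactors hq); linarith
        · have h : (2 : ℝ) ≤ q := by exact_mod_cast (Nat.prime_of_mem_primeFactors hq).two_le
          have : 1 / ((q : ℝ) - 1) ≤ 1 := by rw [div_le_one (by linarith)]; linarith
          linarith
    _ ≤ n := by
        rw [← Nat.cast_prod]
        exact Nat.cast_le.mpr (Nat.le_of_dvd (Nat.pos_of_ne_zero hn) (Nat.prod_primeFactors_dvd n))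

lemma hh_mul_le {a b : ℕ} (ha : a ≠ 0) (hb : b ≠ 0) : hh (a * b) ≤ hh a * hh b := by
  unfold hh
  rw [Nat.primeFactors_mul ha hb, ← prod_union_inter]
  refine le_mul_of_one_le_right (prod_nonneg fun q hq => ?_) (one_le_prod fun q hq => ?_)
  · have : q.Prime := by
      rcases mem_union.mp hq with h | h <;> exact Nat.prime_of_mem_primeFactors h
    have := inv_pred_nonneg this; linarith
  · have := inv_pred_nonneg (Nat.prime_of_mem_primeFactors (mem_inter.mp hq).1); linarith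

lemma det_dvd {q u u' r r' t : ℕ} (h5 : q ∣ r + u * t) (h6 : q ∣ r' + u' * t) :
    q ∣ ((u' * r : ℤ) - u * r').natAbs := by
  have a1 := Int.natCast_dvd_natCast.mpr h5
  have a2 := Int.natCast_dvd_natCast.mpr h6
  have a3 := dvd_sub (a1.mul_left u') (a2.mul_left u)
  push_cast at a3
  rw [show (u' : ℤ) * (r + u * t) - u * (r' + u' * t) = u' * r - u * r' by ring] at a3
  exact Int.natCast_dvd.mp a3

lemma det_le {u u' r r' B : ℕ} (h1 : u ≤ B) (h2 : u' ≤ B) (h3 : r ≤ B) (h4 : r' ≤ B) :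
    ((u' * r : ℤ) - u * r').natAbs ≤ B ^ 2 := by
  have a1 : u' * r ≤ B ^ 2 := by rw [sq]; exact Nat.mul_le_mul h2 h3
  have a2 : u * r' ≤ B ^ 2 := by rw [sq]; exact Nat.mul_le_mul h1 h4
  rw [← Nat.cast_mul, ← Nat.cast_mul]
  omega

/-- Three linear forms. -/
theorem sieve_three {u₁ u₂ u₃ r₁ r₂ r₃ w B : ℕ} (hw : 2 ≤ w) (p₁ : u₁ ≠ 0) (p₂ : u₂ ≠ 0)
    (p₃ : u₃ ≠ 0) (b₁ : u₁ ≤ B) (b₂ : u₂ ≤ B) (b₃ : u₃ ≤ B) (c₁ : r₁ ≤ B) (c₂ : r₂ ≤ B)
    (c₃ : r₃ ≤ B) (d₁ : (u₂ * r₁ : ℤ) - u₁ * r₂ ≠ 0) (d₂ : (u₃ * r₁ : ℤ) - u₁ * r₃ ≠ 0)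
    (d₃ : (u₃ * r₂ : ℤ) - u₂ * r₃ ≠ 0) (M : ℕ) :
    (#{t ∈ range M | ((r₁ + u₁ * t).Prime ∧ w < r₁ + u₁ * t) ∧
        ((r₂ + u₂ * t).Prime ∧ w < r₂ + u₂ * t) ∧ (r₃ + u₃ * t).Prime ∧ w < r₃ + u₃ * t} : ℝ) ≤
      M * (6 * (B : ℝ) ^ 9) ^ 3 / Real.log w ^ 3 + 2 * (w : ℝ) ^ 12 := by
  set e₁ := ((u₂ * r₁ : ℤ) - u₁ * r₂).natAbs with he₁
  set e₂ := ((u₃ * r₁ : ℤ) - u₁ * r₃).natAbs with he₂
  set e₃ := ((u₃ * r₂ : ℤ) - u₂ * r₃).natAbs with he₃
  set D := 6 * (u₁ * u₂ * u₃) * (e₁ * e₂ * e₃) with hDdef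
  have f₁ : e₁ ≠ 0 := Int.natAbs_ne_zero.mpr d₁
  have f₂ : e₂ ≠ 0 := Int.natAbs_ne_zero.mpr d₂
  have f₃ : e₃ ≠ 0 := Int.natAbs_ne_zero.mpr d₃
  have hD : D ≠ 0 := by positivity
  have hDB : D ≤ 6 * B ^ 9 := by
    have g₁ : e₁ ≤ B ^ 2 := det_le b₁ b₂ c₁ c₂
    have g₂ : e₂ ≤ B ^ 2 := det_le b₁ b₃ c₁ c₃
    have g₃ : e₃ ≤ B ^ 2 := det_le b₂ b₃ c₂ c₃
    calc D ≤ 6 * (B * B * B) * (B ^ 2 * B ^ 2 * B ^ 2) := by rw [hDdef]; gcongr
      _ = _ := by ring
  have hhD : hh D ≤ 6 * (B : ℝ) ^ 9 := (hh_le hD).trans (by exact_mod_cast hDB)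
  have hq3 : ∀ q ∈ PP w D, 3 < q := by
    intro q hq
    obtain ⟨-, h3, h4⟩ := mem_filter.mp hq
    have := h3.two_le
    by_contra h5
    have h6 : q ∣ 6 := by
      obtain rfl | rfl : q = 2 ∨ q = 3 := by omega
      all_goals norm_num
    exact h4 ((h6.mul_right _).mul_right _)
  have h := selberg (PP w D) (fun q hq => (mem_filter.mp hq).2.1)
    (fun q t => q ∣ r₁ + u₁ * t ∨ q ∣ r₂ + u₂ * t ∨ q ∣ r₃ + u₃ * t)
    (fun q _ t => by rw [dvd_mod_iff', dvd_mod_iff', dvd_mod_iff']) 3 three_pos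
    (fun q hq => by
      obtain ⟨-, h3, h4⟩ := mem_filter.mp hq
      have k₁ : ¬ q ∣ u₁ := fun h => h4 ((((h.mul_right _).mul_right _).mul_left _).mul_right _)
      have k₂ : ¬ q ∣ u₂ := fun h => h4 ((((h.mul_left _).mul_right _).mul_left _).mul_right _)
      have k₃ : ¬ q ∣ u₃ := fun h => h4 (((h.mul_left _).mul_left _).mul_right _)
      have l₁ : ¬ q ∣ e₁ := fun h => h4 (((h.mul_right _).mul_right _).mul_left _)
      have l₂ : ¬ q ∣ e₂ := fun h => h4 (((h.mul_left _).mul_right _).mul_left _)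
      have l₃ : ¬ q ∣ e₃ := fun h => h4 ((h.mul_left _).mul_left _)
      rw [filter_or, filter_or, card_union_of_disjoint, card_union_of_disjoint, card_root h3 k₁,
        card_root h3 k₂, card_root h3 k₃]
      · rw [disjoint_left]
        intro t h5 h6
        exact l₃ (det_dvd (mem_filter.mp h5).2 (mem_filter.mp h6).2)
      · rw [disjoint_left]
        intro t h5 h6
        rcases mem_union.mp h6 with h6 | h6
        · exact l₁ (det_dvd (mem_filter.mp h5).2 (mem_filter.mp h6).2)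
        · exact l₂ (det_dvd (mem_filter.mp h5).2 (mem_filter.mp h6).2))
    hq3 (z := w * w * w) (Nat.mul_pos (Nat.mul_pos (by omega) (by omega)) (by omega)) M
  have h1 : (#{t ∈ range M | ((r₁ + u₁ * t).Prime ∧ w < r₁ + u₁ * t) ∧
        ((r₂ + u₂ * t).Prime ∧ w < r₂ + u₂ * t) ∧ (r₃ + u₃ * t).Prime ∧ w < r₃ + u₃ * t} : ℝ) ≤
      #{t ∈ range M | ∀ q ∈ PP w D,
        ¬ (q ∣ r₁ + u₁ * t ∨ q ∣ r₂ + u₂ * t ∨ q ∣ r₃ + u₃ * t)} := by
    refine Nat.cast_le.mpr (card_le_card fun t ht => ?_)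
    obtain ⟨h2, ⟨h3, h4⟩, ⟨h3', h4'⟩, h3'', h4''⟩ := mem_filter.mp ht
    refine mem_filter.mpr ⟨h2, fun q hq h5 => ?_⟩
    have := mem_range.mp (mem_filter.mp hq).1
    rcases h5 with h5 | h5 | h5
    · have h6 := (Nat.prime_dvd_prime_iff_eq (mem_filter.mp hq).2.1 h3).mp h5
      omega
    · have h6 := (Nat.prime_dvd_prime_iff_eq (mem_filter.mp hq).2.1 h3').mp h5
      omega
    · have h6 := (Nat.prime_dvd_prime_iff_eq (mem_filter.mp hq).2.1 h3'').mp h5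
      omega
  refine h1.trans (h.trans (add_le_add ?_ (le_of_eq (by push_cast; ring))))
  have h3 : 0 < Real.log w := Real.log_pos (by exact_mod_cast hw)
  have h4 := hh_pos D
  have h5 := log_le_GG w hD
  have hx : ∀ q ∈ PP w D, 0 ≤ 1 / ((q : ℝ) - 1) := fun q hq =>
    inv_pred_nonneg (mem_filter.mp hq).2.1
  have hP : ∀ q ∈ PP w D, 0 < q := fun q hq => (mem_filter.mp hq).2.1.pos
  have hx2 : ∀ q ∈ PP w D, 0 ≤ 2 * (1 / ((q : ℝ) - 1)) + (1 / ((q : ℝ) - 1)) ^ 2 := fun q hq => by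
    have := hx q hq; positivity
  have g0 := GG_nonneg hx w
  have h6 := ((mul_le_mul_of_nonneg_right (GG_mul (PP w D) hP _ hx w w) g0).trans
    (GG_mul2 (PP w D) hP _ _ hx2 hx (w * w) w)).trans
    (GG_mono (x' := fun q => ((3 : ℕ) : ℝ) / (q - (3 : ℕ)))
      (fun q hq => by have := hx q hq; positivity) (fun q hq => by
        have : (3 : ℝ) < q := by exact_mod_cast hq3 q hq
        have a1 : (0 : ℝ) < q - 1 := by linarith
        have a2 : (0 : ℝ) < q - 3 := by linarith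
        push_cast
        rw [show 2 * (1 / ((q : ℝ) - 1)) + (1 / ((q : ℝ) - 1)) ^ 2 + 1 / ((q : ℝ) - 1) +
          (2 * (1 / ((q : ℝ) - 1)) + (1 / ((q : ℝ) - 1)) ^ 2) * (1 / ((q : ℝ) - 1)) =
          (3 * q ^ 2 - 3 * q + 1) / (q - 1) ^ 3 by field_simp; ring,
          div_le_div_iff₀ (by positivity) a2]
        nlinarith) le_rfl)
  change M / GG (PP w D) (fun q => ((3 : ℕ) : ℝ) / (q - (3 : ℕ))) (w * w * w) ≤ _
  have h7 : Real.log w ^ 3 ≤
      GG (PP w D) (fun q => ((3 : ℕ) : ℝ) / (q - (3 : ℕ))) (w * w * w) * (6 * (B : ℝ) ^ 9) ^ 3 := by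
    refine (pow_le_pow_left₀ h3.le h5 3).trans ?_
    rw [mul_pow, pow_three' (GG _ _ _)]
    exact mul_le_mul h6 (pow_le_pow_left₀ h4.le hhD 3) (by positivity)
      (le_trans (by positivity) h6)
  have h8 : 0 < GG (PP w D) (fun q => ((3 : ℕ) : ℝ) / (q - (3 : ℕ))) (w * w * w) := by
    by_contra h9
    have : (0 : ℝ) ≤ (6 * (B : ℝ) ^ 9) ^ 3 := by positivity
    nlinarith [pow_pos h3 3]
  rw [div_le_div_iff₀ h8 (by positivity), mul_assoc, mul_comm ((6 * (B : ℝ) ^ 9) ^ 3)]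
  gcongr

/-- admissible classes modulo the product of the primes of `Q` -/
lemma card_adm (Q : Finset ℕ) (hQ : ∀ l ∈ Q, l.Prime) {g : ℕ} (hg : ∀ l ∈ Q, g < l) :
    (#{a ∈ range (∏ l ∈ Q, l) | ∀ l ∈ Q, ∀ j ∈ range (g + 1), ¬ l ∣ a + j} : ℝ) ≤
      (∏ l ∈ Q, l : ℕ) * (∏ l ∈ Q, (1 - 1 / (l : ℝ))) ^ (g + 1) := by
  have h := sum_prod_periodic Q hQ
    (fun l t => if ∀ j ∈ range (g + 1), ¬ l ∣ t + j then 1 else 0) (fun l _ t => by
      have : ∀ j, l ∣ t % l + j ↔ l ∣ t + j := fun j => by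
        rw [Nat.dvd_iff_mod_eq_zero, Nat.dvd_iff_mod_eq_zero, Nat.mod_add_mod]
      simp only [this])
  simp only [prod_boole, sum_boole] at h
  rw [h, Nat.cast_prod, ← prod_pow, ← prod_mul_distrib]
  refine prod_le_prod (fun _ _ => by positivity) fun l hl => ?_
  have h1 := hg l hl
  have h2 : #{t ∈ range l | ∀ j ∈ range (g + 1), ¬ l ∣ t + j} ≤ l - (g + 1) := by
    refine (card_le_card (t := Icc 1 (l - (g + 1))) fun t ht => ?_).trans (by simp)
    obtain ⟨h3, h4⟩ := mem_filter.mp ht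
    have h3 := mem_range.mp h3
    refine mem_Icc.mpr ⟨?_, ?_⟩
    · by_contra h5
      exact h4 0 (by simp) (by rw [show t = 0 by omega]; simp)
    · by_contra h5
      exact h4 (l - t) (mem_range.mpr (by omega)) (by rw [show t + (l - t) = l by omega])
  have h3 : (1 : ℝ) < l := by exact_mod_cast (hQ l hl).one_lt
  have h4 := one_add_mul_le_pow (a := -(1 / (l : ℝ))) (by
    have : 1 / (l : ℝ) ≤ 1 := by rw [div_le_one (by linarith)]; linarith
    linarith) (g + 1)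
  calc _ ≤ ((l - (g + 1) : ℕ) : ℝ) := by exact_mod_cast h2
    _ = l * (1 + ((g + 1 : ℕ) : ℝ) * -(1 / (l : ℝ))) := by
        rw [Nat.cast_sub (by omega)]; field_simp; ring
    _ ≤ _ := by rw [sub_eq_add_neg]; gcongr

/-- prime pairs `p, p + g` such that no prime of `Q` divides any of `p, ..., p + g` -/
theorem bad_le (Q : Finset ℕ) (hQ : ∀ l ∈ Q, l.Prime) {g w : ℕ} (hg0 : 1 ≤ g)
    (hg : ∀ l ∈ Q, g < l) (hw : 2 ≤ w) (x : ℕ) :
    (#{p ∈ range (x + 1) | (p.Prime ∧ w < p) ∧ (p + g).Prime ∧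
        ∀ l ∈ Q, ∀ j ∈ range (g + 1), ¬ l ∣ p + j} : ℝ) ≤
      ((x : ℝ) + (∏ l ∈ Q, l : ℕ)) * (4 * g ^ 2 * (∏ l ∈ Q, (1 - 1 / (l : ℝ))) ^ (g - 1)) /
        Real.log w ^ 2 + 2 * (∏ l ∈ Q, l : ℕ) * (w : ℝ) ^ 8 := by
  set M := ∏ l ∈ Q, l with hM
  set ρ := ∏ l ∈ Q, (1 - 1 / (l : ℝ)) with hρ
  have hM0 : 0 < M := prod_pos fun l hl => (hQ l hl).pos
  have hl1 : ∀ l ∈ Q, (1 : ℝ) < l := fun l hl => by exact_mod_cast (hQ l hl).one_lt
  have hρ0 : 0 < ρ := prod_pos fun l hl => by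
    have := hl1 l hl
    rw [sub_pos, div_lt_one (by linarith)]; exact this
  have hρ1 : ρ ≤ 1 := prod_le_one (fun l hl => by
    have := hl1 l hl
    rw [sub_nonneg, div_le_one (by linarith)]; exact this.le) fun l hl => by
      have : (0 : ℝ) ≤ 1 / l := by positivity
      linarith
  have hhM : hh M * ρ = 1 := by
    unfold hh
    rw [hM, Nat.primeFactors_prod hQ, hρ, ← prod_mul_distrib]
    refine prod_eq_one fun l hl => ?_
    have := hl1 l hl
    have h2 : (l : ℝ) - 1 ≠ 0 := by linarith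
    field_simp; ring
  have hD : hh (M * (2 * g)) ≤ 2 * g / ρ := by
    have h1 := hh_mul_le (a := M) (b := 2 * g) hM0.ne' (by omega)
    have h2 := hh_le (n := 2 * g) (by omega)
    have h3 := hh_pos M
    rw [le_div_iff₀ hρ0]
    push_cast at h2
    calc _ ≤ hh M * (2 * g) * ρ := by
          gcongr
          exact h1.trans (by gcongr)
      _ = 2 * g * (hh M * ρ) := by ring
      _ = _ := by rw [hhM, mul_one]
  set A := {a ∈ range M | ∀ l ∈ Q, ∀ j ∈ range (g + 1), ¬ l ∣ a + j} with hA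
  have hAc : (#A : ℝ) ≤ M * ρ ^ (g + 1) := card_adm Q hQ hg
  have hlog : 0 < Real.log w := Real.log_pos (by exact_mod_cast hw)
  have h1 : #{p ∈ range (x + 1) | (p.Prime ∧ w < p) ∧ (p + g).Prime ∧
        ∀ l ∈ Q, ∀ j ∈ range (g + 1), ¬ l ∣ p + j} ≤
      ∑ a ∈ A, #{t ∈ range (x / M + 1) | ((a + M * t).Prime ∧ w < a + M * t) ∧
        (a + g + M * t).Prime ∧ w < a + g + M * t} := by
    rw [← card_sigma]
    refine card_le_card_of_injOn (fun p => ⟨p % M, p / M⟩) (fun p hp => ?_) fun p _ p' _ h => ?_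
    · obtain ⟨h2, ⟨h3, h4⟩, h5, h6⟩ := mem_filter.mp (mem_coe.mp hp)
      have h7 := Nat.mod_add_div p M
      have h8 : p % M + g + M * (p / M) = p + g := by omega
      refine mem_coe.mpr (mem_sigma.mpr ⟨mem_filter.mpr ⟨mem_range.mpr (Nat.mod_lt _ hM0),
        fun l hl j hj h9 => h6 l hl j hj ?_⟩, mem_filter.mpr ⟨mem_range.mpr (Nat.lt_succ_of_le
          (Nat.div_le_div_right (Nat.lt_succ_iff.mp (mem_range.mp h2)))), ?_⟩⟩)
      · have h10 : l ∣ M * (p / M) := (dvd_prod_of_mem _ hl).mul_right _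
        have := dvd_add h9 h10
        rwa [show p % M + j + M * (p / M) = p + j by omega] at this
      · dsimp only
        rw [h7, h8]
        exact ⟨⟨h3, h4⟩, h5, by omega⟩
    · have h2 := congrArg (fun s : (_ : ℕ) × ℕ => s.1 + M * s.2) h
      simpa only [Nat.mod_add_div] using h2
  have h2 : ∀ a ∈ A, (#{t ∈ range (x / M + 1) | ((a + M * t).Prime ∧ w < a + M * t) ∧
        (a + g + M * t).Prime ∧ w < a + g + M * t} : ℝ) ≤
      ((x : ℝ) / M + 1) * (2 * g / ρ) ^ 2 / Real.log w ^ 2 + 2 * (w : ℝ) ^ 8 := by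
    intro a _
    refine (sieve_two (D := M * (2 * g)) (by positivity) hw ⟨M * g, by ring⟩ (dvd_mul_right _ _)
      (dvd_mul_right _ _) (fun q hq h => ?_) _).trans ?_
    · push_cast at h
      rw [show (M : ℤ) * a - M * (a + g) = -((M * g : ℕ) : ℤ) by push_cast; ring, dvd_neg,
        Int.natCast_dvd_natCast] at h
      exact h.trans ⟨2, by ring⟩
    · have h3 := hh_pos (M * (2 * g))
      have h4 : ((x / M + 1 : ℕ) : ℝ) ≤ (x : ℝ) / M + 1 := by
        push_cast; have := @Nat.cast_div_le ℝ _ _ _ x M; linarith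
      gcongr
  have hMr : (0 : ℝ) < M := by exact_mod_cast hM0
  obtain ⟨k, rfl⟩ : ∃ k, g = k + 1 := ⟨g - 1, by omega⟩
  calc _ ≤ ((∑ a ∈ A, #{t ∈ range (x / M + 1) | ((a + M * t).Prime ∧ w < a + M * t) ∧
        (a + (k + 1) + M * t).Prime ∧ w < a + (k + 1) + M * t} : ℕ) : ℝ) := by exact_mod_cast h1
    _ ≤ #A * (((x : ℝ) / M + 1) * (2 * (k + 1 : ℕ) / ρ) ^ 2 / Real.log w ^ 2 + 2 * (w : ℝ) ^ 8) := by
        rw [Nat.cast_sum, ← nsmul_eq_mul]; exact sum_le_card_nsmul _ _ _ h2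
    _ ≤ M * ρ ^ (k + 1 + 1) * (((x : ℝ) / M + 1) * (2 * (k + 1 : ℕ) / ρ) ^ 2 / Real.log w ^ 2) +
        M * 1 * (2 * (w : ℝ) ^ 8) := by
        rw [mul_add]
        gcongr
        exact hAc.trans (by gcongr; exact pow_le_one₀ hρ0.le hρ1)
    _ = _ := by
        rw [Nat.add_sub_cancel]
        field_simp
        ring

end Pool.Agent.MP_100d00_nt
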